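import Pool.Agent.Lib.MP_7252b7_al_h9.SLp

/-!
# The soluble subgroups of `SL_p(K)`
-/

set_option autoImplicit false
set_option linter.unusedSectionVars false

namespace Pool.Agent.CoveringSubgroups.H9

open Module

variable {p : ℕ} {K : Type} [Field K]

/-- the natural representation -/
def natRep (D : Subgroup (SLp p K)) : D →* End K (Fin p → K) where
  toFun d := Matrix.toLin' ((d : SLp p K) : Matrix (Fin p) (Fin p) K)
  map_one' := by
    show Matrix.toLin' (1 : Matrix (Fin p) (Fin p) K) = _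
    rw [Matrix.toLin'_one]; rfl
  map_mul' := by
    intro a b
    show Matrix.toLin' (((a : SLp p K) : Matrix (Fin p) (Fin p) K) *
      ((b : SLp p K) : Matrix (Fin p) (Fin p) K)) = _
    rw [Matrix.toLin'_mul]; rfl

lemma natRep_apply (D : Subgroup (SLp p K)) (d : D) (v : Fin p → K) :
    natRep D d v = ((d : SLp p K) : Matrix (Fin p) (Fin p) K).mulVec v :=
  Matrix.toLin'_apply _ _

lemma natRep_inj (D : Subgroup (SLp p K)) : Function.Injective (natRep D) := by
  intro a b h
  apply Subtype.ext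
  apply Subtype.ext
  exact Matrix.toLin'.injective h

lemma natRep_det (D : Subgroup (SLp p K)) (d : D) : LinearMap.det (natRep D d) = 1 := by
  show LinearMap.det (Matrix.toLin' ((d : SLp p K) : Matrix (Fin p) (Fin p) K)) = 1
  rw [LinearMap.det_toLin']
  exact (d : SLp p K).2

/-- conjugation by a change of basis -/
theorem exists_change (hp : p.Prime) [CharP K p] [Finite K] (b : Basis (Fin p) K (Fin p → K)) :
    ∃ Q : SLp p K, ∀ (M : SLp p K) (i j : Fin p),
      (Q⁻¹ * M * Q) i j = b.repr ((M : Matrix (Fin p) (Fin p) K).mulVec (b j)) i := by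
  have : Fact p.Prime := ⟨hp⟩
  let P : Matrix (Fin p) (Fin p) K := Matrix.of fun i j => b j i
  have hP : ∀ i j, P i j = b j i := fun i j => rfl
  have hdet : P.det ≠ 0 := by
    have h1 : P = (Pi.basisFun K (Fin p)).toMatrix b := by
      ext i j
      rw [hP, Basis.toMatrix_apply, Pi.basisFun_repr]
    have h2 : IsUnit ((Pi.basisFun K (Fin p)).toMatrix b).det := by
      rw [← Basis.det_apply]
      exact (Pi.basisFun K (Fin p)).isUnit_det b
    rw [h1]
    exact h2.ne_zero
  have hsurj : Function.Surjective (frobenius K p) :=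
    Finite.surjective_of_injective (frobenius_inj K p)
  obtain ⟨c, hc⟩ := hsurj (P.det)⁻¹
  rw [frobenius_def] at hc
  have hc0 : c ≠ 0 := by
    rintro rfl
    rw [zero_pow hp.ne_zero] at hc
    exact inv_ne_zero hdet hc.symm
  let Q : SLp p K := ⟨c • P, by
    rw [Matrix.det_smul, Fintype.card_fin, hc, inv_mul_cancel₀ hdet]⟩
  have hQ : ∀ i j, Q i j = c * b j i := fun i j => rfl
  refine ⟨Q, fun M i j => ?_⟩
  let R : Matrix (Fin p) (Fin p) K := Matrix.of fun i j =>
    b.repr ((M : Matrix (Fin p) (Fin p) K).mulVec (b j)) i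
  have hR : ∀ i j, R i j = b.repr ((M : Matrix (Fin p) (Fin p) K).mulVec (b j)) i :=
    fun i j => rfl
  have h1 : (M : Matrix (Fin p) (Fin p) K) * (Q : Matrix (Fin p) (Fin p) K) =
      (Q : Matrix (Fin p) (Fin p) K) * R := by
    ext i j
    rw [Matrix.mul_apply, Matrix.mul_apply]
    have h2 : ∑ k, b.repr ((M : Matrix (Fin p) (Fin p) K).mulVec (b j)) k • b k =
      (M : Matrix (Fin p) (Fin p) K).mulVec (b j) := b.sum_repr _
    have h3 := congrFun h2 i
    rw [Finset.sum_apply] at h3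
    have h4 : ∑ k, (M : Matrix (Fin p) (Fin p) K) i k * (Q : Matrix (Fin p) (Fin p) K) k j =
        c * (M : Matrix (Fin p) (Fin p) K).mulVec (b j) i := by
      rw [Matrix.mulVec_eq_sum, Finset.sum_apply, Finset.mul_sum]
      refine Finset.sum_congr rfl fun k _ => ?_
      show M i k * (c * b j k) = c * (MulOpposite.op (b j k) • _)
      simp [Matrix.transpose_apply]
      ring
    rw [h4, ← h3, Finset.mul_sum]
    refine Finset.sum_congr rfl fun k _ => ?_
    rw [Pi.smul_apply, smul_eq_mul, hR]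
    show _ = c * b k i * _
    ring
  have h5 : ((Q⁻¹ * M * Q : SLp p K) : Matrix (Fin p) (Fin p) K) = R := by
    rw [mul_assoc, Matrix.SpecialLinearGroup.coe_mul, Matrix.SpecialLinearGroup.coe_mul, h1,
      ← Matrix.mul_assoc, ← Matrix.SpecialLinearGroup.coe_mul, inv_mul_cancel,
      Matrix.SpecialLinearGroup.coe_one, Matrix.one_mul]
  show ((Q⁻¹ * M * Q : SLp p K) : Matrix (Fin p) (Fin p) K) i j = _
  rw [h5]
  exact hR i j

/-- the soluble subgroups of `SL_p(K)` -/
theorem sl_cases [NeZero p] (hp : p.Prime) [CharP K p] [Finite K] (D : Subgroup (SLp p K))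
    [Group.IsSolvable D] (hc : PrimeCond p K D) :
    (∃ Q : SLp p K, ∀ d ∈ D, Q⁻¹ * d * Q ∈ lowB p K ∧
      ((Nat.card D : K) ≠ 0 → ∀ i j, i ≠ j → (Q⁻¹ * d * Q) i j = 0)) ∨
    ((∃ Q : SLp p K, ∀ d ∈ D, Q⁻¹ * d * Q ∈ nStd p K) ∧
      ∃ s : ℕ, s.Prime ∧ s ≠ p ∧ s ∣ Nat.card D) := by
  have hfr : finrank K (Fin p → K) = p := by rw [Module.finrank_fin_fun]
  have : Finite D := inferInstance
  rcases exists_basis_p hp D hc (Fin p → K) hfr (natRep D) with hirr | ⟨b, hb1, hb2⟩
  · right
    obtain ⟨⟨b, hb⟩, h2⟩ := exists_basis_irr hp D hc (Fin p → K) hfr (natRep D) (natRep_inj D)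
      (natRep_det D) hirr
    refine ⟨?_, h2⟩
    obtain ⟨Q, hQ⟩ := exists_change hp b
    refine ⟨Q, fun d hd => ?_⟩
    rw [mem_nStd]
    obtain ⟨c, hc'⟩ := hb ⟨d, hd⟩
    refine ⟨c, fun i j hij => ?_⟩
    rw [hQ] at hij
    obtain ⟨t, ht⟩ := hc' j
    rw [natRep_apply] at ht
    change (d : Matrix (Fin p) (Fin p) K).mulVec (b j) = _ at ht
    rw [ht, map_smul, Basis.repr_self, Finsupp.smul_apply, Finsupp.single_apply] at hij
    by_contra hne
    rw [if_neg (Ne.symm hne), smul_zero] at hij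
    exact hij rfl
  · left
    obtain ⟨Q, hQ⟩ := exists_change hp b
    refine ⟨Q, fun d hd => ⟨?_, ?_⟩⟩
    · rw [mem_lowB]
      intro i j hij
      rw [hQ]
      have h1 := hb1 ⟨d, hd⟩ j
      rw [natRep_apply, Basis.mem_span_image] at h1
      by_contra hne
      have h2 : i ∈ {i | j ≤ i} := h1 (by
        rw [Finset.mem_coe, Finsupp.mem_support_iff]
        exact hne)
      exact absurd hij (not_lt.2 h2)
    · intro hD i j hij
      rw [hQ]
      obtain ⟨c, hc'⟩ := hb2 hD ⟨d, hd⟩ j
      rw [natRep_apply] at hc'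
      change (d : Matrix (Fin p) (Fin p) K).mulVec (b j) = _ at hc'
      rw [hc', map_smul, Basis.repr_self, Finsupp.smul_apply, Finsupp.single_apply,
        if_neg hij.symm, smul_zero]

end Pool.Agent.CoveringSubgroups.H9
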