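import Pool.Agent.Lib.MP_7252b7_al_h9.KK
import Pool.Agent.Lib.MP_7252b7_al_h9.SlCases

/-!
# Covering subgroups of `SL_p(K) ≀ X`, `p` the smallest prime
-/

set_option autoImplicit false
set_option linter.unusedSectionVars false

namespace Pool.Agent.CoveringSubgroups.H9

open Pool.Agent.CoveringSubgroups

variable {p : ℕ} {K : Type} [Field K]

/-- lower unitriangular matrices -/
def uniB (p : ℕ) (K : Type) [Field K] [Finite K] : Subgroup (SLp p K) :=
  (lowDiag p K).ker.map (lowB p K).subtype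

lemma mem_uniB [Finite K] {g : SLp p K} : g ∈ uniB p K ↔ g ∈ lowB p K ∧ ∀ i, g i i = 1 := by
  constructor
  · rintro ⟨t, ht, rfl⟩
    refine ⟨t.2, fun i => ?_⟩
    have h1 : lowDiag p K t = 1 := ht
    exact congrArg Units.val (congrFun h1 i)
  · rintro ⟨h1, h2⟩
    refine ⟨⟨g, h1⟩, ?_, rfl⟩
    show lowDiag p K ⟨g, h1⟩ = 1
    funext i
    apply Units.ext
    exact h2 i

lemma uniB_conj [Finite K] {g u : SLp p K} (hg : g ∈ lowB p K) (hu : u ∈ uniB p K) :
    g * u * g⁻¹ ∈ uniB p K := by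
  obtain ⟨h1, h2⟩ := mem_uniB.1 hu
  have h3 : lowDiag p K ⟨u, h1⟩ = 1 := by
    funext i
    apply Units.ext
    exact h2 i
  have h4 : lowDiag p K (⟨g, hg⟩ * ⟨u, h1⟩ * ⟨g, hg⟩⁻¹) = 1 := by
    rw [map_mul, map_mul, map_inv, h3, mul_one, mul_inv_cancel]
  rw [mem_uniB]
  refine ⟨(lowB p K).mul_mem ((lowB p K).mul_mem hg h1) ((lowB p K).inv_mem hg), fun i => ?_⟩
  exact congrArg Units.val (congrFun h4 i)

/-- diagonal matrices of order dividing `s` -/
def diagS (p : ℕ) (K : Type) [Field K] [Finite K] (s : ℕ) : Subgroup (SLp p K) :=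
  subOfFinite
    { carrier := {g | (∀ i j, i ≠ j → g i j = 0) ∧ g ^ s = 1}
      one_mem' := by
        refine ⟨fun i j hij => ?_, one_pow s⟩
        rw [Matrix.SpecialLinearGroup.coe_one, Matrix.one_apply_ne hij]
      mul_mem' := by
        rintro a b ⟨ha, ha'⟩ ⟨hb, hb'⟩
        have hmul : ∀ a b : SLp p K, (∀ i j, i ≠ j → a i j = 0) → (∀ i j, i ≠ j → b i j = 0) →
            ∀ i j, (a * b) i j = if i = j then a i i * b i i else 0 := by
          intro a b ha hb i j
          rw [slp_mul]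
          split_ifs with h
          · subst h
            rw [Finset.sum_eq_single i]
            · intro k _ hk
              rw [hb k i hk, mul_zero]
            · intro h
              exact absurd (Finset.mem_univ _) h
          · refine Finset.sum_eq_zero fun k _ => ?_
            by_cases hik : i = k
            · rw [hb k j (by rw [← hik]; exact h), mul_zero]
            · rw [ha i k hik, zero_mul]
        have hc : a * b = b * a := by
          apply Matrix.SpecialLinearGroup.ext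
          intro i j
          show (a * b) i j = (b * a) i j
          rw [hmul a b ha hb, hmul b a hb ha, mul_comm]
        refine ⟨fun i j hij => ?_, ?_⟩
        · rw [hmul a b ha hb, if_neg hij]
        · rw [Commute.mul_pow hc, ha', hb', one_mul] }

lemma mem_diagS [Finite K] {s : ℕ} {g : SLp p K} :
    g ∈ diagS p K s ↔ (∀ i j, i ≠ j → g i j = 0) ∧ g ^ s = 1 := Iff.rfl

lemma diagS_conj [NeZero p] [Finite K] {s : ℕ} {g u : SLp p K} (hg : g ∈ nStd p K)
    (hu : u ∈ diagS p K s) : g * u * g⁻¹ ∈ diagS p K s := by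
  obtain ⟨h1, h2⟩ := mem_diagS.1 hu
  have hun : u ∈ nStd p K := mem_nStd.2 ⟨0, fun i j hij => by
    rw [add_zero]
    by_contra h
    exact hij (h1 i j h)⟩
  rw [mem_diagS]
  constructor
  · have h3 : shiftHom p K ⟨u, hun⟩ = 1 := shiftHom_eq_one.2 h1
    have h4 : shiftHom p K (⟨g, hg⟩ * ⟨u, hun⟩ * ⟨g, hg⟩⁻¹) = 1 := by
      rw [map_mul, map_mul, map_inv, h3, mul_one, mul_inv_cancel]
    exact shiftHom_eq_one.1 h4
  · rw [conj_pow, h2, mul_one, mul_inv_cancel]

variable {F : GroupClass} {f : ℕ → GroupClass}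

/-- **Key theorem for the smallest prime.** -/
theorem key_min (hF : IsFormation F) (hf : IsLocallyDefinedBy F f)
    (hher : ∀ (G : Type) [Group G] (H : Subgroup G), F G → F H)
    (hsol : ∀ (G : Type) [Group G], F G → Group.IsSolvable G)
    (hp : p.Prime) [CharP K p] [Finite K] {X Y Z : Type} [Group X] [Group Y] [Group Z]
    (hcov : HasCovering F (SLp p K ≀ᵣ X))
    {q : ℕ} (hq : q.Prime) (hpq : p < q) (hqK : q ∣ Nat.card Kˣ) (hfq : IsFormation (f q))
    (hfp : IsFormation (f p)) (hX : F X)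
    (hmin : ∀ (s : ℕ) (G : Type) [Group G], s.Prime → F G → s ∣ Nat.card G → p ≤ s)
    (hdvd : ∀ (s : ℕ) (G : Type) [Group G], s.Prime → F G → s ∣ Nat.card G →
      s = p ∨ s ∣ Nat.card Kˣ)
    (ζ : X →* Y) (hζ : Function.Surjective ζ) (hY : CF F f q Y)
    (ξ : X →* Z) (hξ : Function.Surjective ξ) (hZ : CF F f p Z) :
    CF F f p Y ∨ ∃ s : ℕ, s.Prime ∧ s ≠ p ∧
      (∃ (G : Type) (_ : Group G), F G ∧ s ∣ Nat.card G) ∧ CF F f s Z := by
  have : Fact p.Prime := ⟨hp⟩
  have : NeZero p := ⟨hp.ne_zero⟩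
  have hXf : Finite X := hF.finite X hX
  obtain ⟨H, hH'⟩ := hcov
  have hH : Cov F H := cov_of_isCovering hF hH'
  have hr : ∀ x : X, ∃ h ∈ H, h.right = x := by
    intro x
    obtain ⟨h, h1, h2⟩ := hH.top (RegularWreathProduct.rightHom : SLp p K ≀ᵣ X →* X)
      (fun x => ⟨RegularWreathProduct.inl x, RegularWreathProduct.fun_id x⟩) hX
      (RegularWreathProduct.inl x)
    exact ⟨h, h1, h2⟩
  obtain ⟨m, hm1, hm2⟩ := kk hr
  set D : Subgroup (SLp p K) := (baseProj H).range with hD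
  have hFD : F D := F_range hF hher hH.1
  have hsolD : Group.IsSolvable D := hsol D hFD
  have hPC : PrimeCond p K D :=
    ⟨fun s hs hd => hmin s D hs hFD hd, fun s hs hd => hdvd s D hs hFD hd⟩
  -- conjugation by `Q`
  have hconj : ∀ Q : SLp p K, ∃ H₂ : Subgroup (SLp p K ≀ᵣ X), Cov F H₂ ∧
      (∀ h ∈ H₂, ∀ z, ∃ d ∈ D, h.left z = Q⁻¹ * d * Q) ∧
      ∀ s : ℕ, s.Prime → s ∣ Nat.card D → ∃ w ∈ H₂, w.right = 1 ∧ w ≠ 1 ∧ w ^ s = 1 := by
    intro Q
    obtain ⟨c, hc⟩ : ∃ c : SLp p K ≀ᵣ X, c = ⟨fun _ => Q, 1⟩ := ⟨_, rfl⟩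
    have hc1 : c.right = 1 := by rw [hc]
    have hcl : ∀ (h : SLp p K ≀ᵣ X) z, (c * h * c⁻¹).left z = Q * h.left z * Q⁻¹ := by
      intro h z
      rw [hc]
      simp
    refine ⟨(H.comap (MulAut.conj m).toMonoidHom).comap (MulAut.conj c).toMonoidHom,
      (hH.conj hF m).conj hF c, ?_, ?_⟩
    · intro h hh z
      have h1 : c * h * c⁻¹ ∈ H.comap (MulAut.conj m).toMonoidHom := hh
      have h2 := hm2 _ h1 z
      refine ⟨_, h2, ?_⟩
      rw [hcl]
      group
    · intro s hs hd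
      obtain ⟨w, hw, hw1, hw2, hw3⟩ := exists_base_order hs hd
      have e : m * (c * (c⁻¹ * m⁻¹ * w * m * c) * c⁻¹) * m⁻¹ = w := by group
      refine ⟨c⁻¹ * m⁻¹ * w * m * c, ?_, ?_, ?_, ?_⟩
      · show m * (c * (c⁻¹ * m⁻¹ * w * m * c) * c⁻¹) * m⁻¹ ∈ H
        rw [e]; exact hw
      · simp [hw1, hc1, hm1]
      · intro h
        apply hw2
        rw [← e, h]; group
      · have e2 : c⁻¹ * m⁻¹ * w * m * c = (c⁻¹ * m⁻¹) * w * (c⁻¹ * m⁻¹)⁻¹ := by group
        rw [e2, conj_pow, hw3, mul_one, mul_inv_cancel]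
  rcases sl_cases hp D hPC with ⟨Q, hQ⟩ | ⟨⟨Q, hQ⟩, s, hs, hsp, hsD⟩
  · left
    obtain ⟨H₂, hH₂, hcomp, hord⟩ := hconj Q
    have hN : ∀ h ∈ H₂, ∀ y, h.left y ∈ lowB p K := by
      intro h hh y
      obtain ⟨d, hd, hd'⟩ := hcomp h hh y
      rw [hd']
      exact (hQ d hd).1
    have hpD : (Nat.card D : K) = 0 := by
      by_contra hne
      obtain ⟨Λ, _, _, _, μ, hΛ, hμ, hker, -, -⟩ := nStd_data (p := p) (K := K) hp
      have hdiag : ∀ h ∈ H₂, ∀ y, ∀ i j, i ≠ j → (h.left y) i j = 0 := by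
        intro h hh y
        obtain ⟨d, hd, hd'⟩ := hcomp h hh y
        rw [hd']
        exact (hQ d hd).2 hne
      have hNn : ∀ h ∈ H₂, ∀ y, h.left y ∈ nStd p K := by
        intro h hh y
        refine mem_nStd.2 ⟨0, fun i j hij => ?_⟩
        rw [add_zero]
        by_contra h1
        exact hij (hdiag h hh y i j h1)
      obtain ⟨h, hh, y, hy⟩ := exists_mu_ne hF hf hher hp hfp (nStd p K) hΛ μ hμ hX hH₂ hNn
      exact hy ((hker _).2 (hdiag h hh y))
    have hpD' : p ∣ Nat.card D := (CharP.cast_eq_zero_iff K p _).1 hpD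
    obtain ⟨w0, hw0, hw01, hw02, hw03⟩ := hord p hp hpD'
    obtain ⟨Λ, _, _, _, μ, hΛ, hμ, hker, l, hl⟩ := lowB_data (p := p) (K := K) hp hq hpq hqK
    refine apply_main hF hf hher hq hp hfq hfp (lowB p K) hΛ μ hμ hker hX
      (W := baseSub H₂ (uniB p K)) hH₂ (fun w hw => hw.1) ?_ ?_ ?_ (fun w hw => hw.2.1) hN ?_
      ζ hζ hY
    · exact baseSub_normal fun h hh z u hu => uniB_conj (hN h hh z) hu
    · rintro ⟨w, hw⟩
      refine ⟨1, Subtype.ext ?_⟩
      show w ^ p ^ 1 = 1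
      rw [pow_one]
      have h1 := pow_base w hw.2.1 p
      refine RegularWreathProduct.ext ?_ h1.1
      rw [h1.2]
      funext z
      obtain ⟨h2, h3⟩ := mem_uniB.1 (hw.2.2 z)
      exact pow_p_of_uni hp h2 h3
    · intro hbot
      have h1 : w0 ∈ baseSub H₂ (uniB p K) := by
        refine ⟨hw0, hw01, fun z => ?_⟩
        rw [mem_uniB]
        refine ⟨hN w0 hw0 z, fun i => ?_⟩
        have h2 := congrFun (pow_base w0 hw01 p).2 z
        rw [hw03] at h2
        have h3 : (⟨w0.left z, hN w0 hw0 z⟩ : lowB p K) ^ p = 1 := Subtype.ext h2.symm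
        have h4 := congrArg (lowDiag p K) h3
        rw [map_pow, map_one] at h4
        have h5 := congrArg Units.val (congrFun h4 i)
        have h6 : (w0.left z) i i ^ p = 1 := h5
        have h10 : frobenius K p ((w0.left z) i i) = frobenius K p 1 := by
          rw [frobenius_def, map_one, h6]
        exact frobenius_inj K p h10
      rw [hbot, Subgroup.mem_bot] at h1
      exact hw02 h1
    · intro w hw x hx
      refine ⟨l, fun t ht htc => hx ?_⟩
      obtain ⟨h2, h3⟩ := mem_uniB.1 (hw.2.2 x)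
      exact uni_eq_one_of_comm t.2 h2 (hl t ht) h3 htc
  · right
    have : Fact s.Prime := ⟨hs⟩
    have hfs : IsFormation (f s) := form_of_dvd hf hF hher hs hFD hsD
    refine ⟨s, hs, hsp, ⟨D, inferInstance, hFD, hsD⟩, ?_⟩
    obtain ⟨H₂, hH₂, hcomp, hord⟩ := hconj Q
    have hN : ∀ h ∈ H₂, ∀ y, h.left y ∈ nStd p K := by
      intro h hh y
      obtain ⟨d, hd, hd'⟩ := hcomp h hh y
      rw [hd']
      exact hQ d hd
    obtain ⟨w0, hw0, hw01, hw02, hw03⟩ := hord s hs hsD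
    obtain ⟨Λ, _, _, _, μ, hΛ, hμ, hmu1, hker, hcomm⟩ := nStd_data (p := p) (K := K) hp
    obtain ⟨l, hl⟩ := exists_ne (1 : Λ)
    refine apply_main hF hf hher hp hs hfp hfs (nStd p K) hΛ μ hμ hker hX
      (W := baseSub H₂ (diagS p K s)) hH₂ (fun w hw => hw.1) ?_ ?_ ?_ (fun w hw => hw.2.1) hN ?_
      ξ hξ hZ
    · exact baseSub_normal fun h hh z u hu => diagS_conj (hN h hh z) hu
    · rintro ⟨w, hw⟩
      refine ⟨1, Subtype.ext ?_⟩
      show w ^ s ^ 1 = 1
      rw [pow_one]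
      have h1 := pow_base w hw.2.1 s
      refine RegularWreathProduct.ext ?_ h1.1
      rw [h1.2]
      funext z
      exact (mem_diagS.1 (hw.2.2 z)).2
    · intro hbot
      have h1 : w0 ∈ baseSub H₂ (diagS p K s) := by
        refine ⟨hw0, hw01, fun z => ?_⟩
        rw [mem_diagS]
        have h2 := congrFun (pow_base w0 hw01 s).2 z
        rw [hw03] at h2
        have h2' : (w0.left z) ^ s = 1 := h2.symm
        refine ⟨?_, h2'⟩
        have h3 : (⟨w0.left z, hN w0 hw0 z⟩ : nStd p K) ^ s = 1 := Subtype.ext h2'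
        have h4 := congrArg μ h3
        rw [map_pow, map_one] at h4
        obtain ⟨j, hj⟩ := hΛ (μ ⟨w0.left z, hN w0 hw0 z⟩)
        have h8 : orderOf (μ ⟨w0.left z, hN w0 hw0 z⟩) ∣ Nat.gcd s (p ^ j) :=
          Nat.dvd_gcd (orderOf_dvd_of_pow_eq_one h4) (orderOf_dvd_of_pow_eq_one hj)
        have h9 : Nat.gcd s (p ^ j) = 1 :=
          Nat.Coprime.pow_right _ ((Nat.coprime_primes hs hp).2 hsp)
        rw [h9, Nat.dvd_one, orderOf_eq_one_iff] at h8
        exact (hmu1 _).1 h8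
      rw [hbot, Subgroup.mem_bot] at h1
      exact hw02 h1
    · intro w hw x hx
      refine ⟨l, fun t ht htc => hx ?_⟩
      exact hcomm t (by rw [ht]; exact hl) _ (mem_diagS.1 (hw.2.2 x)).1 htc

end Pool.Agent.CoveringSubgroups.H9
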