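import Pool.Agent.Lib.MP_7252b7_al_h9.Main

/-!
# Krasner-Kaloujnine: the components of a subgroup of a wreath product
-/

set_option autoImplicit false

namespace Pool.Agent.CoveringSubgroups.H9

open Pool.Agent.CoveringSubgroups

section

variable {G X : Type} [Group G] [Group X]

/-- the intersection of `H` with the base group, as a subgroup of `H` -/
def baseKer (H : Subgroup (G ≀ᵣ X)) : Subgroup H :=
  (RegularWreathProduct.rightHom.comp H.subtype).ker

/-- the first component -/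
def baseProj (H : Subgroup (G ≀ᵣ X)) : baseKer H →* G where
  toFun w := ((w : H) : G ≀ᵣ X).left 1
  map_one' := rfl
  map_mul' := by
    intro a b
    have h : ((a : H) : G ≀ᵣ X).right = 1 := a.2
    simp [h]

lemma mem_range_baseProj {H : Subgroup (G ≀ᵣ X)} {v : G} :
    v ∈ (baseProj H).range ↔ ∃ w ∈ H, w.right = 1 ∧ w.left 1 = v := by
  constructor
  · rintro ⟨⟨⟨w, hw⟩, hw1⟩, rfl⟩
    exact ⟨w, hw, hw1, rfl⟩
  · rintro ⟨w, hw, hw1, rfl⟩
    exact ⟨⟨⟨w, hw⟩, hw1⟩, rfl⟩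

/-- the components, after conjugation -/
theorem kk {H : Subgroup (G ≀ᵣ X)} (hr : ∀ x : X, ∃ h ∈ H, h.right = x) :
    ∃ m : G ≀ᵣ X, m.right = 1 ∧
      ∀ g ∈ H.comap (MulAut.conj m).toMonoidHom, ∀ z, g.left z ∈ (baseProj H).range := by
  choose t ht1 ht2 using hr
  refine ⟨⟨fun z => (t z).left z, 1⟩, rfl, ?_⟩
  intro g hg z
  have h0 : (⟨fun z => (t z).left z, 1⟩ : G ≀ᵣ X) * g *
      (⟨fun z => (t z).left z, 1⟩ : G ≀ᵣ X)⁻¹ ∈ H := hg
  rw [mem_range_baseProj]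
  refine ⟨(t z)⁻¹ * ((⟨fun z => (t z).left z, 1⟩ : G ≀ᵣ X) * g *
      (⟨fun z => (t z).left z, 1⟩ : G ≀ᵣ X)⁻¹) * t (g.right⁻¹ * z),
    H.mul_mem (H.mul_mem (H.inv_mem (ht1 z)) h0) (ht1 _), ?_, ?_⟩
  · simp [ht2]
  · simp [ht2]
    group

/-- the order of the group of components -/
theorem exists_base_order [Finite G] [Finite X] {H : Subgroup (G ≀ᵣ X)} {s : ℕ} (hs : s.Prime)
    (hd : s ∣ Nat.card (baseProj H).range) : ∃ w ∈ H, w.right = 1 ∧ w ≠ 1 ∧ w ^ s = 1 := by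
  have : Fact s.Prime := ⟨hs⟩
  have h1 : s ∣ Nat.card (baseKer H) := hd.trans (Subgroup.card_range_dvd _)
  obtain ⟨x, hx⟩ := exists_prime_orderOf_dvd_card' (G := baseKer H) s h1
  refine ⟨((x : H) : G ≀ᵣ X), (x : H).2, x.2, ?_, ?_⟩
  · intro h
    have h2 : x = 1 := Subtype.ext (Subtype.ext h)
    rw [h2, orderOf_one] at hx
    exact hs.ne_one hx.symm
  · have h2 := pow_orderOf_eq_one x
    rw [hx] at h2
    exact congrArg (fun y : baseKer H => ((y : H) : G ≀ᵣ X)) h2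

/-- the elements of `H` in the base group with components in `U` -/
def baseSub (H : Subgroup (G ≀ᵣ X)) (U : Subgroup G) : Subgroup (G ≀ᵣ X) where
  carrier := {h | h ∈ H ∧ h.right = 1 ∧ ∀ z, h.left z ∈ U}
  one_mem' := ⟨H.one_mem, rfl, fun _ => U.one_mem⟩
  mul_mem' := by
    rintro a b ⟨ha, ha1, ha2⟩ ⟨hb, hb1, hb2⟩
    refine ⟨H.mul_mem ha hb, by simp [ha1, hb1], fun z => ?_⟩
    simp only [RegularWreathProduct.mul_left, Pi.mul_apply, ha1]
    exact U.mul_mem (ha2 _) (hb2 _)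
  inv_mem' := by
    rintro a ⟨ha, ha1, ha2⟩
    refine ⟨H.inv_mem ha, by simp [ha1], fun z => ?_⟩
    simp only [RegularWreathProduct.inv_left, Pi.inv_apply, ha1]
    exact U.inv_mem (ha2 _)

lemma mem_baseSub {H : Subgroup (G ≀ᵣ X)} {U : Subgroup G} {h : G ≀ᵣ X} :
    h ∈ baseSub H U ↔ h ∈ H ∧ h.right = 1 ∧ ∀ z, h.left z ∈ U := Iff.rfl

lemma baseSub_normal {H : Subgroup (G ≀ᵣ X)} {U : Subgroup G}
    (hU : ∀ h ∈ H, ∀ z, ∀ u ∈ U, h.left z * u * (h.left z)⁻¹ ∈ U) :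
    ∀ h ∈ H, ∀ w ∈ baseSub H U, h * w * h⁻¹ ∈ baseSub H U := by
  rintro h hh w ⟨hw, hw1, hw2⟩
  refine ⟨H.mul_mem (H.mul_mem hh hw) (H.inv_mem hh), by simp [hw1], fun z => ?_⟩
  have h1 := hU h hh z _ (hw2 (h.right⁻¹ * z))
  have h2 : (h * w * h⁻¹).left z = h.left z * w.left (h.right⁻¹ * z) * (h.left z)⁻¹ := by
    simp [hw1]
  rw [h2]
  exact h1

end

variable {F : GroupClass} {f : ℕ → GroupClass}

section

variable (hF : IsFormation F) (hf : IsLocallyDefinedBy F f)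

include hF

/-- the group of components is in `F` -/
theorem F_range (hher : ∀ (G : Type) [Group G] (H : Subgroup G), F G → F H)
    {G X : Type} [Group G] [Group X] {H : Subgroup (G ≀ᵣ X)} (hH : F H) :
    F (baseProj H).range :=
  fsurj hF (baseProj H).rangeRestrict (baseProj H).rangeRestrict_surjective (hher H _ hH)

include hf

/-- a covering subgroup with components in `N` maps nontrivially to every abelian `r`-quotient of
`N` -/
theorem exists_mu_ne (hher : ∀ (G : Type) [Group G] (H : Subgroup G), F G → F H)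
    {r : ℕ} (hr : r.Prime) (hfr : IsFormation (f r))
    {G Λ X : Type} [Group G] [CommGroup Λ] [Nontrivial Λ] [Group X]
    [Finite X] [Finite Λ] (N : Subgroup G) (hΛ : IsPGroup r Λ) (μ : N →* Λ)
    (hμ : Function.Surjective μ)
    (hX : F X) {H : Subgroup (G ≀ᵣ X)} (hH : Cov F H) (hN : ∀ h ∈ H, ∀ y, h.left y ∈ N) :
    ∃ h, ∃ hh : h ∈ H, ∃ y, μ ⟨h.left y, hN h hh y⟩ ≠ 1 := by
  by_contra hcon
  push Not at hcon
  have hinj := wrIncl_injective (X := X) N
  have hcov := hH.comap hF (wrIncl N X) hinj (fun h hh => mem_range_wrIncl (hN h hh))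
  obtain ⟨l, hl⟩ := exists_ne (1 : Λ)
  obtain ⟨u, hu⟩ := hμ l
  classical
  have hU : CF F f r PUnit := ⟨ftriv hF _, ⊥, inferInstance, IsPGroup.of_bot, ftriv hfr _⟩
  obtain ⟨h, hh, h1, h2⟩ := star hF hf hher hr hΛ μ (1 : X →* PUnit) hX hU hcov
    (⟨fun y => if y = 1 then u else 1, 1⟩ : N ≀ᵣ X)
  have h3 : ∀ y, μ (h.left y) = 1 := by
    intro y
    exact hcon (wrIncl N X h) hh y
  have h5 := congrFun h2 1
  rw [psi_left, psi_left] at h5
  let := Fintype.ofFinite X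
  rw [Finset.prod_eq_one] at h5
  · rw [Finset.prod_eq_single (1 : X)] at h5
    · simp [hu] at h5
      exact hl h5.symm
    · intro y _ hy
      simp [hy]
    · simp
  · intro y _
    rw [h3, ite_self]

end

end Pool.Agent.CoveringSubgroups.H9
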