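import Pool.Agent.Lib.MP_7252b7_al_h61.Defs

/-!
# Canonical classes of a local formation
-/

set_option autoImplicit false

namespace Pool.Agent.CoveringSubgroups.H9

open Pool.Agent.CoveringSubgroups

/-- the prime `p` divides the order of some group in `F`, that is, `p ∈ π(F)` -/
def InPi (F : GroupClass) (p : ℕ) : Prop :=
  p.Prime ∧ ∃ (G : Type) (_ : Group G), F G ∧ p ∣ Nat.card G

/-- The canonical class `F(p)`: the finite groups `Y` such that every finite extension of a
`p`-group by `Y` is in `F`. -/
def Canon (F : GroupClass) (p : ℕ) (Y : Type) [Group Y] : Prop :=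
  Finite Y ∧ ∀ (E : Type) [Group E] [Finite E] (φ : E →* Y), Function.Surjective φ →
    IsPGroup p φ.ker → F E

/-- `F(p)` is contained in `F(s)`. -/
def CanonLE (F : GroupClass) (p s : ℕ) : Prop :=
  ∀ (Y : Type) [Group Y], Canon F p Y → Canon F s Y

/-- `F` is closed under extensions by normal `p`-subgroups. -/
def ClosedUnder (F : GroupClass) (p : ℕ) : Prop :=
  ∀ (E : Type) [Group E] [Finite E] (N : Subgroup E) [N.Normal], IsPGroup p N → F (E ⧸ N) → F E

end Pool.Agent.CoveringSubgroups.H9
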