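import Pool.Agent.Lib.MP_7252b7_al_h9.Main
import Pool.Agent.Lib.MP_7252b7_al_h9.Classes

/-!
# The canonical classes and the final theorems
-/

set_option autoImplicit false

namespace Pool.Agent.CoveringSubgroups.H9

open Pool.Agent.CoveringSubgroups

variable {F : GroupClass} {f : ℕ → GroupClass}

lemma Canon.mem {p : ℕ} {Y : Type} [Group Y] (h : Canon F p Y) : F Y := by
  have := h.1
  refine h.2 Y (MonoidHom.id Y) Function.surjective_id ?_
  have : (MonoidHom.id Y).ker = ⊥ := (MonoidHom.ker_eq_bot_iff _).2 Function.injective_id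
  rw [this]
  exact IsPGroup.of_bot

section

variable (hF : IsFormation F) (hf : IsLocallyDefinedBy F f)

include hF hf

theorem canon_iff {p : ℕ} (hp : p.Prime) (hfp : IsFormation (f p)) {Y : Type} [Group Y] :
    Canon F p Y ↔ CF F f p Y := by
  have : Fact p.Prime := ⟨hp⟩
  constructor
  · intro h
    have hY := h.1
    let Z := Multiplicative (ZMod p)
    have hZ : IsPGroup p Z := by
      refine IsPGroup.of_card (n := 1) ?_
      rw [pow_one]
      exact Nat.card_zmod p
    let R : Z ≀ᵣ Y →* Y := RegularWreathProduct.rightHom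
    have hR : Function.Surjective R :=
      fun x => ⟨RegularWreathProduct.inl x, RegularWreathProduct.fun_id x⟩
    have hker : IsPGroup p R.ker := by
      rintro ⟨a, ha⟩
      refine ⟨1, Subtype.ext ?_⟩
      show a ^ p ^ 1 = 1
      rw [pow_one]
      have h1 := pow_base a ha p
      ext x
      · rw [h1.2, Pi.pow_apply, RegularWreathProduct.one_left, Pi.one_apply]
        have := pow_card_eq_one' (x := a.left x)
        have hc : Nat.card Z = p := Nat.card_zmod p
        rwa [hc] at this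
      · rw [h1.1]; rfl
    have hE := h.2 (Z ≀ᵣ Y) R hR hker
    refine CF_act hf hF hp hfp hE R.ker hker R hR ?_
    intro g hg
    classical
    obtain ⟨t, ht⟩ := exists_ne (1 : Z)
    have h1 := (hg ⟨fun y => if y = 1 then t else 1, 1⟩ rfl).eq
    have h2 := congrArg (fun c : Z ≀ᵣ Y => c.left g.right) h1
    simp only [RegularWreathProduct.mul_left, Pi.mul_apply, inv_mul_cancel, if_true, inv_one,
      one_mul] at h2
    by_contra hne
    have hne' : ¬ g.right = 1 := hne
    rw [if_neg hne', one_mul] at h2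
    exact ht (by simpa using h2)
  · intro h
    refine ⟨hF.finite Y h.1, fun E _ _ φ hφ hk => ?_⟩
    exact (CF_ext hf hF hp φ hφ hk h).1

omit hF in
theorem form_of_inPi (hF : IsFormation F)
    (hher : ∀ (G : Type) [Group G] (H : Subgroup G), F G → F H) {s : ℕ}
    (hs : InPi F s) : IsFormation (f s) := by
  obtain ⟨hp, G, _, hG, hd⟩ := hs
  have := hF.finite G hG
  exact form_of_dvd hf hF hher hp hG hd

theorem exists_product (P : Finset ℕ)
    (hher : ∀ (G : Type) [Group G] (H : Subgroup G), F G → F H) (h2 : InPi F 2) :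
    ∃ (Z : Type) (_ : Group Z), Canon F 2 Z ∧ ∀ s ∈ P, InPi F s →
      (∃ (Z' : Type) (_ : Group Z'), Canon F 2 Z' ∧ ¬ Canon F s Z') → ¬ Canon F s Z := by
  classical
  have hf2 := form_of_inPi hf hF hher h2
  induction P using Finset.induction_on with
  | empty =>
    refine ⟨PUnit, inferInstance, ?_, by simp⟩
    rw [canon_iff hF hf Nat.prime_two hf2]
    exact ⟨ftriv hF _, ⊥, inferInstance, IsPGroup.of_bot, ftriv hf2 _⟩
  | insert a P _ ih =>
    obtain ⟨Z, _, hZ1, hZ2⟩ := ih
    by_cases ha : InPi F a ∧ ∃ (Z' : Type) (_ : Group Z'), Canon F 2 Z' ∧ ¬ Canon F a Z'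
    · obtain ⟨ha1, Z', _, hZ', hZ''⟩ := ha
      have hfa := form_of_inPi hf hF hher ha1
      refine ⟨Z × Z', inferInstance, ?_, ?_⟩
      · rw [canon_iff hF hf Nat.prime_two hf2] at hZ1 hZ' ⊢
        exact CF.prod hF hf Nat.prime_two hZ1 hZ'
      · intro s hs hsπ hex hcon
        have hfs := form_of_inPi hf hF hher hsπ
        rw [canon_iff hF hf hsπ.1 hfs] at hcon
        rcases Finset.mem_insert.1 hs with rfl | hs
        · apply hZ''
          rw [canon_iff hF hf hsπ.1 hfs]
          exact CF.surj hF hf hsπ.1 (MonoidHom.snd Z Z') Prod.snd_surjective hcon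
        · apply hZ2 s hs hsπ hex
          rw [canon_iff hF hf hsπ.1 hfs]
          exact CF.surj hF hf hsπ.1 (MonoidHom.fst Z Z') Prod.fst_surjective hcon
    · refine ⟨Z, inferInstance, hZ1, ?_⟩
      intro s hs hsπ hex
      rcases Finset.mem_insert.1 hs with rfl | hs
      · exact absurd ⟨hsπ, hex⟩ ha
      · exact hZ2 s hs hsπ hex

/-- **Theorem T2** -/
theorem T2 (hher : ∀ (G : Type) [Group G] (H : Subgroup G), F G → F H)
    (hsol : ∀ (G : Type) [Group G], F G → Group.IsSolvable G)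
    (hcov : ∀ (G : Type) [Group G] [Finite G], HasCovering F G) (h2 : InPi F 2)
    {k q : ℕ} (hk : 0 < k) (hq : InPi F q) (hqk : q ∣ 2 ^ k - 1) :
    CanonLE F q 2 ∨ ∃ s : ℕ, InPi F s ∧ s ∣ 4 ^ k - 1 ∧ CanonLE F 2 s := by
  by_contra hcon
  simp only [CanonLE] at hcon
  push Not at hcon
  obtain ⟨⟨Y, _, hY1, hY2⟩, hcon⟩ := hcon
  have hf2 := form_of_inPi hf hF hher h2
  have hfq := form_of_inPi hf hF hher hq
  obtain ⟨Z, _, hZ1, hZ2⟩ := exists_product hF hf (4 ^ k - 1).primeFactors hher h2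
  have : Fact (Nat.Prime 2) := ⟨Nat.prime_two⟩
  have h4 : 4 ^ k - 1 ≠ 0 := by
    have : 4 ^ 1 ≤ 4 ^ k := Nat.pow_le_pow_right (by norm_num) hk
    omega
  have hX : F (Y × Z) := fprod hF hY1.mem hZ1.mem
  have hXf : Finite (Y × Z) := hF.finite _ hX
  rcases key0 hF hf hher hsol (K := GaloisField 2 k) (hcov _) hk (GaloisField.card 2 k hk.ne')
    hq.1 hqk hfq hf2 hX (MonoidHom.fst Y Z) Prod.fst_surjective
    ((canon_iff hF hf hq.1 hfq).1 hY1) (MonoidHom.snd Y Z) Prod.snd_surjective
    ((canon_iff hF hf Nat.prime_two hf2).1 hZ1) with h | ⟨s, hs1, hs2, hs3, hs4⟩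
  · exact hY2 ((canon_iff hF hf Nat.prime_two hf2).2 h)
  · have hsπ : InPi F s := ⟨hs1, hs3⟩
    have hfs := form_of_inPi hf hF hher hsπ
    obtain ⟨Z', _, hZ'⟩ := hcon s hsπ hs2
    exact hZ2 s (Nat.mem_primeFactors.2 ⟨hs1, hs2, h4⟩) hsπ ⟨Z', _, hZ'⟩
      ((canon_iff hF hf hs1 hfs).2 hs4)

end

end Pool.Agent.CoveringSubgroups.H9
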