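import Pool.Agent.Lib.MP_7252b7_al_h9.Final

/-!
# Closure under extensions by normal `a`-subgroups
-/

set_option autoImplicit false

namespace Pool.Agent.CoveringSubgroups.H9

open Pool.Agent.CoveringSubgroups

/-- in a soluble group, either a maximal normal `p`-subgroup contains its centralizer, or there is
a nontrivial normal `s`-subgroup for another prime `s` -/
theorem exists_other {G : Type} [Group G] [Finite G] [Group.IsSolvable G] {p : ℕ} (hp : p.Prime)
    (P : Subgroup G) [P.Normal] (hP : IsPGroup p P)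
    (hmax : ∀ Q : Subgroup G, Q.Normal → IsPGroup p Q → Q ≤ P)
    (hC : ¬ (∀ g : G, (∀ a ∈ P, Commute g a) → g ∈ P)) :
    ∃ s : ℕ, s.Prime ∧ s ≠ p ∧ ∃ R : Subgroup G, R.Normal ∧ IsPGroup s R ∧ R ≠ ⊥ := by
  have : Fact p.Prime := ⟨hp⟩
  let C : Subgroup G := Subgroup.centralizer (P : Set G)
  have hCn : C.Normal := inferInstance
  have hCmem : ∀ g, g ∈ C ↔ ∀ a ∈ P, Commute g a := by
    intro g
    rw [Subgroup.mem_centralizer_iff]
    exact ⟨fun h a ha => (h a ha).symm, fun h a ha => (h a ha).eq.symm⟩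
  let Z : Subgroup G := C ⊓ P
  have hZn : Z.Normal := inferInstance
  have hZp : IsPGroup p Z := hP.to_le inf_le_right
  let π := QuotientGroup.mk' Z
  have hπ : Function.Surjective π := QuotientGroup.mk'_surjective Z
  have hπk : π.ker = Z := QuotientGroup.ker_mk' Z
  have hCb : (C.map π).Normal := hCn.map π hπ
  have hCb1 : C.map π ≠ ⊥ := by
    intro h
    apply hC
    intro g hg
    have h1 : g ∈ C := (hCmem g).2 hg
    have h2 : C ≤ Z := by
      rw [← hπk]; exact (Subgroup.map_eq_bot_iff C).1 h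
    exact (h2 h1).2
  obtain ⟨s, hs, W, hWn, hWC, hW1, hWc, hWs⟩ := exists_abelian_normal (C.map π) hCb1
  have : Fact s.Prime := ⟨hs⟩
  have hWp : IsPGroup s W := by
    rintro ⟨w, hw⟩
    refine ⟨1, Subtype.ext ?_⟩
    show w ^ s ^ 1 = 1
    rw [pow_one]; exact hWs w hw
  let D : Subgroup G := W.comap π
  have hDn : D.Normal := hWn.comap π
  have hZD : Z ≤ D := by
    intro z hz
    show π z ∈ W
    have : π z = 1 := by rw [← MonoidHom.mem_ker, hπk]; exact hz
    rw [this]; exact W.one_mem
  have hDC : D ≤ C := by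
    intro d hd
    obtain ⟨c, hc, hcd⟩ := hWC hd
    have h1 : c⁻¹ * d ∈ Z := QuotientGroup.eq.1 hcd
    have h2 := C.mul_mem hc h1.1
    rwa [mul_inv_cancel_left] at h2
  have hDmap : D.map π = W := Subgroup.map_comap_eq_self_of_surjective hπ W
  by_cases hsp : s = p
  · exfalso
    subst hsp
    have hDp : IsPGroup s D := hWp.comap_of_ker_isPGroup π (by rw [hπk]; exact hZp)
    have hDP := hmax D hDn hDp
    have hDZ : D ≤ Z := le_inf hDC hDP
    apply hW1
    rw [← hDmap]
    rw [Subgroup.map_eq_bot_iff, hπk]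
    exact hDZ
  · -- `D` is nilpotent
    have hnil : Group.IsNilpotent D := by
      have : Group.IsNilpotent W := hWp.isNilpotent
      refine Subgroup.isNilpotent_of_ker_le_center (π.subgroupComap W) ?_
      intro d hd
      have h1 : π (d : G) = 1 := congrArg Subtype.val hd
      have h2 : (d : G) ∈ Z := by rw [← hπk]; exact h1
      rw [Subgroup.mem_center_iff]
      intro e
      have h3 : (e : G) ∈ C := hDC e.2
      exact Subtype.ext ((hCmem _).1 h3 d h2.2).eq
    obtain ⟨Q⟩ : Nonempty (Sylow s D) := inferInstance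
    have hQn : (Q : Subgroup D).Normal :=
      (Group.isNilpotent_of_finite_tfae.out 0 3 rfl rfl).1 hnil s ⟨hs⟩ Q
    have hQc : (Q : Subgroup D).Characteristic := Sylow.characteristic_of_normal Q hQn
    refine ⟨s, hs, hsp, (Q : Subgroup D).map D.subtype,
      ConjAct.normal_of_characteristic_of_normal, Q.isPGroup'.map _, ?_⟩
    intro h
    have hQ1 : (Q : Subgroup D) = ⊥ :=
      (Subgroup.map_eq_bot_iff_of_injective _ D.subtype_injective).1 h
    -- the order of `D` is divisible by `s`
    have hsW : s ∣ Nat.card W := by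
      obtain ⟨w, hw, hw1⟩ := (Subgroup.bot_or_exists_ne_one W).resolve_left hW1
      have h2 : orderOf (⟨w, hw⟩ : W) = s :=
        orderOf_eq_prime (Subtype.ext (hWs w hw)) fun h3 => hw1 (congrArg Subtype.val h3)
      rw [← h2]; exact orderOf_dvd_natCard _
    have hsD : s ∣ Nat.card D := by
      refine hsW.trans ?_
      rw [← hDmap]
      exact Subgroup.card_map_dvd D π
    obtain ⟨x, hx⟩ := exists_prime_orderOf_dvd_card' (G := D) s hsD
    have hxp : IsPGroup s (Subgroup.zpowers x) := by
      refine IsPGroup.of_card (n := 1) ?_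
      rw [Nat.card_zpowers, hx, pow_one]
    obtain ⟨Q', hQ'⟩ := hxp.exists_le_sylow
    have hQQ' : Q' = Q := by
      have := Sylow.unique_of_normal Q hQn
      exact Subsingleton.elim _ _
    have h3 : x ∈ (Q : Subgroup D) := by rw [← hQQ']; exact hQ' (Subgroup.mem_zpowers x)
    rw [hQ1, Subgroup.mem_bot] at h3
    rw [h3, orderOf_one] at hx
    exact hs.ne_one hx.symm

variable {F : GroupClass} {f : ℕ → GroupClass}

section

variable (hF : IsFormation F) (hf : IsLocallyDefinedBy F f)

include hF hf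

omit hf in
/-- subdirect products -/
theorem CF_subdirect {p : ℕ} (hp : p.Prime) (hfp : IsFormation (f p)) {G A B : Type} [Group G]
    [Finite G] [Group A] [Group B] (α : G →* A) (β : G →* B) (hα : Function.Surjective α)
    (hβ : Function.Surjective β) (hA : CF F f p A) (hB : CF F f p B)
    (h : ∀ g, α g = 1 → β g = 1 → g = 1) : CF F f p G := by
  have : Fact p.Prime := ⟨hp⟩
  obtain ⟨h1, P, hP, h2, h3⟩ := hA
  obtain ⟨h1', P', hP', h2', h3'⟩ := hB
  have hPn : (P.comap α).Normal := hP.comap α
  have hPn' : (P'.comap β).Normal := hP'.comap β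
  refine ⟨?_, P.comap α ⊓ P'.comap β, inferInstance, ?_, ?_⟩
  · exact fsub hF α β (MonoidHom.id G) hα hβ Function.surjective_id h1 h1' h
  · rintro ⟨g, hg, hg'⟩
    obtain ⟨i, hi⟩ := h2 ⟨α g, hg⟩
    obtain ⟨j, hj⟩ := h2' ⟨β g, hg'⟩
    have hi' : α g ^ p ^ i = 1 := congrArg Subtype.val hi
    have hj' : β g ^ p ^ j = 1 := congrArg Subtype.val hj
    refine ⟨i + j, Subtype.ext ?_⟩
    show g ^ p ^ (i + j) = 1
    apply h
    · rw [map_pow, pow_add, pow_mul, hi', one_pow]
    · rw [map_pow, pow_add, mul_comm, pow_mul, hj', one_pow]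
  · refine fsub hfp (G := G) ((QuotientGroup.mk' P).comp α)
      ((QuotientGroup.mk' P').comp β) (QuotientGroup.mk' (P.comap α ⊓ P'.comap β)) ?_ ?_
      (QuotientGroup.mk'_surjective _) h3 h3' ?_
    · exact (QuotientGroup.mk'_surjective P).comp hα
    · exact (QuotientGroup.mk'_surjective P').comp hβ
    · intro g ha hb
      have ha' : α g ∈ P := (QuotientGroup.eq_one_iff _).1 ha
      have hb' : β g ∈ P' := (QuotientGroup.eq_one_iff _).1 hb
      exact (QuotientGroup.eq_one_iff _).2 ⟨ha', hb'⟩

theorem all_CF (hher : ∀ (G : Type) [Group G] (H : Subgroup G), F G → F H)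
    (hsol : ∀ (G : Type) [Group G], F G → Group.IsSolvable G) {a : ℕ} (ha : InPi F a)
    (h : ∀ p, InPi F p → ∀ (Y : Type) [Group Y], Canon F p Y → Canon F a Y) :
    ∀ (n : ℕ) (W : Type) [Group W], F W → Nat.card W ≤ n → CF F f a W := by
  have hfa := form_of_inPi hf hF hher ha
  intro n
  induction n with
  | zero =>
    intro W _ hW hc
    have := hF.finite W hW
    have := Nat.card_pos (α := W)
    omega
  | succ n ih =>
    intro W _ hW hc
    have hWf := hF.finite W hW
    have hWs := hsol W hW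
    by_cases h1 : (⊤ : Subgroup W) = ⊥
    · have : Subsingleton W := by
        rw [← Subgroup.subsingleton_iff (G := W)]
        exact subsingleton_of_bot_eq_top h1.symm
      exact ⟨hW, ⊥, inferInstance, IsPGroup.of_bot, ftriv hfa _⟩
    · obtain ⟨p, hp, A, hAn, -, hA1, -, hAp⟩ := exists_abelian_normal (⊤ : Subgroup W) h1
      have : Fact p.Prime := ⟨hp⟩
      have hApg : IsPGroup p A := by
        rintro ⟨w, hw⟩
        refine ⟨1, Subtype.ext ?_⟩
        show w ^ p ^ 1 = 1
        rw [pow_one]; exact hAp w hw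
      -- quotients by nontrivial normal subgroups are smaller
      have hquot : ∀ Q : Subgroup W, Q.Normal → Q ≠ ⊥ → ∃ (_ : Q.Normal), CF F f a (W ⧸ Q) := by
        intro Q hQ hQ1
        refine ⟨hQ, ih (W ⧸ Q) (hF.quotient W Q hW) ?_⟩
        have h2 : Nat.card W = Nat.card (W ⧸ Q) * Nat.card Q :=
          Subgroup.card_eq_card_quotient_mul_card_subgroup Q
        have h3 : 2 ≤ Nat.card Q := by
          have := Nat.card_pos (α := Q)
          have : Nat.card Q ≠ 1 := fun h => hQ1 (Subgroup.card_eq_one.1 h)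
          omega
        have h4 := Nat.card_pos (α := W ⧸ Q)
        nlinarith
      obtain ⟨P, hPmem, hPmax⟩ := Set.Finite.exists_maximal
        (s := {P : Subgroup W | P.Normal ∧ IsPGroup p P}) (Set.toFinite _)
        ⟨⊥, inferInstance, IsPGroup.of_bot⟩
      have hPn : P.Normal := hPmem.1
      have hPp : IsPGroup p P := hPmem.2
      have hmax : ∀ Q : Subgroup W, Q.Normal → IsPGroup p Q → Q ≤ P := by
        intro Q hQ hQp
        have h2 : (P ⊔ Q).Normal := inferInstance
        have h3 : IsPGroup p (P ⊔ Q : Subgroup W) := hPp.to_sup_of_normal_right hQp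
        exact le_sup_right.trans (hPmax ⟨h2, h3⟩ le_sup_left)
      have hP1 : P ≠ ⊥ := by
        intro h2
        have := hmax A hAn hApg
        rw [h2, le_bot_iff] at this
        exact hA1 this
      obtain ⟨_, hWP⟩ := hquot P hPn hP1
      have hpπ : InPi F p := by
        refine ⟨hp, W, inferInstance, hW, ?_⟩
        obtain ⟨w, hw, hw1⟩ := (Subgroup.bot_or_exists_ne_one A).resolve_left hA1
        rw [← orderOf_eq_prime (hAp w hw) hw1]
        exact orderOf_dvd_natCard _
      have hfp := form_of_inPi hf hF hher hpπ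
      by_cases hC : ∀ g : W, (∀ a ∈ P, Commute g a) → g ∈ P
      · have h2 : CF F f p (W ⧸ P) := by
          refine CF_act hf hF hp hfp hW P hPp (QuotientGroup.mk' P)
            (QuotientGroup.mk'_surjective P) ?_
          intro g hg
          exact (QuotientGroup.eq_one_iff g).2 (hC g hg)
        have h3 : CF F f p W := by
          refine CF_ext hf hF hp (QuotientGroup.mk' P) (QuotientGroup.mk'_surjective P) ?_ h2
          rw [QuotientGroup.ker_mk']; exact hPp
        have h4 := h p hpπ W ((canon_iff hF hf hp hfp).2 h3)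
        exact (canon_iff hF hf ha.1 hfa).1 h4
      · obtain ⟨s, hs, hsp, R, hRn, hRs, hR1⟩ := exists_other hp P hPp hmax hC
        obtain ⟨_, hWR⟩ := hquot R hRn hR1
        refine CF_subdirect hF ha.1 hfa (QuotientGroup.mk' P) (QuotientGroup.mk' R)
          (QuotientGroup.mk'_surjective P) (QuotientGroup.mk'_surjective R) hWP hWR ?_
        intro g hg hg'
        have hgP : g ∈ P := (QuotientGroup.eq_one_iff g).1 hg
        have hgR : g ∈ R := (QuotientGroup.eq_one_iff g).1 hg'
        have : Fact s.Prime := ⟨hs⟩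
        have h2 := IsPGroup.disjoint_of_ne p s hsp.symm P R hPp hRs
        exact (Subgroup.mem_bot).1 (h2.le_bot ⟨hgP, hgR⟩)

/-- closure under extensions by normal `a`-subgroups -/
theorem closed_of_le (hher : ∀ (G : Type) [Group G] (H : Subgroup G), F G → F H)
    (hsol : ∀ (G : Type) [Group G], F G → Group.IsSolvable G) {a : ℕ} (ha : InPi F a)
    (h : ∀ p, InPi F p → CanonLE F p a) : ClosedUnder F a := by
  intro E _ _ N _ hN hE
  have h1 := all_CF hF hf hher hsol ha h _ (E ⧸ N) hE le_rfl
  refine (CF_ext hf hF ha.1 (QuotientGroup.mk' N) (QuotientGroup.mk'_surjective N) ?_ h1).1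
  rw [QuotientGroup.ker_mk']; exact hN

/-- **Final theorem.** -/
theorem dichotomy (hher : ∀ (G : Type) [Group G] (H : Subgroup G), F G → F H)
    (hsol : ∀ (G : Type) [Group G], F G → Group.IsSolvable G)
    (hcov : ∀ (G : Type) [Group G] [Finite G], HasCovering F G) (h2 : InPi F 2) :
    ClosedUnder F 2 ∨
      (∃ q, InPi F q ∧ ¬ CanonLE F q 2) ∧
      ∀ q k : ℕ, InPi F q → ¬ CanonLE F q 2 → 0 < k → q ∣ 2 ^ k - 1 →
        ∃ s : ℕ, InPi F s ∧ s ∣ 4 ^ k - 1 ∧ CanonLE F 2 s ∧
          ((∀ p, InPi F p → p = 2 ∨ p = s) → ClosedUnder F s) := by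
  by_cases h : ∀ p, InPi F p → CanonLE F p 2
  · exact Or.inl (closed_of_le hF hf hher hsol h2 h)
  · right
    push Not at h
    refine ⟨h, ?_⟩
    intro q k hq hq2 hk hqk
    obtain ⟨s, hs, hsk, hle⟩ := (T2 hF hf hher hsol hcov h2 hk hq hqk).resolve_left hq2
    refine ⟨s, hs, hsk, hle, fun hπ => closed_of_le hF hf hher hsol hs fun p hp => ?_⟩
    rcases hπ p hp with rfl | rfl
    · exact hle
    · exact fun Y _ hY => hY

end

end Pool.Agent.CoveringSubgroups.H9
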