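import Pool.Agent.Lib.MP_7252b7_al_h9.MinMain
import Pool.Agent.Lib.MP_7252b7_al_h9.Closure

/-!
# The smallest prime of a hereditary soluble local formation
-/

set_option autoImplicit false

namespace Pool.Agent.CoveringSubgroups.H9

open Pool.Agent.CoveringSubgroups

variable {F : GroupClass} {f : ℕ → GroupClass}

section

variable (hF : IsFormation F) (hf : IsLocallyDefinedBy F f)

include hF hf

theorem exists_product' (P : Finset ℕ)
    (hher : ∀ (G : Type) [Group G] (H : Subgroup G), F G → F H) {p : ℕ} (hp : InPi F p) :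
    ∃ (Z : Type) (_ : Group Z), Canon F p Z ∧ ∀ s ∈ P, InPi F s →
      (∃ (Z' : Type) (_ : Group Z'), Canon F p Z' ∧ ¬ Canon F s Z') → ¬ Canon F s Z := by
  classical
  have hfp := form_of_inPi hf hF hher hp
  induction P using Finset.induction_on with
  | empty =>
    refine ⟨PUnit, inferInstance, ?_, by simp⟩
    rw [canon_iff hF hf hp.1 hfp]
    exact ⟨ftriv hF _, ⊥, inferInstance, IsPGroup.of_bot, ftriv hfp _⟩
  | insert a P _ ih =>
    obtain ⟨Z, _, hZ1, hZ2⟩ := ih
    by_cases ha : InPi F a ∧ ∃ (Z' : Type) (_ : Group Z'), Canon F p Z' ∧ ¬ Canon F a Z'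
    · obtain ⟨ha1, Z', _, hZ', hZ''⟩ := ha
      have hfa := form_of_inPi hf hF hher ha1
      refine ⟨Z × Z', inferInstance, ?_, ?_⟩
      · rw [canon_iff hF hf hp.1 hfp] at hZ1 hZ' ⊢
        exact CF.prod hF hf hp.1 hZ1 hZ'
      · intro s hs hsπ hex hcon
        have hfs := form_of_inPi hf hF hher hsπ
        rw [canon_iff hF hf hsπ.1 hfs] at hcon
        rcases Finset.mem_insert.1 hs with rfl | hs
        · apply hZ''
          rw [canon_iff hF hf hsπ.1 hfs]
          exact CF.surj hF hf hsπ.1 (MonoidHom.snd Z Z') Prod.snd_surjective hcon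
        · apply hZ2 s hs hsπ hex
          rw [canon_iff hF hf hsπ.1 hfs]
          exact CF.surj hF hf hsπ.1 (MonoidHom.fst Z Z') Prod.fst_surjective hcon
    · refine ⟨Z, inferInstance, hZ1, ?_⟩
      intro s hs hsπ hex
      rcases Finset.mem_insert.1 hs with rfl | hs
      · exact absurd ⟨hsπ, hex⟩ ha
      · exact hZ2 s hs hsπ hex

/-- `F(q) ≤ F(p)`, or `F(p) ≤ F(s)` for another prime `s` -/
theorem min_step (hher : ∀ (G : Type) [Group G] (H : Subgroup G), F G → F H)
    (hsol : ∀ (G : Type) [Group G], F G → Group.IsSolvable G)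
    (hcov : ∀ (G : Type) [Group G] [Finite G], HasCovering F G)
    (hfin : {q | InPi F q}.Finite) {p : ℕ} (hp : InPi F p) (hmin : ∀ q, InPi F q → p ≤ q)
    {q : ℕ} (hq : InPi F q) :
    CanonLE F q p ∨ ∃ s : ℕ, InPi F s ∧ s ≠ p ∧ CanonLE F p s := by
  by_contra hcon
  simp only [CanonLE] at hcon
  push Not at hcon
  obtain ⟨⟨Y, _, hY1, hY2⟩, hcon⟩ := hcon
  have : Fact p.Prime := ⟨hp.1⟩
  have hfp := form_of_inPi hf hF hher hp
  have hfq := form_of_inPi hf hF hher hq
  have hqp : q ≠ p := by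
    rintro rfl
    exact hY2 hY1
  have hpq : p < q := lt_of_le_of_ne (hmin q hq) hqp.symm
  obtain ⟨Z, _, hZ1, hZ2⟩ := exists_product' hF hf hfin.toFinset hher hp
  -- the exponent
  let k : ℕ := ∏ s ∈ hfin.toFinset, (s - 1)
  have hk : k ≠ 0 := by
    apply Finset.prod_ne_zero_iff.2
    intro s hs
    have h1 : InPi F s := hfin.mem_toFinset.1 hs
    have := h1.1.two_le
    omega
  have hdvd : ∀ s, InPi F s → s = p ∨ s ∣ p ^ k - 1 := by
    intro s hs
    by_cases hsp : s = p
    · exact Or.inl hsp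
    · right
      have : Fact s.Prime := ⟨hs.1⟩
      have h1 : s - 1 ∣ k := Finset.dvd_prod_of_mem _ (hfin.mem_toFinset.2 hs)
      have h2 : Nat.Coprime p s := (Nat.coprime_primes hp.1 hs.1).2 (Ne.symm hsp)
      have h3 : p ^ Nat.totient s ≡ 1 [MOD s] := Nat.ModEq.pow_totient h2
      rw [Nat.totient_prime hs.1] at h3
      obtain ⟨t, ht⟩ := h1
      have h4 : p ^ k ≡ 1 [MOD s] := by
        rw [ht, pow_mul]
        have := h3.pow t
        rwa [one_pow] at this
      exact (Nat.modEq_iff_dvd' (Nat.one_le_pow _ _ hp.1.pos)).1 h4.symm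
  have hcard : Nat.card (GaloisField p k)ˣ = p ^ k - 1 := by
    rw [Nat.card_units, GaloisField.card p k hk]
  have hX : F (Y × Z) := fprod hF hY1.mem hZ1.mem
  have hXf : Finite (Y × Z) := hF.finite _ hX
  rcases key_min hF hf hher hsol hp.1 (K := GaloisField p k) (hcov _) hq.1 hpq
    (by rw [hcard]; exact (hdvd q hq).resolve_left hqp) hfq hfp hX
    (fun s G _ hs hG hd => hmin s ⟨hs, G, inferInstance, hG, hd⟩)
    (fun s G _ hs hG hd => by
      rw [hcard]; exact hdvd s ⟨hs, G, inferInstance, hG, hd⟩)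
    (MonoidHom.fst Y Z) Prod.fst_surjective
    ((canon_iff hF hf hq.1 hfq).1 hY1) (MonoidHom.snd Y Z) Prod.snd_surjective
    ((canon_iff hF hf hp.1 hfp).1 hZ1) with h | ⟨s, hs1, hs2, hs3, hs4⟩
  · exact hY2 ((canon_iff hF hf hp.1 hfp).2 h)
  · have hsπ : InPi F s := ⟨hs1, hs3⟩
    have hfs := form_of_inPi hf hF hher hsπ
    obtain ⟨Z', _, hZ'⟩ := hcon s hsπ hs2
    exact hZ2 s (hfin.mem_toFinset.2 hsπ) hsπ ⟨Z', _, hZ'⟩
      ((canon_iff hF hf hs1 hfs).2 hs4)

/-- **Final theorem for the smallest prime.** -/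
theorem min_dichotomy (hher : ∀ (G : Type) [Group G] (H : Subgroup G), F G → F H)
    (hsol : ∀ (G : Type) [Group G], F G → Group.IsSolvable G)
    (hcov : ∀ (G : Type) [Group G] [Finite G], HasCovering F G)
    (hfin : {q | InPi F q}.Finite) {p : ℕ} (hp : InPi F p) (hmin : ∀ q, InPi F q → p ≤ q) :
    ClosedUnder F p ∨
      (∃ q, InPi F q ∧ ¬ CanonLE F q p) ∧
        ∃ s : ℕ, InPi F s ∧ s ≠ p ∧ CanonLE F p s ∧
          ((∀ r, InPi F r → r = p ∨ r = s) → ClosedUnder F s) := by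
  by_cases h : ∀ q, InPi F q → CanonLE F q p
  · exact Or.inl (closed_of_le hF hf hher hsol hp h)
  · right
    push Not at h
    refine ⟨h, ?_⟩
    obtain ⟨q, hq, hqp⟩ := h
    obtain ⟨s, hs, hsp, hle⟩ :=
      (min_step hF hf hher hsol hcov hfin hp hmin hq).resolve_left hqp
    refine ⟨s, hs, hsp, hle, fun hπ => closed_of_le hF hf hher hsol hs fun r hr => ?_⟩
    rcases hπ r hr with rfl | rfl
    · exact hle
    · exact fun Y _ hY => hY

end

end Pool.Agent.CoveringSubgroups.H9
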