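import Pool.Agent.Lib.MP_7252b7_al_h9.Form

/-!
# Covering subgroups, in terms of homomorphisms
-/

set_option autoImplicit false

namespace Pool.Agent.CoveringSubgroups.H9

open Pool.Agent.CoveringSubgroups

/-- covering subgroups, in terms of homomorphisms -/
def Cov (F : GroupClass) {G : Type} [Group G] (H : Subgroup G) : Prop :=
  F H ∧ ∀ (U : Subgroup G), H ≤ U → ∀ (K : Type) [Group K] (φ : U →* K),
    Function.Surjective φ → F K → ∀ u : U, ∃ h : U, (h : G) ∈ H ∧ φ h = φ u

variable {F : GroupClass}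

lemma cov_of_isCovering (hF : IsFormation F) {G : Type} [Group G] {H : Subgroup G}
    (h : IsCovering F H) : Cov F H := by
  refine ⟨h.1, ?_⟩
  intro U hHU K _ φ hφ hK u
  obtain ⟨h, n, h1, h2, h3⟩ := h.2 U hHU φ.ker (fquot hF φ hφ hK) u
  refine ⟨h, h1, ?_⟩
  rw [h3, map_mul, MonoidHom.mem_ker.1 h2, mul_one]

/-- transfer along an injective homomorphism -/
lemma Cov.comap (hF : IsFormation F) {G G' : Type} [Group G] [Group G'] {H : Subgroup G}
    (h : Cov F H) (ι : G' →* G) (hι : Function.Injective ι) (hH : H ≤ ι.range) :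
    Cov F (H.comap ι) := by
  have hmap : (H.comap ι).map ι = H := by
    rw [Subgroup.map_comap_eq]; exact inf_eq_right.2 hH
  constructor
  · have e1 : H.comap ι ≃* (H.comap ι).map ι := (H.comap ι).equivMapOfInjective ι hι
    have e2 : (H.comap ι).map ι ≃* H := MulEquiv.subgroupCongr hmap
    exact hF.iso _ _ (e1.trans e2).symm h.1
  · intro U hHU K _ φ hφ hK u
    let e : U ≃* U.map ι := U.equivMapOfInjective ι hι
    have h1 : H ≤ U.map ι := by rw [← hmap]; exact Subgroup.map_mono hHU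
    obtain ⟨k, hk1, hk2⟩ := h.2 (U.map ι) h1 K (φ.comp e.symm.toMonoidHom)
      (hφ.comp e.symm.surjective) hK (e u)
    refine ⟨e.symm k, ?_, ?_⟩
    · show ι (e.symm k : U) ∈ H
      have h2 : ι (e.symm k : U) = (e (e.symm k) : G) :=
        (Subgroup.coe_equivMapOfInjective_apply U ι hι (e.symm k)).symm
      rw [h2, MulEquiv.apply_symm_apply]
      exact hk1
    · have h3 : φ (e.symm k) = φ (e.symm (e u)) := hk2
      rw [h3, MulEquiv.symm_apply_apply]

/-- conjugates: the pull back of `H` under conjugation by `m` -/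
lemma Cov.conj (hF : IsFormation F) {G : Type} [Group G] {H : Subgroup G}
    (h : Cov F H) (m : G) : Cov F (H.comap (MulAut.conj m).toMonoidHom) := by
  refine h.comap hF _ (MulAut.conj m).injective ?_
  intro x _
  exact ⟨(MulAut.conj m).symm x, MulEquiv.apply_symm_apply _ _⟩

lemma Cov.top {G : Type} [Group G] {H : Subgroup G}
    (h : Cov F H) {K : Type} [Group K] (φ : G →* K) (hφ : Function.Surjective φ) (hK : F K)
    (u : G) : ∃ h ∈ H, φ h = φ u := by
  obtain ⟨k, h1, h2⟩ := h.2 ⊤ le_top K (φ.comp (⊤ : Subgroup G).subtype) (by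
    intro y
    obtain ⟨x, rfl⟩ := hφ y
    exact ⟨⟨x, trivial⟩, rfl⟩) hK ⟨u, trivial⟩
  exact ⟨k, h1, h2⟩

end Pool.Agent.CoveringSubgroups.H9
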