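import Pool.Agent.Lib.MP_7252b7_al_h9.SL2

/-!
# The two homomorphisms used for `SL₂(2^k)`
-/

set_option autoImplicit false
set_option linter.unusedSectionVars false

namespace Pool.Agent.CoveringSubgroups.H9

variable {K : Type} [Field K]

/-- the first diagonal entry of an upper triangular matrix -/
def diagHom (K : Type) [Field K] : borel K →* Kˣ where
  toFun g := ⟨(g : Matrix.SpecialLinearGroup (Fin 2) K) 0 0,
    (g : Matrix.SpecialLinearGroup (Fin 2) K) 1 1, by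
      have h1 := sl_det (g : Matrix.SpecialLinearGroup (Fin 2) K)
      have h2 : (g : Matrix.SpecialLinearGroup (Fin 2) K) 1 0 = 0 := g.2
      rw [h2] at h1
      linear_combination h1, by
      have h1 := sl_det (g : Matrix.SpecialLinearGroup (Fin 2) K)
      have h2 : (g : Matrix.SpecialLinearGroup (Fin 2) K) 1 0 = 0 := g.2
      rw [h2] at h1
      linear_combination h1⟩
  map_one' := by
    ext
    simp
  map_mul' := by
    intro a b
    ext
    have h2 : (b : Matrix.SpecialLinearGroup (Fin 2) K) 1 0 = 0 := b.2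
    have := (sl_mul (a : Matrix.SpecialLinearGroup (Fin 2) K) b).1
    simp only [Subgroup.coe_mul, Units.val_mul]
    rw [this, h2]
    ring

lemma diagHom_val (g : borel K) : (diagHom K g : K) = (g : SL2 K) 0 0 := rfl

theorem borel_data [CharP K 2] [Finite K] {q : ℕ} (hq : q.Prime) (hq2 : q ≠ 2)
    (hqd : q ∣ Nat.card Kˣ) :
    ∃ (Λ : Type) (_ : CommGroup Λ) (_ : Finite Λ) (_ : Nontrivial Λ) (μ : borel K →* Λ),
      IsPGroup q Λ ∧ Function.Surjective μ ∧
      (∀ t, μ t = 1 → (∃ j, t ^ q ^ j = 1) → t = 1) ∧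
      (∀ t : borel K, IsUni (t : SL2 K) → μ t = 1) := by
  have : Fact q.Prime := ⟨hq⟩
  obtain ⟨a, m, hm, ham⟩ := Nat.exists_eq_pow_mul_and_not_dvd
    (Nat.card_pos (α := Kˣ)).ne' q hq.ne_one
  let φ : borel K →* Kˣ := (powMonoidHom m).comp (diagHom K)
  have hφ : ∀ t, φ t = diagHom K t ^ m := fun t => rfl
  have hnt : Nontrivial φ.range := by
    obtain ⟨x, hx⟩ := exists_prime_orderOf_dvd_card' (G := Kˣ) q hqd
    let g : SL2 K := ⟨!![(x : K), 0; 0, ((x⁻¹ : Kˣ) : K)], by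
      rw [Matrix.det_fin_two_of]; simp⟩
    have hg : g ∈ borel K := by
      rw [mem_borel]; rfl
    have h1 : diagHom K ⟨g, hg⟩ = x := by
      ext; rfl
    refine ⟨⟨⟨φ ⟨g, hg⟩, ⟨g, hg⟩, rfl⟩, 1, ?_⟩⟩
    intro h
    have h2 : φ ⟨g, hg⟩ = 1 := congrArg Subtype.val h
    rw [hφ, h1] at h2
    exact hm (hx ▸ orderOf_dvd_of_pow_eq_one h2)
  refine ⟨φ.range, inferInstance, inferInstance, hnt, φ.rangeRestrict, ?_,
    φ.rangeRestrict_surjective, ?_, ?_⟩
  · rintro ⟨_, t, rfl⟩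
    refine ⟨a, Subtype.ext ?_⟩
    show φ t ^ q ^ a = 1
    rw [hφ, ← pow_mul, mul_comm, ← ham, pow_card_eq_one']
  · rintro t ht ⟨j, hj⟩
    have h1 : φ t = 1 := congrArg Subtype.val ht
    rw [hφ] at h1
    have h2 : diagHom K t ^ q ^ j = 1 := by rw [← map_pow, hj, map_one]
    have h3 : orderOf (diagHom K t) ∣ Nat.gcd m (q ^ j) :=
      Nat.dvd_gcd (orderOf_dvd_of_pow_eq_one h1) (orderOf_dvd_of_pow_eq_one h2)
    have h4 : Nat.gcd m (q ^ j) = 1 :=
      Nat.Coprime.pow_right _ ((Nat.Prime.coprime_iff_not_dvd hq).2 hm).symm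
    rw [h4, Nat.dvd_one, orderOf_eq_one_iff] at h3
    have h5 : IsUni (t : SL2 K) := by
      refine ⟨?_, t.2⟩
      have := congrArg Units.val h3
      exact this
    apply Subtype.ext
    refine eq_one_of_sq (s := q ^ j) ?_ (congrArg Subtype.val hj) h5.sq
    exact (hq.odd_of_ne_two hq2).pow
  · intro t ht
    apply Subtype.ext
    show φ t = 1
    have h1 : diagHom K t = 1 := Units.ext ht.1
    rw [hφ, h1, one_pow]

theorem fixInv_data [CharP K 2] {w : SL2 K} {s : ℕ} (hs : Odd s) (h : w ^ s = 1) (hw : w ≠ 1) :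
    ∃ μ : fixInv w →* Multiplicative (ZMod 2), Function.Surjective μ ∧
      (∀ t, μ t = 1 → (∃ j, t ^ 2 ^ j = 1) → t = 1) ∧
      (∀ t, μ t ≠ 1 → ∀ u : SL2 K, u ≠ 1 → u * w = w * u → (t : SL2 K) * u ≠ u * t) := by
  have hww : w ≠ w⁻¹ := by
    intro h1
    apply hw
    refine eq_one_of_sq hs h ?_
    conv_lhs => rw [h1]
    nth_rw 2 [← h1]
    exact inv_mul_cancel w
  refine ⟨fixInvSign w hww, ?_, ?_, ?_⟩
  · obtain ⟨g, hg⟩ := exists_invert w
    have h1 : fixInvSign w hww ⟨g, Or.inr hg⟩ ≠ 1 := by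
      rw [Ne, fixInvSign_eq_one]
      intro h2
      have h3 : g * w * g⁻¹ = w := by rw [mul_inv_eq_iff_eq_mul]; exact h2
      exact hww (h3.symm.trans hg)
    intro y
    by_cases hy : y = 1
    · exact ⟨1, by rw [map_one, hy]⟩
    · have h2 : ∀ a b : Multiplicative (ZMod 2), a ≠ 1 → b ≠ 1 → a = b := by decide
      exact ⟨_, h2 _ _ h1 hy⟩
  · rintro t ht ⟨j, hj⟩
    rw [fixInvSign_eq_one] at ht
    apply Subtype.ext
    exact two_elt_comm hs h hw ht j (congrArg Subtype.val hj)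
  · intro t ht u hu huw htu
    apply ht
    rw [fixInvSign_eq_one]
    exact sl_comm_trans hu htu huw.symm

theorem prime_dvd_card_sl [CharP K 2] [Finite K] {k : ℕ} (hK : Nat.card K = 2 ^ k)
    {s : ℕ} (hs : s.Prime) (h : s ∣ Nat.card (SL2 K)) : s = 2 ∨ s ∣ 4 ^ k - 1 := by
  have : Fact s.Prime := ⟨hs⟩
  have := Fintype.ofFinite K
  classical
  obtain ⟨x, hx⟩ := exists_prime_orderOf_dvd_card' (G := SL2 K) s h
  have h1 : orderOf (Matrix.SpecialLinearGroup.toGL x) = s := by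
    rw [← hx]
    exact orderOf_injective _ Matrix.SpecialLinearGroup.toGL_injective x
  have h2 : s ∣ Nat.card (GL (Fin 2) K) := by
    rw [← h1]; exact orderOf_dvd_natCard _
  rw [Matrix.card_GL_field, Fin.prod_univ_two, ← Nat.card_eq_fintype_card, hK] at h2
  have h4 : (2 ^ k) ^ 2 = 4 ^ k := by rw [← pow_mul, mul_comm, pow_mul]; norm_num
  have h5 : 1 ≤ 2 ^ k := Nat.one_le_two_pow
  rcases (Nat.Prime.dvd_mul hs).1 h2 with h3 | h3
  · right
    simpa [h4] using h3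
  · have h6 : (2 ^ k) ^ 2 - (2 ^ k) ^ 1 = 2 ^ k * (2 ^ k - 1) := by
      rw [pow_one, Nat.mul_sub, mul_one, pow_two]
    have h7 : ((1 : Fin 2) : ℕ) = 1 := rfl
    rw [h7, h6] at h3
    rcases (Nat.Prime.dvd_mul hs).1 h3 with h8 | h8
    · left
      exact (Nat.prime_dvd_prime_iff_eq hs Nat.prime_two).1 (hs.dvd_of_dvd_pow h8)
    · right
      have h9 : 4 ^ k - 1 = (2 ^ k - 1) * (2 ^ k + 1) := by
        rw [← h4, mul_comm, ← Nat.sq_sub_sq]
      rw [h9]
      exact h8.mul_right _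

end Pool.Agent.CoveringSubgroups.H9
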