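import Pool.Agent.Lib.MP_7252b7_al_h61.Defs

/-!
# The canonical local definition
-/

set_option autoImplicit false

namespace Pool.Agent.CoveringSubgroups.H9

open Pool.Agent.CoveringSubgroups

section formation

variable {F : GroupClass}

lemma fsurj (hF : IsFormation F) {G H : Type} [Group G] [Group H] (φ : G →* H)
    (hφ : Function.Surjective φ) (hG : F G) : F H :=
  hF.iso _ _ (QuotientGroup.quotientKerEquivOfSurjective φ hφ) (hF.quotient G φ.ker hG)

lemma fquot (hF : IsFormation F) {G H : Type} [Group G] [Group H] (φ : G →* H)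
    (hφ : Function.Surjective φ) (hH : F H) : F (G ⧸ φ.ker) :=
  hF.iso _ _ (QuotientGroup.quotientKerEquivOfSurjective φ hφ).symm hH

/-- subdirect products, in terms of homomorphisms -/
lemma fsub (hF : IsFormation F) {G A B C : Type} [Group G] [Finite G] [Group A]
    [Group B] [Group C] (α : G →* A) (β : G →* B) (γ : G →* C) (hα : Function.Surjective α)
    (hβ : Function.Surjective β) (hγ : Function.Surjective γ) (hA : F A) (hB : F B)
    (h : ∀ g, α g = 1 → β g = 1 → γ g = 1) : F C := by
  have h1 := hF.subdirect G α.ker β.ker (fquot hF α hα hA) (fquot hF β hβ hB)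
  refine fsurj hF (QuotientGroup.lift (α.ker ⊓ β.ker) γ ?_) ?_ h1
  · intro g hg
    exact h g hg.1 hg.2
  · intro c
    obtain ⟨g, rfl⟩ := hγ c
    exact ⟨QuotientGroup.mk g, rfl⟩

lemma fprod (hF : IsFormation F) {A B : Type} [Group A] [Group B] (hA : F A)
    (hB : F B) : F (A × B) := by
  have := hF.finite A hA
  have := hF.finite B hB
  refine fsub hF (G := A × B) (MonoidHom.fst A B) (MonoidHom.snd A B) (MonoidHom.id _)
    Prod.fst_surjective Prod.snd_surjective Function.surjective_id hA hB ?_
  intro g h1 h2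
  exact Prod.ext h1 h2

lemma ftriv (hF : IsFormation F) (T : Type) [Group T] [Subsingleton T] : F T := by
  obtain ⟨G, _, hG⟩ := hF.nonempty
  refine fsurj hF (1 : G →* T) ?_ hG
  intro t
  exact ⟨1, Subsingleton.elim _ _⟩

end formation

/-- the canonical local definition of the formation `F` with local definition `f` -/
def CF (F : GroupClass) (f : ℕ → GroupClass) (p : ℕ) : GroupClass := fun Y _ =>
  F Y ∧ ∃ (P : Subgroup Y) (_ : P.Normal), IsPGroup p P ∧ f p (Y ⧸ P)

variable {F : GroupClass} {f : ℕ → GroupClass}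

section

variable (hF : IsFormation F) (hf : IsLocallyDefinedBy F f)

include hF hf

omit hF in
lemma form_of_mem {p : ℕ} (hp : p.Prime) {G : Type} [Group G] (h : f p G) : IsFormation (f p) :=
  (hf.1 p hp).resolve_right fun h1 => h1 G h

lemma CF.surj {p : ℕ} (hp : p.Prime) {Y Y' : Type} [Group Y] [Group Y'] (φ : Y →* Y')
    (hφ : Function.Surjective φ) (h : CF F f p Y) : CF F f p Y' := by
  obtain ⟨h1, P, hP, h2, h3⟩ := h
  have hfp := form_of_mem hf hp h3
  have hn : (P.map φ).Normal := hP.map φ hφ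
  refine ⟨fsurj hF φ hφ h1, P.map φ, hn, h2.map φ, ?_⟩
  refine fsurj hfp (QuotientGroup.map P (P.map φ) φ (Subgroup.le_comap_map φ P)) ?_ h3
  intro y
  obtain ⟨y', rfl⟩ := QuotientGroup.mk_surjective y
  obtain ⟨z, rfl⟩ := hφ y'
  exact ⟨QuotientGroup.mk z, rfl⟩

lemma CF.prod {p : ℕ} (hp : p.Prime) {Y Y' : Type} [Group Y] [Group Y'] (h : CF F f p Y)
    (h' : CF F f p Y') : CF F f p (Y × Y') := by
  obtain ⟨h1, P, hP, h2, h3⟩ := h
  obtain ⟨h1', P', hP', h2', h3'⟩ := h'
  have hfp := form_of_mem hf hp h3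
  have hY := hF.finite Y h1
  have hY' := hF.finite Y' h1'
  have hn : (P.prod P').Normal := Subgroup.prod_normal P P'
  refine ⟨fprod hF h1 h1', P.prod P', hn, ?_, ?_⟩
  · rintro ⟨⟨a, b⟩, hab⟩
    obtain ⟨ha, hb⟩ := Subgroup.mem_prod.1 hab
    obtain ⟨i, hi⟩ := h2 ⟨a, ha⟩
    obtain ⟨j, hj⟩ := h2' ⟨b, hb⟩
    have hi' : a ^ p ^ i = 1 := congrArg Subtype.val hi
    have hj' : b ^ p ^ j = 1 := congrArg Subtype.val hj
    refine ⟨i + j, ?_⟩
    apply Subtype.ext
    show (a, b) ^ p ^ (i + j) = 1
    rw [Prod.pow_mk, pow_add, pow_mul, hi', one_pow, mul_comm, pow_mul, hj', one_pow]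
    rfl
  · refine fsub hfp (G := Y × Y') ((QuotientGroup.mk' P).comp (MonoidHom.fst Y Y'))
      ((QuotientGroup.mk' P').comp (MonoidHom.snd Y Y')) (QuotientGroup.mk' (P.prod P')) ?_ ?_
      (QuotientGroup.mk'_surjective _) h3 h3' ?_
    · exact (QuotientGroup.mk'_surjective P).comp Prod.fst_surjective
    · exact (QuotientGroup.mk'_surjective P').comp Prod.snd_surjective
    · rintro ⟨a, b⟩ ha hb
      have ha' : a ∈ P := (QuotientGroup.eq_one_iff a).1 ha
      have hb' : b ∈ P' := (QuotientGroup.eq_one_iff b).1 hb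
      exact (QuotientGroup.eq_one_iff _).2 (Subgroup.mem_prod.2 ⟨ha', hb'⟩)

end

open scoped commutatorElement in
/-- a normal `p`-subgroup centralizes every chief factor which is a `p`-group -/
lemma centralizes {p : ℕ} (hp : p.Prime) {E : Type} [Group E] [Finite E] {H K P : Subgroup E}
    (hHK : IsChiefFactor H K) (hP : P.Normal) (hPp : IsPGroup p P) [K.Normal]
    (hHp : IsPGroup p (H.map (QuotientGroup.mk' K))) :
    ∀ x ∈ P, ∀ h ∈ H, x * h * x⁻¹ * h⁻¹ ∈ K := by
  have : Fact p.Prime := ⟨hp⟩
  have hHn := hHK.normal_top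
  have hM := hHK.eq_or_eq (K ⊔ ⁅H, P⁆) inferInstance le_sup_left
    (sup_le hHK.lt.le (Subgroup.commutator_le_left H P))
  rcases hM with hM | hM
  · intro x hx h hh
    have h1 : ⁅x, h⁆ ∈ ⁅P, H⁆ := Subgroup.commutator_mem_commutator hx hh
    rw [Subgroup.commutator_comm] at h1
    have h2 : ⁅H, P⁆ ≤ K := by rw [← hM]; exact le_sup_right
    exact h2 h1
  · exfalso
    set π := QuotientGroup.mk' K with hπ
    have hsurj : Function.Surjective π := QuotientGroup.mk'_surjective K
    set H' := H.map π with hH'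
    set P' := P.map π with hP'
    have hH'n : H'.Normal := hHn.map π hsurj
    have hP'n : P'.Normal := hP.map π hsurj
    have hK' : K.map π = ⊥ := by
      rw [Subgroup.map_eq_bot_iff, hπ, QuotientGroup.ker_mk']
    have h1 : H' = ⁅H', P'⁆ := by
      conv_lhs => rw [hH', ← hM, Subgroup.map_sup, hK', bot_sup_eq, Subgroup.map_commutator]
    have hT : IsPGroup p (H' ⊔ P' : Subgroup (E ⧸ K)) :=
      hHp.to_sup_of_normal_right (hPp.map π)
    have hnil : Group.IsNilpotent (H' ⊔ P' : Subgroup (E ⧸ K)) := hT.isNilpotent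
    rw [Subgroup.isNilpotent_iff_lowerCentralSeries] at hnil
    obtain ⟨n, hn⟩ := hnil
    have h2 : ∀ n, H' ≤ (H' ⊔ P').lowerCentralSeries n := by
      intro n
      induction n with
      | zero => rw [Subgroup.lowerCentralSeries_zero]; exact le_sup_left
      | succ n ih =>
        rw [Subgroup.lowerCentralSeries_succ]
        conv_lhs => rw [h1]
        exact Subgroup.commutator_mono ih le_sup_right
    have h3 : H' ≤ ⊥ := hn ▸ h2 n
    have h4 : H ≤ K := by
      have := (Subgroup.map_le_iff_le_comap.1 h3)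
      rwa [MonoidHom.comap_bot, hπ, QuotientGroup.ker_mk'] at this
    exact hHK.lt.not_ge h4



lemma mem_sup_inf {E : Type} [Group E] {H K N : Subgroup E} [N.Normal] (hKH : K ≤ H)
    (h : H ⊓ N ≤ K) {x : E} (hxH : x ∈ H) (hx : QuotientGroup.mk' N x ∈ K.map (QuotientGroup.mk' N)) :
    x ∈ K := by
  obtain ⟨k, hk, hkx⟩ := hx
  have h1 : k⁻¹ * x ∈ N := QuotientGroup.eq.1 hkx
  have h2 : k⁻¹ * x ∈ K := h ⟨H.mul_mem (H.inv_mem (hKH hk)) hxH, h1⟩
  have := K.mul_mem hk h2
  rwa [mul_inv_cancel_left] at this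

variable (hF : IsFormation F) (hf : IsLocallyDefinedBy F f)

include hf

/-- extensions of `p`-groups by groups which are in `f p` modulo a normal `p`-subgroup -/
theorem mem_of_ext {p : ℕ} (hp : p.Prime) {E : Type} [Group E] [Finite E] (N P : Subgroup E)
    [N.Normal] [P.Normal] (hP : IsPGroup p P) (hNP : N ≤ P) (hFN : F (E ⧸ N))
    (hfP : f p (E ⧸ P)) : F E := by
  have : Fact p.Prime := ⟨hp⟩
  have hfp := form_of_mem hf hp hfP
  rw [hf.2 E]
  intro H K hHK r hr hdvd
  have hHn := hHK.normal_top
  have hKn := hHK.normal_bot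
  by_cases hcase : H ⊓ N ≤ K
  · set π := QuotientGroup.mk' N with hπ
    have hsurj : Function.Surjective π := QuotientGroup.mk'_surjective N
    have hHn' : (H.map π).Normal := hHn.map π hsurj
    have hKn' : (K.map π).Normal := hKn.map π hsurj
    have hchief : IsChiefFactor (H.map π) (K.map π) := by
      refine ⟨hHn', hKn', ?_, ?_⟩
      · refine lt_of_le_not_ge (Subgroup.map_mono hHK.lt.le) fun h => ?_
        refine hHK.lt.not_ge fun x hx => ?_
        exact mem_sup_inf hHK.lt.le hcase hx (h ⟨x, hx, rfl⟩)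
      · intro M' hM' hKM hMH
        have hn : ((M'.comap π) ⊓ H).Normal := inferInstance
        rcases hHK.eq_or_eq ((M'.comap π) ⊓ H) hn
          (le_inf (Subgroup.map_le_iff_le_comap.1 hKM) hHK.lt.le) inf_le_right with h | h
        · left
          refine le_antisymm (fun x hx => ?_) hKM
          obtain ⟨y, hy, rfl⟩ := hMH hx
          have : y ∈ (M'.comap π) ⊓ H := ⟨hx, hy⟩
          rw [h] at this
          exact ⟨y, this, rfl⟩
        · right
          refine le_antisymm hMH ?_
          rw [Subgroup.map_le_iff_le_comap]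
          intro y hy
          have hy' : y ∈ (M'.comap π) ⊓ H := by rw [h]; exact hy
          exact hy'.1
    have hidx : (K.map π).relIndex (H.map π) = K.relIndex H := by
      rw [Subgroup.relIndex_map_map, hπ, QuotientGroup.ker_mk']
      have h1 : H ⊔ N = H ⊔ (K ⊔ N) := by
        rw [← sup_assoc, sup_eq_left.2 hHK.lt.le]
      rw [h1, Subgroup.relIndex_sup_right, ← Subgroup.inf_relIndex_right]
      congr 1
      refine le_antisymm ?_ (le_inf le_sup_left hHK.lt.le)
      rintro x ⟨hx1, hx2⟩
      refine mem_sup_inf hHK.lt.le hcase hx2 ?_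
      have h2 : x ∈ K ⊔ N := hx1
      rw [Subgroup.mem_sup_of_normal_right] at h2
      obtain ⟨y, hy, z, hz, rfl⟩ := h2
      refine ⟨y, hy, ?_⟩
      rw [map_mul]
      have : (QuotientGroup.mk' N) z = 1 := (QuotientGroup.eq_one_iff z).2 hz
      rw [this, mul_one]
    have h1 := (hf.2 (E ⧸ N)).1 hFN (H.map π) (K.map π) hchief r hr (by rw [hidx]; exact hdvd)
    have hfr := form_of_mem hf hr h1
    set φ : E →* (E ⧸ N) ⧸ factorCentralizer (H.map π) (K.map π) hchief.normal_top
      hchief.normal_bot := (QuotientGroup.mk' _).comp π with hφ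
    have hφs : Function.Surjective φ := (QuotientGroup.mk'_surjective _).comp hsurj
    have h2 := fquot hfr φ hφs h1
    have hker : φ.ker = factorCentralizer H K hHK.normal_top hHK.normal_bot := by
      ext x
      rw [MonoidHom.mem_ker, mem_factorCentralizer]
      have h3 : φ x = 1 ↔ π x ∈ factorCentralizer (H.map π) (K.map π) hchief.normal_top
          hchief.normal_bot := QuotientGroup.eq_one_iff _
      rw [h3, mem_factorCentralizer]
      constructor
      · intro h h' hh'
        have h4 := h (π h') ⟨h', hh', rfl⟩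
        have h5 : π (x * h' * x⁻¹ * h'⁻¹) ∈ K.map π := by
          simpa only [map_mul, map_inv] using h4
        exact mem_sup_inf hHK.lt.le hcase (H.mul_mem (hHn.conj_mem h' hh' x) (H.inv_mem hh')) h5
      · rintro h _ ⟨h', hh', rfl⟩
        have h4 := h h' hh'
        exact ⟨_, h4, by simp only [map_mul, map_inv]⟩
    exact hfr.iso _ _ (QuotientGroup.quotientMulEquivOfEq hker) h2
  · -- the factor is a `p`-group
    have hn : (K ⊔ (H ⊓ N)).Normal := inferInstance
    have hM : K ⊔ (H ⊓ N) = H := by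
      rcases hHK.eq_or_eq (K ⊔ (H ⊓ N)) hn le_sup_left (sup_le hHK.lt.le inf_le_left) with h | h
      · exfalso
        exact hcase (by rw [← h]; exact le_sup_right)
      · exact h
    have hNp : IsPGroup p (H ⊓ N : Subgroup E) := hP.to_le (inf_le_right.trans hNP)
    have hrp : r = p := by
      have h1 : K.relIndex H = K.relIndex (H ⊓ N) := by
        conv_lhs => rw [← hM]
        rw [Subgroup.relIndex_sup_left]
      have h2 : r ∣ Nat.card (H ⊓ N : Subgroup E) := by
        rw [h1] at hdvd
        exact hdvd.trans (Subgroup.relIndex_dvd_card K _)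
      obtain ⟨n, hn⟩ := IsPGroup.iff_card.1 hNp
      rw [hn] at h2
      exact (Nat.prime_dvd_prime_iff_eq hr hp).1 (hr.dvd_of_dvd_pow h2)
    subst hrp
    have hHp : IsPGroup r (H.map (QuotientGroup.mk' K)) := by
      have h1 : H.map (QuotientGroup.mk' K) = (H ⊓ N).map (QuotientGroup.mk' K) := by
        conv_lhs => rw [← hM]
        rw [Subgroup.map_sup]
        have h2 : K.map (QuotientGroup.mk' K) = ⊥ := by
          rw [Subgroup.map_eq_bot_iff, QuotientGroup.ker_mk']
        rw [h2, bot_sup_eq]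
      rw [h1]
      exact hNp.map _
    have h3 := centralizes hp hHK inferInstance hP hHp
    refine fsurj hfp (QuotientGroup.map P _ (MonoidHom.id E) ?_) ?_ hfP
    · intro x hx
      exact h3 x hx
    · intro y
      obtain ⟨z, rfl⟩ := QuotientGroup.mk_surjective y
      exact ⟨QuotientGroup.mk z, rfl⟩

/-- `CF`-extension theorem: an extension of a `p`-group by a group in `CF p` is in `CF p` -/
theorem CF_ext (hF : IsFormation F) {p : ℕ} (hp : p.Prime) {E Y : Type} [Group E] [Finite E]
    [Group Y] (φ : E →* Y) (hφ : Function.Surjective φ) (hker : IsPGroup p φ.ker)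
    (hY : CF F f p Y) : CF F f p E := by
  obtain ⟨h1, P, hP, h2, h3⟩ := hY
  have hfp := form_of_mem hf hp h3
  have hPn : (P.comap φ).Normal := hP.comap φ
  have hPp : IsPGroup p (P.comap φ) := h2.comap_of_ker_isPGroup φ hker
  have h4 : f p (E ⧸ P.comap φ) := by
    have h5 := fquot hfp ((QuotientGroup.mk' P).comp φ)
      ((QuotientGroup.mk'_surjective P).comp hφ) h3
    refine hfp.iso _ _ (QuotientGroup.quotientMulEquivOfEq ?_) h5
    ext x
    rw [MonoidHom.mem_ker, Subgroup.mem_comap]
    exact QuotientGroup.eq_one_iff (φ x)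
  refine ⟨mem_of_ext hf hp φ.ker (P.comap φ) hPp ?_ (fquot hF φ hφ h1) h4, P.comap φ, hPn, hPp, h4⟩
  intro x hx
  rw [Subgroup.mem_comap, MonoidHom.mem_ker.1 hx]
  exact P.one_mem

/-- induction for the action on a normal `p`-subgroup -/
theorem exists_D {p : ℕ} (hp : p.Prime) (hfp : IsFormation (f p)) {G : Type} [Group G] [Finite G]
    (hG : F G) : ∀ n : ℕ, ∀ A : Subgroup G, A.Normal → IsPGroup p A → Nat.card A ≤ n →
      ∃ (D : Subgroup G) (_ : D.Normal), f p (G ⧸ D) ∧
        ∀ d ∈ D, ∃ j : ℕ, ∀ a ∈ A, Commute (d ^ p ^ j) a := by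
  have : Fact p.Prime := ⟨hp⟩
  intro n
  induction n with
  | zero =>
    intro A _ _ hcard
    have := Nat.card_pos (α := A)
    omega
  | succ n ih =>
    intro A hA hAp hcard
    by_cases hA1 : A = ⊥
    · refine ⟨⊤, inferInstance, ?_, ?_⟩
      · have : Subsingleton (G ⧸ (⊤ : Subgroup G)) := QuotientGroup.subsingleton_quotient_top
        exact ftriv hfp _
      · intro d _
        refine ⟨0, fun a ha => ?_⟩
        rw [hA1, Subgroup.mem_bot] at ha
        rw [ha]; exact Commute.one_right _
    · -- a maximal normal subgroup below `A`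
      have hfin : (Set.univ : Set (Subgroup G)).Finite := Set.toFinite _
      obtain ⟨K, hKmem, hKmax⟩ := Set.Finite.exists_maximal
        (s := {K : Subgroup G | K.Normal ∧ K < A}) (Set.toFinite _)
        ⟨⊥, inferInstance, bot_lt_iff_ne_bot.2 hA1⟩
      have hKn : K.Normal := hKmem.1
      have hKA : K < A := hKmem.2
      have hchief : IsChiefFactor A K := by
        refine ⟨hA, hKn, hKA, fun M hM hKM hMA => ?_⟩
        by_cases h : M = A
        · exact Or.inr h
        · left
          exact le_antisymm (hKmax ⟨hM, lt_of_le_of_ne hMA h⟩ hKM) hKM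
      have hcard2 : Nat.card K ≤ n := by
        have h1 : Nat.card K < Nat.card A :=
          lt_of_le_of_ne (Nat.card_le_card_of_injective (Subgroup.inclusion hKA.le)
            (Subgroup.inclusion_injective hKA.le))
            fun h => hKA.ne (Subgroup.eq_of_le_of_card_ge hKA.le h.ge)
        omega
      obtain ⟨D, hD, hfD, hDc⟩ := ih K hKn (hAp.to_le hKA.le) hcard2
      have hdvd : p ∣ K.relIndex A := by
        have h1 : K.relIndex A ∣ Nat.card A := Subgroup.relIndex_dvd_card K A
        obtain ⟨m, hm⟩ := IsPGroup.iff_card.1 hAp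
        rw [hm, Nat.dvd_prime_pow hp] at h1
        obtain ⟨i, -, hi⟩ := h1
        rcases Nat.eq_zero_or_pos i with h2 | h2
        · exfalso
          rw [h2, pow_zero, Subgroup.relIndex_eq_one] at hi
          exact hKA.not_ge hi
        · rw [hi]; exact dvd_pow_self p h2.ne'
      have hfC := (hf.2 G).1 hG A K hchief p hp hdvd
      have hDC : (D ⊓ factorCentralizer A K hchief.normal_top hchief.normal_bot).Normal :=
        inferInstance
      refine ⟨D ⊓ factorCentralizer A K hchief.normal_top hchief.normal_bot, hDC,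
        hfp.subdirect G _ _ hfD hfC, ?_⟩
      rintro d ⟨hd1, hd2⟩
      obtain ⟨j, hj⟩ := hDc d hd1
      obtain ⟨m, hm⟩ := IsPGroup.iff_card.1 (hAp.to_le hKA.le)
      refine ⟨j + m, fun a ha => ?_⟩
      set e := d ^ p ^ j with he
      have he2 : e ∈ factorCentralizer A K hchief.normal_top hchief.normal_bot :=
        Subgroup.pow_mem _ hd2 _
      set z := e * a * e⁻¹ * a⁻¹ with hz
      have hzK : z ∈ K := he2 a ha
      have hez : Commute e z := hj z hzK
      have h1 : ∀ i : ℕ, e ^ i * a = z ^ i * a * e ^ i := by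
        intro i
        induction i with
        | zero => simp
        | succ i ih2 =>
          have h3 : e * a = z * a * e := by rw [hz]; group
          have h4 : e * z ^ i = z ^ i * e := (hez.pow_right i).eq
          calc e ^ (i + 1) * a = e * (e ^ i * a) := by rw [pow_succ', mul_assoc]
            _ = (e * z ^ i) * a * e ^ i := by rw [ih2]; simp only [mul_assoc]
            _ = z ^ i * (e * a) * e ^ i := by rw [h4]; simp only [mul_assoc]
            _ = z ^ i * (z * a * e) * e ^ i := by rw [h3]
            _ = z ^ (i + 1) * a * e ^ (i + 1) := by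
                rw [pow_succ z, pow_succ' e]; simp only [mul_assoc]
      have h2 : z ^ p ^ m = 1 := by
        rw [← hm]
        have := pow_card_eq_one' (x := (⟨z, hzK⟩ : K))
        exact congrArg Subtype.val this
      have h3 := h1 (p ^ m)
      rw [h2, one_mul] at h3
      show d ^ p ^ (j + m) * a = a * d ^ p ^ (j + m)
      rw [pow_add, pow_mul, ← he]
      exact h3

/-- the action of a group of `F` on a normal `p`-subgroup is in `CF p` -/
theorem CF_act (hF : IsFormation F) {p : ℕ} (hp : p.Prime) (hfp : IsFormation (f p)) {G : Type}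
    [Group G] [Finite G] (hG : F G) (A : Subgroup G) [A.Normal] (hA : IsPGroup p A) {Y : Type}
    [Group Y] (φ : G →* Y) (hφ : Function.Surjective φ)
    (hc : ∀ g, (∀ a ∈ A, Commute g a) → φ g = 1) : CF F f p Y := by
  obtain ⟨D, hD, hfD, hDc⟩ := exists_D hf hp hfp hG (Nat.card A) A inferInstance hA le_rfl
  have hn : (D.map φ).Normal := hD.map φ hφ
  refine ⟨fsurj hF φ hφ hG, D.map φ, hn, ?_, ?_⟩
  · rintro ⟨_, d, hd, rfl⟩
    obtain ⟨j, hj⟩ := hDc d hd
    refine ⟨j, Subtype.ext ?_⟩
    show (φ d) ^ p ^ j = 1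
    rw [← map_pow]
    exact hc _ hj
  · refine fsurj hfp (QuotientGroup.map D (D.map φ) φ (Subgroup.le_comap_map φ D)) ?_ hfD
    intro y
    obtain ⟨y', rfl⟩ := QuotientGroup.mk_surjective y
    obtain ⟨z, rfl⟩ := hφ y'
    exact ⟨QuotientGroup.mk z, rfl⟩

end Pool.Agent.CoveringSubgroups.H9
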