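import Pool.Agent.Lib.MP_7252b7_al_h9.Wreath
import Pool.Agent.Lib.MP_7252b7_al_h9.Data

/-!
# Covering subgroups of `SL₂(2^k) ≀ X`
-/

set_option autoImplicit false

namespace Pool.Agent.CoveringSubgroups.H9

open Pool.Agent.CoveringSubgroups

section incl

variable {G X : Type} [Group G] [Group X]

/-- the inclusion of `N ≀ X` in `G ≀ X` -/
def wrIncl (N : Subgroup G) (X : Type) [Group X] : N ≀ᵣ X →* G ≀ᵣ X where
  toFun a := ⟨fun y => (a.left y : G), a.right⟩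
  map_one' := rfl
  map_mul' _ _ := rfl

lemma wrIncl_injective (N : Subgroup G) : Function.Injective (wrIncl N X) := by
  intro a b h
  have h1 : (fun y => (a.left y : G)) = fun y => (b.left y : G) :=
    congrArg RegularWreathProduct.left h
  have h2 : a.right = b.right := congrArg (fun c : G ≀ᵣ X => c.right) h
  refine RegularWreathProduct.ext (funext fun y => Subtype.ext ?_) h2
  exact congrFun h1 y

lemma mem_range_wrIncl {N : Subgroup G} {a : G ≀ᵣ X} (h : ∀ y, a.left y ∈ N) :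
    a ∈ (wrIncl N X).range :=
  ⟨⟨fun y => ⟨a.left y, h y⟩, a.right⟩, rfl⟩

/-- the components of a subgroup of the base group at the coordinate `y` -/
def comps (W : Subgroup (G ≀ᵣ X)) (y : X) : Set G := {v | ∃ w ∈ W, w.left y = v}

lemma comps_conj {H W : Subgroup (G ≀ᵣ X)} (hWn : ∀ h ∈ H, ∀ w ∈ W, h * w * h⁻¹ ∈ W)
    (hWb : ∀ w ∈ W, w.right = 1) {h : G ≀ᵣ X} (hh : h ∈ H) {z : X} {v : G}
    (hv : v ∈ comps W (h.right⁻¹ * z)) : h.left z * v * (h.left z)⁻¹ ∈ comps W z := by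
  obtain ⟨w, hw, rfl⟩ := hv
  refine ⟨_, hWn h hh w hw, ?_⟩
  simp [hWb w hw]

/-- conjugation into a group of matrices normalizing all components -/
theorem exists_conj {H W : Subgroup (G ≀ᵣ X)} (hr : ∀ x : X, ∃ h ∈ H, h.right = x)
    (hWn : ∀ h ∈ H, ∀ w ∈ W, h * w * h⁻¹ ∈ W) (hWb : ∀ w ∈ W, w.right = 1) :
    ∃ m : G ≀ᵣ X, m.right = 1 ∧
      (∀ g ∈ H.comap (MulAut.conj m).toMonoidHom, ∀ z, ∀ v ∈ comps W 1,
        g.left z * v * (g.left z)⁻¹ ∈ comps W 1) ∧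
      ∀ w ∈ W.comap (MulAut.conj m).toMonoidHom, ∀ z, w.left z ∈ comps W 1 := by
  choose t ht1 ht2 using hr
  have f1 : ∀ z, ∀ v ∈ comps W 1, (t z).left z * v * ((t z).left z)⁻¹ ∈ comps W z := by
    intro z v hv
    refine comps_conj hWn hWb (ht1 z) ?_
    rw [ht2, inv_mul_cancel]; exact hv
  have f2 : ∀ z, ∀ v ∈ comps W z, ((t z).left z)⁻¹ * v * (t z).left z ∈ comps W 1 := by
    intro z v hv
    have h1 := comps_conj hWn hWb (H.inv_mem (ht1 z)) (z := 1) (v := v) (by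
      rw [RegularWreathProduct.inv_right, inv_inv, ht2, mul_one]; exact hv)
    simpa [ht2] using h1
  refine ⟨⟨fun z => (t z).left z, 1⟩, rfl, ?_, ?_⟩
  · intro g hg z v hv
    have h0 : (⟨fun z => (t z).left z, 1⟩ : G ≀ᵣ X) * g *
      (⟨fun z => (t z).left z, 1⟩ : G ≀ᵣ X)⁻¹ ∈ H := hg
    have h1 := f1 (g.right⁻¹ * z) v hv
    have h2 := comps_conj hWn hWb h0 (z := z) (v := _) (by
      simpa using h1)
    have h3 := f2 z _ h2
    simp only [RegularWreathProduct.mul_left, RegularWreathProduct.mul_right,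
      RegularWreathProduct.inv_left, Pi.mul_apply, Pi.inv_apply, one_mul, inv_one,
      mul_inv_rev, inv_inv] at h3
    convert h3 using 1
    group
  · intro w hw z
    have h0 : (⟨fun z => (t z).left z, 1⟩ : G ≀ᵣ X) * w *
      (⟨fun z => (t z).left z, 1⟩ : G ≀ᵣ X)⁻¹ ∈ W := hw
    have hw1 : w.right = 1 := by simpa using hWb _ h0
    have h1 : (t z).left z * w.left z * ((t z).left z)⁻¹ ∈ comps W z := by
      refine ⟨_, h0, ?_⟩
      simp [hw1]
    have h2 := f2 z _ h1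
    simpa [mul_assoc] using h2

end incl

open scoped commutatorElement in
lemma exists_abelian_normal {G : Type} [Group G] [Finite G] [Group.IsSolvable G] (M : Subgroup G)
    [M.Normal] (hM : M ≠ ⊥) : ∃ s : ℕ, s.Prime ∧ ∃ W : Subgroup G, W.Normal ∧ W ≤ M ∧ W ≠ ⊥ ∧
      (∀ a ∈ W, ∀ b ∈ W, a * b = b * a) ∧ ∀ a ∈ W, a ^ s = 1 := by
  classical
  have hex : ∃ n, derivedSeries M n = ⊥ := (Group.isSolvable_def M).1 inferInstance
  set n := Nat.find hex with hn
  have hn1 : derivedSeries M n = ⊥ := Nat.find_spec hex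
  have hn0 : n ≠ 0 := by
    intro h0
    rw [h0, derivedSeries_zero] at hn1
    apply hM
    rw [eq_bot_iff]
    intro x hx
    have h1 : (⟨x, hx⟩ : M) ∈ (⊥ : Subgroup M) := by rw [← hn1]; trivial
    rw [Subgroup.mem_bot] at h1 ⊢
    exact congrArg Subtype.val h1
  obtain ⟨m, hm⟩ := Nat.exists_eq_succ_of_ne_zero hn0
  have hm1 : derivedSeries M m ≠ ⊥ := Nat.find_min hex (by omega)
  let W0 : Subgroup G := (derivedSeries M m).map M.subtype
  have hW0n : W0.Normal := ConjAct.normal_of_characteristic_of_normal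
  have hW0M : W0 ≤ M := Subgroup.map_subtype_le _
  have hW0c : ∀ a ∈ W0, ∀ b ∈ W0, a * b = b * a := by
    rintro _ ⟨a, ha, rfl⟩ _ ⟨b, hb, rfl⟩
    have h1 : ⁅a, b⁆ ∈ derivedSeries M n := by
      rw [hm]; exact Subgroup.commutator_mem_commutator ha hb
    rw [hn1, Subgroup.mem_bot, commutatorElement_eq_one_iff_mul_comm] at h1
    exact congrArg Subtype.val h1
  have hW01 : W0 ≠ ⊥ := by
    intro h
    apply hm1
    exact (Subgroup.map_eq_bot_iff_of_injective _ M.subtype_injective).1 h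
  have hc : Nat.card W0 ≠ 1 := by
    intro h
    exact hW01 (Subgroup.card_eq_one.1 h)
  obtain ⟨s, hs, hsd⟩ := Nat.exists_prime_and_dvd hc
  have : Fact s.Prime := ⟨hs⟩
  let W : Subgroup G :=
    { carrier := {a | a ∈ W0 ∧ a ^ s = 1}
      one_mem' := ⟨W0.one_mem, one_pow s⟩
      mul_mem' := by
        rintro a b ⟨ha, ha'⟩ ⟨hb, hb'⟩
        refine ⟨W0.mul_mem ha hb, ?_⟩
        rw [Commute.mul_pow (hW0c a ha b hb), ha', hb', one_mul]
      inv_mem' := by
        rintro a ⟨ha, ha'⟩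
        exact ⟨W0.inv_mem ha, by rw [inv_pow, ha', inv_one]⟩ }
  refine ⟨s, hs, W, ⟨?_⟩, fun a ha => hW0M ha.1, ?_, fun a ha b hb => hW0c a ha.1 b hb.1,
    fun a ha => ha.2⟩
  · rintro a ⟨ha, ha'⟩ g
    refine ⟨hW0n.conj_mem a ha g, ?_⟩
    rw [conj_pow, ha', mul_one, mul_inv_cancel]
  · obtain ⟨x, hx⟩ := exists_prime_orderOf_dvd_card' (G := W0) s hsd
    intro h
    have h1 : (x : G) ∈ W := ⟨x.2, by
      have := pow_orderOf_eq_one x
      rw [hx] at this
      exact congrArg Subtype.val this⟩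
    rw [h, Subgroup.mem_bot] at h1
    have h2 : x = 1 := Subtype.ext h1
    rw [h2, orderOf_one] at hx
    exact hs.ne_one hx.symm

variable {F : GroupClass} {f : ℕ → GroupClass}

section

variable (hF : IsFormation F) (hf : IsLocallyDefinedBy F f)

include hF hf

/-- `main_lemma` for subgroups with components in a subgroup `N` -/
theorem apply_main (hher : ∀ (G : Type) [Group G] (H : Subgroup G), F G → F H)
    {r s : ℕ} (hr : r.Prime) (hs : s.Prime) (hfr : IsFormation (f r)) (hfs : IsFormation (f s))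
    {G Λ X Y : Type} [Group G] [Finite G] [CommGroup Λ] [Nontrivial Λ] [Group X] [Group Y]
    [Finite X] [Finite Λ] (N : Subgroup G) (hΛ : IsPGroup r Λ) (μ : N →* Λ)
    (hμ : Function.Surjective μ) (hker : ∀ t : N, μ t = 1 → (∃ j, t ^ r ^ j = 1) → t = 1)
    (hX : F X) {H W : Subgroup (G ≀ᵣ X)} (hH : Cov F H) (hWH : W ≤ H)
    (hWn : ∀ h ∈ H, ∀ w ∈ W, h * w * h⁻¹ ∈ W) (hWs : IsPGroup s W) (hW1 : W ≠ ⊥)
    (hWb : ∀ w ∈ W, w.right = 1) (hN : ∀ h ∈ H, ∀ y, h.left y ∈ N)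
    (hfpf : ∀ w ∈ W, ∀ x, w.left x ≠ 1 → ∃ l : Λ, ∀ t : N, μ t = l →
      (t : G) * w.left x ≠ w.left x * t)
    (ζ : X →* Y) (hζ : Function.Surjective ζ) (hY : CF F f r Y) : CF F f s Y := by
  have hinj := wrIncl_injective (X := X) N
  have hrange : H ≤ (wrIncl N X).range := fun h hh => mem_range_wrIncl (hN h hh)
  refine main_lemma hF hf hher hr hs hfr hfs hΛ μ hμ hker hX
    (H := H.comap (wrIncl N X)) (A := W.comap (wrIncl N X))
    (hH.comap hF _ hinj hrange) (Subgroup.comap_mono hWH) ?_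
    (hWs.comap_of_injective _ hinj) ?_ ?_ ?_ ζ hζ hY
  · intro h hh a ha
    show wrIncl N X (h * a * h⁻¹) ∈ W
    rw [map_mul, map_mul, map_inv]
    exact hWn _ hh _ ha
  · intro h
    obtain ⟨w, hw, hw1⟩ := (Subgroup.bot_or_exists_ne_one W).resolve_left hW1
    obtain ⟨a, rfl⟩ := hrange (hWH hw)
    have h1 : a ∈ W.comap (wrIncl N X) := hw
    rw [h, Subgroup.mem_bot] at h1
    exact hw1 (by rw [h1, map_one])
  · intro a ha
    exact hWb _ ha
  · intro a ha x hx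
    have h1 : (wrIncl N X a).left x ≠ 1 := by
      intro h
      exact hx (Subtype.ext h)
    obtain ⟨l, hl⟩ := hfpf _ ha x h1
    refine ⟨l, fun t ht h2 => hl t ht ?_⟩
    exact congrArg Subtype.val h2

/-- a covering subgroup of `G ≀ X` meets the base group -/
theorem exists_base (hher : ∀ (G : Type) [Group G] (H : Subgroup G), F G → F H)
    {r : ℕ} (hr : r.Prime) (hfr : IsFormation (f r))
    {G Λ X : Type} [Group G] [CommGroup Λ] [Nontrivial Λ] [Group X]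
    [Finite X] [Finite Λ] (N : Subgroup G) (hΛ : IsPGroup r Λ) (μ : N →* Λ)
    (hμ : Function.Surjective μ)
    (hX : F X) {H : Subgroup (G ≀ᵣ X)} (hH : Cov F H) : ∃ h ∈ H, h.right = 1 ∧ h ≠ 1 := by
  by_contra hcon
  push Not at hcon
  have hr' : ∀ x : X, ∃ h ∈ H, h.right = x := by
    intro x
    obtain ⟨h, h1, h2⟩ := hH.top (RegularWreathProduct.rightHom : G ≀ᵣ X →* X)
      (fun x => ⟨RegularWreathProduct.inl x, RegularWreathProduct.fun_id x⟩) hX
      (RegularWreathProduct.inl x)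
    exact ⟨h, h1, h2⟩
  have huniq : ∀ h ∈ H, ∀ h' ∈ H, h.right = h'.right → h = h' := by
    intro h hh h' hh' he
    have h1 := hcon (h * h'⁻¹) (H.mul_mem hh (H.inv_mem hh')) (by simp [he])
    exact mul_inv_eq_one.1 h1
  choose t ht1 ht2 using hr'
  let m : G ≀ᵣ X := ⟨fun z => (t z).left z, 1⟩
  have hleft : ∀ g ∈ H.comap (MulAut.conj m).toMonoidHom, g.left = 1 := by
    intro g hg
    have h0 : m * g * m⁻¹ ∈ H := hg
    ext z
    have h1 : t z = m * g * m⁻¹ * t (g.right⁻¹ * z) := by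
      refine huniq _ (ht1 z) _ (H.mul_mem h0 (ht1 _)) ?_
      simp [ht2, m]
    have h2 := congrArg (fun c : G ≀ᵣ X => c.left z) h1
    simp only [RegularWreathProduct.mul_left, RegularWreathProduct.mul_right,
      RegularWreathProduct.inv_left, RegularWreathProduct.inv_right, Pi.mul_apply,
      Pi.inv_apply, one_mul, inv_one, mul_one, m] at h2
    have h3 : (t z).left z * 1 = (t z).left z * g.left z := by
      rw [mul_one]
      conv_lhs => rw [h2]
      group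
    exact (mul_left_cancel h3).symm
  have hinj := wrIncl_injective (X := X) N
  have hcov := (hH.conj hF m).comap hF (wrIncl N X) hinj (fun h hh => mem_range_wrIncl (by
    intro y
    rw [hleft h hh]
    exact N.one_mem))
  obtain ⟨l, hl⟩ := exists_ne (1 : Λ)
  obtain ⟨u, hu⟩ := hμ l
  classical
  have hU : CF F f r PUnit := ⟨ftriv hF _, ⊥, inferInstance, IsPGroup.of_bot, ftriv hfr _⟩
  obtain ⟨h, hh, h1, h2⟩ := star hF hf hher hr hΛ μ (1 : X →* PUnit) hX hU hcov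
    (⟨fun y => if y = 1 then u else 1, 1⟩ : N ≀ᵣ X)
  have h3 : h = 1 := by
    have h4 : (wrIncl N X h).left = 1 := hleft _ hh
    refine RegularWreathProduct.ext (funext fun y => Subtype.ext ?_) h1
    exact congrFun h4 y
  have h5 := congrFun h2 1
  rw [h3, map_one, psi_left] at h5
  let := Fintype.ofFinite X
  rw [Finset.prod_eq_single (1 : X)] at h5
  · simp [hu] at h5
    exact hl h5.symm
  · intro y _ hy
    simp [hy]
  · simp

omit hF in
/-- primes occurring in `F` -/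
theorem form_of_dvd (hF : IsFormation F)
    (hher : ∀ (G : Type) [Group G] (H : Subgroup G), F G → F H) {s : ℕ}
    (hs : s.Prime) {G : Type} [Group G] [Finite G] (hG : F G) (hd : s ∣ Nat.card G) :
    IsFormation (f s) := by
  have : Fact s.Prime := ⟨hs⟩
  obtain ⟨x, hx⟩ := exists_prime_orderOf_dvd_card' (G := G) s hd
  let C := Subgroup.zpowers x
  have hC : Nat.card C = s := by rw [Nat.card_zpowers, hx]
  have hFC : F C := hher G C hG
  have hCf : Finite C := hF.finite _ hFC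
  have hsimple : IsSimpleGroup C := isSimpleGroup_of_prime_card hC
  have hchief : IsChiefFactor (⊤ : Subgroup C) ⊥ := by
    refine ⟨inferInstance, inferInstance, bot_lt_top, fun M hM _ _ => ?_⟩
    exact hM.eq_bot_or_eq_top
  have hdvd : s ∣ (⊥ : Subgroup C).relIndex ⊤ := by
    rw [Subgroup.relIndex_top_right, Subgroup.index_bot, hC]
  exact form_of_mem hf hs ((hf.2 C).1 hFC ⊤ ⊥ hchief s hs hdvd)

end

/-- the situation of a covering subgroup `H` and a normal subgroup `W` of `H` in the base group -/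
structure Good (F : GroupClass) (s : ℕ) {G X : Type} [Group G] [Group X]
    (H W : Subgroup (G ≀ᵣ X)) : Prop where
  cov : Cov F H
  le : W ≤ H
  nrm : ∀ h ∈ H, ∀ w ∈ W, h * w * h⁻¹ ∈ W
  base : ∀ w ∈ W, w.right = 1
  pow : ∀ w ∈ W, w ^ s = 1
  ne : W ≠ ⊥

section

variable {G X : Type} [Group G] [Group X] {s : ℕ} {H W : Subgroup (G ≀ᵣ X)}

lemma Good.conj (hF : IsFormation F) (h : Good F s H W) (m : G ≀ᵣ X) (hm : m.right = 1) :
    Good F s (H.comap (MulAut.conj m).toMonoidHom) (W.comap (MulAut.conj m).toMonoidHom) := by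
  refine ⟨h.cov.conj hF m, Subgroup.comap_mono h.le, ?_, ?_, ?_, ?_⟩
  · intro g hg w hw
    have h1 : m * g * m⁻¹ ∈ H := hg
    have h2 : m * w * m⁻¹ ∈ W := hw
    show m * (g * w * g⁻¹) * m⁻¹ ∈ W
    have h3 := h.nrm _ h1 _ h2
    have e : m * (g * w * g⁻¹) * m⁻¹ = (m * g * m⁻¹) * (m * w * m⁻¹) * (m * g * m⁻¹)⁻¹ := by group
    rw [e]; exact h3
  · intro w hw
    have h2 : m * w * m⁻¹ ∈ W := hw
    have h3 := h.base _ h2
    simpa [hm] using h3
  · intro a ha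
    have h2 : m * a * m⁻¹ ∈ W := ha
    have h3 := h.pow _ h2
    rw [conj_pow, mul_inv_eq_one] at h3
    exact mul_left_cancel (h3.trans (mul_one m).symm)
  · intro hne
    obtain ⟨w, hw, hw1⟩ := (Subgroup.bot_or_exists_ne_one W).resolve_left h.ne
    have e : m * (m⁻¹ * w * m) * m⁻¹ = w := by group
    have h1 : m⁻¹ * w * m ∈ W.comap (MulAut.conj m).toMonoidHom := by
      show m * (m⁻¹ * w * m) * m⁻¹ ∈ W
      rw [e]; exact hw
    rw [hne, Subgroup.mem_bot] at h1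
    apply hw1
    rw [← e, h1]; group

lemma Good.exists_ne (h : Good F s H W) : ∃ w ∈ W, ∃ z, w.left z ≠ 1 := by
  obtain ⟨w, hw, hw1⟩ := (Subgroup.bot_or_exists_ne_one W).resolve_left h.ne
  refine ⟨w, hw, ?_⟩
  by_contra hcon
  push Not at hcon
  exact hw1 (RegularWreathProduct.ext (funext hcon) (h.base w hw))

lemma Good.isPGroup (h : Good F s H W) : IsPGroup s W := by
  rintro ⟨w, hw⟩
  refine ⟨1, Subtype.ext ?_⟩
  show w ^ s ^ 1 = 1
  rw [pow_one]
  exact h.pow w hw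

end

section

variable {K : Type} [Field K] [CharP K 2] [Finite K] {X Y : Type} [Group X] [Group Y]

/-- the `2`-local case -/
theorem two_case (hF : IsFormation F) (hf : IsLocallyDefinedBy F f)
    (hher : ∀ (G : Type) [Group G] (H : Subgroup G), F G → F H)
    {q : ℕ} (hq : q.Prime) (hq2 : q ≠ 2) (hfq : IsFormation (f q)) (hf2 : IsFormation (f 2))
    (hqK : q ∣ Nat.card Kˣ) (hX : F X) {H W : Subgroup (SL2 K ≀ᵣ X)}
    (hG : Good F 2 H W) (T : Set (SL2 K)) (hTc : ∀ u ∈ T, ∀ v ∈ T, u * v = v * u)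
    (hT2 : ∀ u ∈ T, u ^ 2 = 1) (hHT : ∀ g ∈ H, ∀ z, ∀ v ∈ T, g.left z * v * (g.left z)⁻¹ ∈ T)
    (hWT : ∀ w ∈ W, ∀ z, w.left z ∈ T)
    (ζ : X →* Y) (hζ : Function.Surjective ζ) (hY : CF F f q Y) : CF F f 2 Y := by
  have hXf : Finite X := hF.finite X hX
  obtain ⟨Λ, _, _, _, μ, hΛ, hμ, hker, huni⟩ := borel_data (K := K) hq hq2 hqK
  obtain ⟨w1, hw1, z1, hz1⟩ := hG.exists_ne
  obtain ⟨v0, hv0T, hv01⟩ : ∃ v ∈ T, v ≠ 1 := ⟨_, hWT w1 hw1 z1, hz1⟩
  obtain ⟨g, hg⟩ := exists_conj_uni (K := K) (w := v0) (by rw [← pow_two]; exact hT2 v0 hv0T)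
  have hg1 : g * v0 * g⁻¹ ≠ 1 := by
    intro h1
    apply hv01
    rw [mul_inv_eq_one] at h1
    exact mul_left_cancel (h1.trans (mul_one g).symm)
  have hTuni : ∀ v ∈ T, IsUni (g * v * g⁻¹) := by
    intro v hv
    refine hg.of_comm hg1 ?_
    have h1 := hTc v hv v0 hv0T
    have e1 : (g * v * g⁻¹) * (g * v0 * g⁻¹) = g * (v * v0) * g⁻¹ := by group
    have e2 : (g * v0 * g⁻¹) * (g * v * g⁻¹) = g * (v0 * v) * g⁻¹ := by group
    rw [e1, e2, h1]
  obtain ⟨c, hc⟩ : ∃ c : SL2 K ≀ᵣ X, c = ⟨fun _ => g⁻¹, 1⟩ := ⟨_, rfl⟩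
  have hc1 : c.right = 1 := by rw [hc]
  have hcl : ∀ (h : SL2 K ≀ᵣ X) z, (c * h * c⁻¹).left z = g⁻¹ * h.left z * g := by
    intro h z
    rw [hc]
    simp
  have hG2 := hG.conj hF c hc1
  have hW2uni : ∀ w ∈ W.comap (MulAut.conj c).toMonoidHom, ∀ z, IsUni (w.left z) := by
    intro w hw z
    have h1 : c * w * c⁻¹ ∈ W := hw
    have h2 := hTuni _ (hWT _ h1 z)
    rw [hcl] at h2
    have e : g * (g⁻¹ * w.left z * g) * g⁻¹ = w.left z := by group
    rwa [e] at h2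
  obtain ⟨l, hl⟩ := exists_ne (1 : Λ)
  refine apply_main hF hf hher hq Nat.prime_two hfq hf2 (borel K) hΛ μ hμ hker hX
    hG2.cov hG2.le hG2.nrm hG2.isPGroup hG2.ne hG2.base ?_ ?_ ζ hζ hY
  · intro h hh z
    have h1 : c * h * c⁻¹ ∈ H := hh
    have h2 := hHT _ h1 z v0 hv0T
    rw [hcl] at h2
    have h3 := hTuni _ h2
    refine hg.borel_of_conj hg1 ?_
    have e : g * (g⁻¹ * h.left z * g * v0 * (g⁻¹ * h.left z * g)⁻¹) * g⁻¹ =
      h.left z * (g * v0 * g⁻¹) * (h.left z)⁻¹ := by group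
    rwa [e] at h3
  · intro w hw x hx
    refine ⟨l, fun t ht htc => hl ?_⟩
    rw [← ht]
    exact huni t ((hW2uni w hw x).of_comm hx htc)

/-- the odd case -/
theorem odd_case (hF : IsFormation F) (hf : IsLocallyDefinedBy F f)
    (hher : ∀ (G : Type) [Group G] (H : Subgroup G), F G → F H)
    {s : ℕ} (hs : s.Prime) (hs2 : s ≠ 2) (hfs : IsFormation (f s)) (hf2 : IsFormation (f 2))
    (hX : F X) {H W : Subgroup (SL2 K ≀ᵣ X)}
    (hG : Good F s H W) (T : Set (SL2 K)) (hTc : ∀ u ∈ T, ∀ v ∈ T, u * v = v * u)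
    (hTs : ∀ u ∈ T, u ^ s = 1) (hHT : ∀ g ∈ H, ∀ z, ∀ v ∈ T, g.left z * v * (g.left z)⁻¹ ∈ T)
    (hWT : ∀ w ∈ W, ∀ z, w.left z ∈ T)
    (ζ : X →* Y) (hζ : Function.Surjective ζ) (hY : CF F f 2 Y) : CF F f s Y := by
  have hXf : Finite X := hF.finite X hX
  obtain ⟨w1, hw1, z1, hz1⟩ := hG.exists_ne
  obtain ⟨v0, hv0T, hv01⟩ : ∃ v ∈ T, v ≠ 1 := ⟨_, hWT w1 hw1 z1, hz1⟩
  have hv0s := hTs v0 hv0T
  have hodd : Odd s := hs.odd_of_ne_two hs2
  obtain ⟨ν, hν, hνker, hνfpf⟩ := fixInv_data (K := K) hodd hv0s hv01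
  have h2Λ : IsPGroup 2 (Multiplicative (ZMod 2)) := by
    refine IsPGroup.of_card (n := 1) ?_
    rw [Nat.card_eq_fintype_card]
    rfl
  obtain ⟨l, hl⟩ := exists_ne (1 : Multiplicative (ZMod 2))
  refine apply_main hF hf hher Nat.prime_two hs hf2 hfs (fixInv v0) h2Λ ν hν hνker hX
    hG.cov hG.le hG.nrm hG.isPGroup hG.ne hG.base ?_ ?_ ζ hζ hY
  · intro h hh z
    have h1 := hHT _ hh z v0 hv0T
    rw [mem_fixInv]
    exact sl_eq_or_inv hodd hv0s hv01 (hTc _ h1 _ hv0T) (sl_trace_conj _ _)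
  · intro w hw x hx
    refine ⟨l, fun t ht => ?_⟩
    refine hνfpf t (by rw [ht]; exact hl) _ hx ?_
    exact hTc _ (hWT w hw x) _ hv0T

end

/-- **Key theorem.** -/
theorem key0 (hF : IsFormation F) (hf : IsLocallyDefinedBy F f)
    (hher : ∀ (G : Type) [Group G] (H : Subgroup G), F G → F H)
    (hsol : ∀ (G : Type) [Group G], F G → Group.IsSolvable G)
    {K : Type} [Field K] [CharP K 2] [Finite K] {X Y Z : Type} [Group X] [Group Y] [Group Z]
    (hcov : HasCovering F (Matrix.SpecialLinearGroup (Fin 2) K ≀ᵣ X))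
    {k q : ℕ} (hk : 0 < k) (hK : Nat.card K = 2 ^ k)
    (hq : q.Prime) (hqk : q ∣ 2 ^ k - 1) (hfq : IsFormation (f q))
    (hf2 : IsFormation (f 2)) (hX : F X)
    (ζ : X →* Y) (hζ : Function.Surjective ζ) (hY : CF F f q Y)
    (ξ : X →* Z) (hξ : Function.Surjective ξ) (hZ : CF F f 2 Z) :
    CF F f 2 Y ∨ ∃ s : ℕ, s.Prime ∧ s ∣ 4 ^ k - 1 ∧
      (∃ (G : Type) (_ : Group G), F G ∧ s ∣ Nat.card G) ∧ CF F f s Z := by
  have : Fact (Nat.Prime 2) := ⟨Nat.prime_two⟩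
  have hXf : Finite X := hF.finite X hX
  have hKu : Nat.card Kˣ = 2 ^ k - 1 := by rw [Nat.card_units, hK]
  have hq2 : q ≠ 2 := by
    rintro rfl
    have h1 : 2 ∣ 2 ^ k := dvd_pow_self 2 hk.ne'
    have h2 : 1 ≤ 2 ^ k := Nat.one_le_two_pow
    omega
  have hqK : q ∣ Nat.card Kˣ := by rw [hKu]; exact hqk
  obtain ⟨Λ, _, _, _, μ, hΛ, hμ, hker, huni⟩ := borel_data (K := K) hq hq2 hqK
  obtain ⟨H, hH'⟩ := hcov
  have hH : Cov F H := cov_of_isCovering hF hH'
  have hr : ∀ x : X, ∃ h ∈ H, h.right = x := by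
    intro x
    obtain ⟨h, h1, h2⟩ := hH.top (RegularWreathProduct.rightHom :
        Matrix.SpecialLinearGroup (Fin 2) K ≀ᵣ X →* X)
      (fun x => ⟨RegularWreathProduct.inl x, RegularWreathProduct.fun_id x⟩) hX
      (RegularWreathProduct.inl x)
    exact ⟨h, h1, h2⟩
  obtain ⟨h0, hh0, h01, h02⟩ := exists_base hF hf hher hq hfq (borel K) hΛ μ hμ hX hH
  have hsolH := hsol H hH.1
  let M : Subgroup H := (RegularWreathProduct.rightHom.comp H.subtype).ker
  have hM : M ≠ ⊥ := by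
    intro h
    have h1 : (⟨h0, hh0⟩ : H) ∈ M := h01
    rw [h, Subgroup.mem_bot] at h1
    exact h02 (congrArg Subtype.val h1)
  obtain ⟨s, hs, W', hW'n, hW'M, hW'1, hW'c, hW's⟩ := exists_abelian_normal M hM
  have : Fact s.Prime := ⟨hs⟩
  let W : Subgroup (Matrix.SpecialLinearGroup (Fin 2) K ≀ᵣ X) := W'.map H.subtype
  have hG : Good F s H W := by
    refine ⟨hH, Subgroup.map_subtype_le _, ?_, ?_, ?_, ?_⟩
    · rintro h hh _ ⟨w, hw, rfl⟩
      exact ⟨_, hW'n.conj_mem w hw ⟨h, hh⟩, rfl⟩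
    · rintro _ ⟨w, hw, rfl⟩
      exact hW'M hw
    · rintro _ ⟨a, ha, rfl⟩
      exact congrArg Subtype.val (hW's a ha)
    · intro h
      exact hW'1 ((Subgroup.map_eq_bot_iff_of_injective _ H.subtype_injective).1 h)
  have hWc : ∀ a ∈ W, ∀ b ∈ W, a * b = b * a := by
    rintro _ ⟨a, ha, rfl⟩ _ ⟨b, hb, rfl⟩
    exact congrArg Subtype.val (hW'c a ha b hb)
  have hTc : ∀ u ∈ comps W 1, ∀ v ∈ comps W 1, u * v = v * u := by
    rintro _ ⟨a, ha, rfl⟩ _ ⟨b, hb, rfl⟩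
    have h1 := congrArg
      (fun c : Matrix.SpecialLinearGroup (Fin 2) K ≀ᵣ X => c.left 1) (hWc a ha b hb)
    simpa [hG.base a ha, hG.base b hb] using h1
  have hTs : ∀ u ∈ comps W 1, u ^ s = 1 := by
    rintro _ ⟨a, ha, rfl⟩
    have h1 := (pow_base a (hG.base a ha) s).2
    rw [hG.pow a ha] at h1
    exact (congrFun h1 1).symm
  obtain ⟨m, hm1, hm2, hm3⟩ := exists_conj hr hG.nrm hG.base
  have hG1 := hG.conj hF m hm1
  by_cases hs2 : s = 2
  · left
    subst hs2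
    exact two_case hF hf hher hq hq2 hfq hf2 hqK hX hG1 (comps W 1) hTc hTs hm2 hm3 ζ hζ hY
  · right
    obtain ⟨w1, hw1, z1, hz1⟩ := hG1.exists_ne
    have hord : orderOf (w1.left z1) = s := orderOf_eq_prime (hTs _ (hm3 w1 hw1 z1)) hz1
    have hsd : s ∣ Nat.card (Matrix.SpecialLinearGroup (Fin 2) K) := by
      rw [← hord]; exact orderOf_dvd_natCard _
    have hs4 := (prime_dvd_card_sl hK hs hsd).resolve_left hs2
    obtain ⟨w0, hw0, hw01⟩ := (Subgroup.bot_or_exists_ne_one W).resolve_left hG.ne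
    have hsH : s ∣ Nat.card H := by
      have h1 : orderOf (⟨w0, hG.le hw0⟩ : H) = s := by
        refine orderOf_eq_prime ?_ ?_
        · exact Subtype.ext (hG.pow w0 hw0)
        · intro h
          exact hw01 (congrArg Subtype.val h)
      rw [← h1]; exact orderOf_dvd_natCard _
    have hfs : IsFormation (f s) := form_of_dvd hf hF hher hs hH.1 hsH
    exact ⟨s, hs, hs4, ⟨H, inferInstance, hH.1, hsH⟩,
      odd_case hF hf hher hs hs2 hfs hf2 hX hG1 (comps W 1) hTc hTs hm2 hm3 ξ hξ hZ⟩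

end Pool.Agent.CoveringSubgroups.H9
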