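import Mathlib

/-!
# Representations of small degree of groups without small prime divisors
-/

set_option autoImplicit false

namespace Pool.Agent.CoveringSubgroups.H9

open Module

section groups

/-- a nontrivial finite soluble group has a normal subgroup of prime index -/
lemma exists_normal_prime_index (D : Type) [Group D] [Finite D] [Group.IsSolvable D]
    [Nontrivial D] : ∃ M : Subgroup D, M.Normal ∧ M.index.Prime := by
  obtain ⟨M, hM, hmax⟩ := Set.Finite.exists_maximal
    (s := {M : Subgroup D | M.Normal ∧ M ≠ ⊤}) (Set.toFinite _) ⟨⊥, inferInstance, bot_ne_top⟩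
  have hn : M.Normal := hM.1
  refine ⟨M, hn, ?_⟩
  have hnt : Nontrivial (D ⧸ M) := by
    obtain ⟨x, hx⟩ : ∃ x, x ∉ M := by
      by_contra hcon
      push Not at hcon
      exact hM.2 ((Subgroup.eq_top_iff' M).2 hcon)
    refine ⟨⟨QuotientGroup.mk x, 1, ?_⟩⟩
    intro h
    exact hx ((QuotientGroup.eq_one_iff x).1 h)
  have hsimple : IsSimpleGroup (D ⧸ M) := by
    refine ⟨fun N hN => ?_⟩
    have h1 : (N.comap (QuotientGroup.mk' M)).Normal := hN.comap _
    have h2 : M ≤ N.comap (QuotientGroup.mk' M) := by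
      intro x hx
      show QuotientGroup.mk' M x ∈ N
      have : QuotientGroup.mk' M x = 1 := (QuotientGroup.eq_one_iff x).2 hx
      rw [this]; exact N.one_mem
    by_cases h3 : N.comap (QuotientGroup.mk' M) = ⊤
    · right
      rw [Subgroup.eq_top_iff']
      intro y
      obtain ⟨x, rfl⟩ := QuotientGroup.mk'_surjective M y
      have : x ∈ N.comap (QuotientGroup.mk' M) := by rw [h3]; trivial
      exact this
    · left
      have h4 := hmax ⟨h1, h3⟩ h2
      rw [Subgroup.eq_bot_iff_forall]
      intro y hy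
      obtain ⟨x, rfl⟩ := QuotientGroup.mk'_surjective M y
      exact (QuotientGroup.eq_one_iff x).2 (h4 hy)
  have hcomm : ∀ a b : D ⧸ M, a * b = b * a :=
    IsSimpleGroup.comm_iff_isSolvable.2 inferInstance
  let _ : CommGroup (D ⧸ M) := { (inferInstance : Group (D ⧸ M)) with mul_comm := hcomm }
  have := IsSimpleGroup.prime_card (α := D ⧸ M)
  rwa [Subgroup.index_eq_card]

lemma eq_top_of_index_prime {D : Type} [Group D] {M E : Subgroup D} (hM : M.index.Prime)
    (h : M ≤ E) {g : D} (hg : g ∈ E) (hgM : g ∉ M) : E = ⊤ := by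
  have h1 := Subgroup.relIndex_mul_index h
  rw [← Subgroup.index_eq_one]
  have h2 : E.index ∣ M.index := ⟨_, by rw [mul_comm]; exact h1.symm⟩
  rcases (Nat.dvd_prime hM).1 h2 with h3 | h3
  · exact h3
  · exfalso
    rw [h3] at h1
    have h4 : M.relIndex E = 1 := by
      have := hM.pos
      nlinarith
    rw [Subgroup.relIndex_eq_one] at h4
    exact hgM (h4 hg)

end groups

variable {K : Type} [Field K]

section char

variable {D V : Type} [Group D] [AddCommGroup V] [Module K V]

/-- common eigenvectors -/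
def EigVec (ρ : D →* End K V) (v : V) : Prop := v ≠ 0 ∧ ∀ d, ∃ c : K, ρ d v = c • v

lemma EigVec.exists_char {ρ : D →* End K V} {v : V} (h : EigVec ρ v) :
    ∃ χ : D →* K, ∀ d, ρ d v = χ d • v := by
  choose c hc using h.2
  have hinj : ∀ a b : K, a • v = b • v → a = b := fun a b hab => smul_left_injective K h.1 hab
  refine ⟨{ toFun := c, map_one' := ?_, map_mul' := ?_ }, hc⟩
  · apply hinj
    rw [← hc, map_one, one_smul]; rfl
  · intro a b
    apply hinj
    rw [← hc, map_mul]
    show ρ a (ρ b v) = _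
    rw [hc, map_smul, hc, smul_smul, mul_comm]

lemma indep_of_chars {ι : Type} (ρ : D →* End K V) (χ : ι → D →* K)
    (hχ : Function.Injective χ) (v : ι → V) (hv : ∀ i, v i ≠ 0)
    (h : ∀ i d, ρ d (v i) = χ i d • v i) : LinearIndependent K v := by
  classical
  rw [linearIndependent_iff']
  intro s a ha i hi
  have h1 : LinearIndependent K (fun i => (χ i : D → K)) :=
    (linearIndependent_monoidHom D K).comp χ hχ
  have h2 : ∀ φ : Dual K V, φ (a i • v i) = 0 := by
    intro φ
    have h3 := (linearIndependent_iff'.1 h1) s (fun j => φ (a j • v j)) (by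
      ext d
      rw [Finset.sum_apply]
      have h4 : φ (ρ d (∑ j ∈ s, a j • v j)) = 0 := by rw [ha]; simp
      rw [map_sum, map_sum] at h4
      simp only [Pi.smul_apply, smul_eq_mul, Pi.zero_apply]
      rw [← h4]
      refine Finset.sum_congr rfl fun j _ => ?_
      rw [map_smul, map_smul, h, map_smul, map_smul, smul_eq_mul, smul_eq_mul, smul_eq_mul]
      ring) i hi
    exact h3
  have h3 : a i • v i = 0 := (forall_dual_apply_eq_zero_iff K _).1 h2
  exact (smul_eq_zero.1 h3).resolve_right (hv i)

/-- the eigenspace of a character of a subgroup -/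
def chSpace (ρ : D →* End K V) (M : Subgroup D) (χ : M →* K) : Submodule K V where
  carrier := {v | ∀ m : M, ρ m v = χ m • v}
  zero_mem' := by intro m; simp
  add_mem' := by
    intro a b ha hb m
    rw [map_add, ha, hb, smul_add]
  smul_mem' := by
    intro c a ha m
    rw [map_smul, ha, smul_comm]

lemma mem_chSpace {ρ : D →* End K V} {M : Subgroup D} {χ : M →* K} {v : V} :
    v ∈ chSpace ρ M χ ↔ ∀ m : M, ρ m v = χ m • v := Iff.rfl

/-- the conjugate character -/
def conjChar (M : Subgroup D) [hM : M.Normal] (g : D) (χ : M →* K) : M →* K where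
  toFun m := χ ⟨g⁻¹ * m * g, by simpa using hM.conj_mem m m.2 g⁻¹⟩
  map_one' := by
    have : (⟨g⁻¹ * ((1 : M) : D) * g, by simp⟩ : M) = 1 := by
      ext; simp
    rw [this, map_one]
  map_mul' := by
    intro a b
    rw [← map_mul]
    congr 1
    ext
    simp only [Subgroup.coe_mul]
    group

lemma conjChar_apply (M : Subgroup D) [hM : M.Normal] (g : D) (χ : M →* K) (m : M) :
    conjChar M g χ m = χ ⟨g⁻¹ * m * g, by simpa using hM.conj_mem m m.2 g⁻¹⟩ := rfl

lemma conjChar_mul (M : Subgroup D) [hM : M.Normal] (g h : D) (χ : M →* K) :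
    conjChar M (g * h) χ = conjChar M g (conjChar M h χ) := by
  ext m
  rw [conjChar_apply, conjChar_apply, conjChar_apply]
  congr 1
  ext
  simp only
  group

lemma conjChar_mem (M : Subgroup D) [hM : M.Normal] {g : D} (hg : g ∈ M) (χ : M →* K) :
    conjChar M g χ = χ := by
  ext m
  rw [conjChar_apply]
  have h1 : (⟨g⁻¹ * m * g, by simpa using hM.conj_mem m m.2 g⁻¹⟩ : M) =
    (⟨g, hg⟩ : M)⁻¹ * m * ⟨g, hg⟩ := rfl
  rw [h1, map_mul, map_mul, mul_comm, ← mul_assoc, ← map_mul, mul_inv_cancel, map_one, one_mul]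

lemma map_chSpace {ρ : D →* End K V} {M : Subgroup D} [hM : M.Normal] {χ : M →* K} {v : V}
    (hv : v ∈ chSpace ρ M χ) (g : D) : ρ g v ∈ chSpace ρ M (conjChar M g χ) := by
  intro m
  have h1 := hv ⟨g⁻¹ * m * g, by simpa using hM.conj_mem m m.2 g⁻¹⟩
  have h2 : ρ (m : D) (ρ g v) = ρ g (ρ (g⁻¹ * m * g) v) := by
    rw [← Module.End.mul_apply, ← Module.End.mul_apply, ← map_mul, ← map_mul]
    congr 2
    group
  rw [h2, conjChar_apply]
  have h3 : ρ (g⁻¹ * m * g) v = χ ⟨g⁻¹ * m * g, by simpa using hM.conj_mem m m.2 g⁻¹⟩ • v := h1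
  rw [h3, map_smul]

/-- `ρ g` is injective -/
lemma rho_injective (ρ : D →* End K V) (g : D) : Function.Injective (ρ g) := by
  intro a b hab
  have h1 := congrArg (ρ g⁻¹) hab
  rwa [← Module.End.mul_apply, ← Module.End.mul_apply, ← map_mul, inv_mul_cancel, map_one,
    Module.End.one_apply, Module.End.one_apply] at h1

end char

section eig

/-- an eigenvector of an operator with a scalar power -/
lemma exists_eig_of_pow {W : Type} [AddCommGroup W] [Module K W] [FiniteDimensional K W]
    [Nontrivial W] {p : ℕ} (hp : p.Prime) [CharP K p] [Finite K] {r : ℕ} (hr : r.Prime)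
    (hrp : r = p ∨ r ∣ Nat.card Kˣ) (T : End K W) (e : K) (h : T ^ r = e ^ r • 1) :
    ∃ (μ : K) (w : W), w ≠ 0 ∧ T w = μ • w := by
  have hsp : (Polynomial.X ^ r - Polynomial.C (e ^ r) : Polynomial K).Splits := by
    rcases hrp with rfl | hr'
    · have : Fact r.Prime := ⟨hr⟩
      have h1 : (Polynomial.X ^ r - Polynomial.C (e ^ r) : Polynomial K) =
          (Polynomial.X - Polynomial.C e) ^ r := by
        rw [Polynomial.C_pow]
        exact (sub_pow_char _ _).symm
      rw [h1]
      exact (Polynomial.Splits.X_sub_C e).pow r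
    · have : Fact r.Prime := ⟨hr⟩
      obtain ⟨ζ, hζ⟩ := exists_prime_orderOf_dvd_card' (G := Kˣ) r hr'
      have h1 : IsPrimitiveRoot ζ r := by
        rw [← hζ]; exact IsPrimitiveRoot.orderOf ζ
      exact X_pow_sub_C_splits_of_isPrimitiveRoot (h1.map_of_injective (f := Units.coeHom K)
        Units.val_injective) rfl
  have h2 : minpoly K T ∣ (Polynomial.X ^ r - Polynomial.C (e ^ r) : Polynomial K) := by
    apply minpoly.dvd
    rw [map_sub, map_pow, Polynomial.aeval_X, Polynomial.aeval_C, h, Algebra.algebraMap_eq_smul_one,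
      sub_self]
  have h0 : (Polynomial.X ^ r - Polynomial.C (e ^ r) : Polynomial K) ≠ 0 :=
    Polynomial.X_pow_sub_C_ne_zero hr.pos _
  have h3 : (minpoly K T).Splits := hsp.of_dvd h0 h2
  have h4 : (minpoly K T).degree ≠ 0 := (minpoly.degree_pos (Algebra.IsIntegral.isIntegral T)).ne'
  obtain ⟨μ, hμ⟩ := h3.exists_eval_eq_zero h4
  obtain ⟨w, hw⟩ := (Module.End.hasEigenvalue_of_isRoot hμ).exists_hasEigenvector
  exact ⟨μ, w, hw.2, hw.apply_eq_smul⟩

/-- roots of determinants -/
lemma exists_root_of_pow {W : Type} [AddCommGroup W] [Module K W] [FiniteDimensional K W]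
    {p : ℕ} (hp : p.Prime) [CharP K p] [Finite K] {r : ℕ} (hr : r.Prime)
    (hW : r = p ∨ ¬ r ∣ finrank K W) (T : End K W) (c : K) (hc : c ≠ 0) (h : T ^ r = c • 1) :
    ∃ e : K, c = e ^ r := by
  rcases hW with rfl | hW
  · have : Fact r.Prime := ⟨hr⟩
    have h1 : Function.Surjective (frobenius K r) :=
      Finite.injective_iff_surjective.1 (frobenius_inj K r)
    obtain ⟨e, he⟩ := h1 c
    exact ⟨e, he.symm⟩
  · have h1 : (LinearMap.det T) ^ r = c ^ finrank K W := by
      rw [← map_pow, h, LinearMap.det_smul, map_one, mul_one]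
    have hcop : Nat.Coprime (finrank K W) r :=
      ((Nat.Prime.coprime_iff_not_dvd hr).2 hW).symm
    have hcop' : IsCoprime (finrank K W : ℤ) (r : ℤ) := Nat.isCoprime_iff_coprime.2 hcop
    obtain ⟨a, b, hab⟩ := hcop'
    refine ⟨(LinearMap.det T) ^ a * c ^ b, ?_⟩
    have hd : LinearMap.det T ≠ 0 := by
      intro h0
      rw [h0, zero_pow hr.ne_zero] at h1
      exact pow_ne_zero _ hc h1.symm
    have h2 : c = c ^ (a * (finrank K W : ℤ) + b * (r : ℤ)) := by rw [hab, zpow_one]
    conv_lhs => rw [h2]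
    rw [zpow_add₀ hc, mul_comm a, zpow_mul c (finrank K W : ℤ) a, zpow_natCast, ← h1, mul_pow,
      zpow_mul, zpow_natCast]
    congr 1
    rw [← zpow_natCast, ← zpow_natCast, ← zpow_mul, ← zpow_mul, mul_comm]

end eig

section stab

variable {D V : Type} [Group D] [AddCommGroup V] [Module K V]

lemma conjChar_one (M : Subgroup D) [hM : M.Normal] (χ : M →* K) : conjChar M 1 χ = χ :=
  conjChar_mem M M.one_mem χ

/-- the stabilizer of a character -/
def chStab (M : Subgroup D) [hM : M.Normal] (χ : M →* K) : Subgroup D where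
  carrier := {d | conjChar M d χ = χ}
  one_mem' := conjChar_one M χ
  mul_mem' := by
    intro a b ha hb
    show conjChar M (a * b) χ = χ
    rw [conjChar_mul]
    have ha' : conjChar M a χ = χ := ha
    have hb' : conjChar M b χ = χ := hb
    rw [hb', ha']
  inv_mem' := by
    intro a ha
    have ha' : conjChar M a χ = χ := ha
    show conjChar M a⁻¹ χ = χ
    conv_lhs => rw [← ha']
    rw [← conjChar_mul, inv_mul_cancel, conjChar_one]

lemma mem_chStab {M : Subgroup D} [hM : M.Normal] {χ : M →* K} {d : D} :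
    d ∈ chStab M χ ↔ conjChar M d χ = χ := Iff.rfl

lemma le_chStab (M : Subgroup D) [hM : M.Normal] (χ : M →* K) : M ≤ chStab M χ :=
  fun _ hd => conjChar_mem M hd χ

/-- the conjugates of an eigenvector belonging to different characters are independent -/
lemma indep_conj (ρ : D →* End K V) (M : Subgroup D) [hM : M.Normal] (χ : M →* K) {v : V}
    (hv : v ∈ chSpace ρ M χ) (hv0 : v ≠ 0) {ι : Type} (g : ι → D)
    (hg : ∀ i j, (g i)⁻¹ * g j ∈ chStab M χ → i = j) :
    LinearIndependent K (fun i => ρ (g i) v) := by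
  refine indep_of_chars (ρ.comp M.subtype) (fun i => conjChar M (g i) χ) ?_ _ ?_ ?_
  · intro i j hij
    apply hg
    have h1 : conjChar M (g i) χ = conjChar M (g j) χ := hij
    rw [mem_chStab, conjChar_mul, ← h1, ← conjChar_mul, inv_mul_cancel, conjChar_one]
  · intro i h
    exact hv0 (rho_injective ρ (g i) (by rw [h, map_zero]))
  · intro i d
    exact map_chSpace hv (g i) d

lemma index_stab_le [FiniteDimensional K V] (ρ : D →* End K V) [Finite D] (M : Subgroup D)
    [hM : M.Normal] (χ : M →* K) (hχ : chSpace ρ M χ ≠ ⊥) :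
    (chStab M χ).index ≤ finrank K V := by
  obtain ⟨v, hv, hv0⟩ := Submodule.exists_mem_ne_zero_of_ne_bot hχ
  have h1 := indep_conj ρ M χ hv hv0 (fun c : D ⧸ chStab M χ => Quotient.out c) (by
    intro i j hij
    have h2 : (QuotientGroup.mk (Quotient.out i) : D ⧸ chStab M χ) =
      QuotientGroup.mk (Quotient.out j) := QuotientGroup.eq.2 hij
    simpa using h2)
  have := Fintype.ofFinite (D ⧸ chStab M χ)
  rw [Subgroup.index_eq_card, Nat.card_eq_fintype_card]
  exact h1.fintype_card_le_finrank

lemma index_one_or_ge {D : Type} [Group D] [Finite D] {p : ℕ}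
    (h : ∀ s : ℕ, s.Prime → s ∣ Nat.card D → p ≤ s) (S : Subgroup D) :
    S.index = 1 ∨ p ≤ S.index := by
  by_cases h1 : S.index = 1
  · exact Or.inl h1
  · right
    obtain ⟨s, hs, hd⟩ := Nat.exists_prime_and_dvd h1
    exact (h s hs (hd.trans S.index_dvd_card)).trans
      (Nat.le_of_dvd (Nat.pos_of_ne_zero Subgroup.index_ne_zero_of_finite) hd)

/-- extension of an eigenvector from a normal subgroup of prime index -/
lemma exists_eig_step [FiniteDimensional K V] {p : ℕ} (hp : p.Prime) [CharP K p] [Finite K]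
    (ρ : D →* End K V) (M : Subgroup D) [hM : M.Normal] (hr : M.index.Prime) {g : D} (hg : g ∉ M)
    (χ : M →* K) (hχ : chSpace ρ M χ ≠ ⊥) (hfix : g ∈ chStab M χ)
    (hrp : M.index = p ∨ M.index ∣ Nat.card Kˣ)
    (hdim : M.index = p ∨ (¬ M.index ∣ finrank K (chSpace ρ M χ)) ∨
      ∀ h : g ^ M.index ∈ M, χ ⟨g ^ M.index, h⟩ = 1) :
    ∃ v ∈ chSpace ρ M χ, EigVec ρ v := by
  have hmap : ∀ w ∈ chSpace ρ M χ, ρ g w ∈ chSpace ρ M χ := by
    intro w hw
    have h1 := map_chSpace hw g
    rwa [mem_chStab.1 hfix] at h1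
  have : Nontrivial (chSpace ρ M χ) := (Submodule.nontrivial_iff_ne_bot).2 hχ
  let T : End K (chSpace ρ M χ) := (ρ g).restrict hmap
  have hTpow : ∀ (n : ℕ) (w : chSpace ρ M χ), (((T ^ n) w : chSpace ρ M χ) : V) = ρ (g ^ n) w := by
    intro n
    induction n with
    | zero => intro w; simp
    | succ n ih =>
      intro w
      rw [pow_succ, Module.End.mul_apply, ih, pow_succ, map_mul, Module.End.mul_apply]
      rfl
  have hgr : g ^ M.index ∈ M := M.pow_index_mem g
  have hT : T ^ M.index = χ ⟨g ^ M.index, hgr⟩ • 1 := by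
    ext w
    rw [hTpow]
    exact w.2 ⟨g ^ M.index, hgr⟩
  have hc : χ ⟨g ^ M.index, hgr⟩ ≠ 0 := by
    intro h0
    have h1 : χ (⟨g ^ M.index, hgr⟩ * (⟨g ^ M.index, hgr⟩)⁻¹) = 0 := by rw [map_mul, h0, zero_mul]
    rw [mul_inv_cancel, map_one] at h1
    exact one_ne_zero h1
  obtain ⟨e, he⟩ : ∃ e : K, χ ⟨g ^ M.index, hgr⟩ = e ^ M.index := by
    rcases hdim with h | h | h
    · exact exists_root_of_pow hp hr (Or.inl h) T _ hc hT
    · exact exists_root_of_pow hp hr (Or.inr h) T _ hc hT
    · exact ⟨1, by rw [h hgr, one_pow]⟩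
  rw [he] at hT
  obtain ⟨μ, w, hw0, hw⟩ := exists_eig_of_pow hp hr hrp T e hT
  refine ⟨w, w.2, ?_, ?_⟩
  · intro h
    exact hw0 (Subtype.ext h)
  · let E : Subgroup D :=
      { carrier := {d | ∃ c : K, ρ d (w : V) = c • (w : V)}
        one_mem' := ⟨1, by rw [map_one, one_smul]; rfl⟩
        mul_mem' := by
          rintro a b ⟨c, hc⟩ ⟨c', hc'⟩
          refine ⟨c' * c, ?_⟩
          rw [map_mul, Module.End.mul_apply, hc', map_smul, hc, smul_smul]
        inv_mem' := by
          rintro a ⟨c, hc⟩
          have hc0 : c ≠ 0 := by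
            intro h0
            rw [h0, zero_smul] at hc
            have h1 := rho_injective ρ a (hc.trans (map_zero _).symm)
            exact hw0 (Subtype.ext h1)
          refine ⟨c⁻¹, ?_⟩
          apply rho_injective ρ a
          rw [← Module.End.mul_apply, ← map_mul, mul_inv_cancel, map_one, Module.End.one_apply,
            map_smul, hc, smul_smul, inv_mul_cancel₀ hc0, one_smul] }
    have hME : M ≤ E := fun m hm => ⟨_, w.2 ⟨m, hm⟩⟩
    have hgE : g ∈ E := ⟨μ, congrArg Subtype.val hw⟩
    have hE := eq_top_of_index_prime hr hME hgE hg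
    intro d
    have : d ∈ E := by rw [hE]; trivial
    exact this

end stab

/-- the conditions on the prime divisors of the order of a group -/
structure PrimeCond (p : ℕ) (K : Type) [Field K] (D : Type) [Group D] : Prop where
  ge : ∀ s : ℕ, s.Prime → s ∣ Nat.card D → p ≤ s
  dvd : ∀ s : ℕ, s.Prime → s ∣ Nat.card D → s = p ∨ s ∣ Nat.card Kˣ

lemma PrimeCond.subgroup {p : ℕ} {D : Type} [Group D] (h : PrimeCond p K D) (M : Subgroup D) :
    PrimeCond p K M :=
  ⟨fun s hs hd => h.ge s hs (hd.trans M.card_subgroup_dvd_card),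
    fun s hs hd => h.dvd s hs (hd.trans M.card_subgroup_dvd_card)⟩

/-- common eigenvectors in degree less than `p` -/
theorem exists_eig_small {p : ℕ} (hp : p.Prime) [CharP K p] [Finite K] :
    ∀ (n : ℕ) (D : Type) [Group D] [Finite D] [Group.IsSolvable D], Nat.card D ≤ n →
      PrimeCond p K D → ∀ (V : Type) [AddCommGroup V] [Module K V] [FiniteDimensional K V],
        0 < finrank K V → finrank K V < p → ∀ ρ : D →* End K V, ∃ v, EigVec ρ v := by
  intro n
  induction n with
  | zero =>
    intro D _ _ _ hD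
    have := Nat.card_pos (α := D)
    omega
  | succ n ih =>
    intro D _ _ _ hD hc V _ _ _ hV1 hV2 ρ
    have hVn : Nontrivial V := Module.nontrivial_of_finrank_pos hV1
    by_cases hDn : Nontrivial D
    · obtain ⟨M, hM, hr⟩ := exists_normal_prime_index D
      have hcard : Nat.card M * M.index = Nat.card D := M.card_mul_index
      have hM2 : Nat.card M ≤ n := by
        have h1 := hr.two_le
        have h2 := Nat.card_pos (α := M)
        nlinarith
      obtain ⟨v, hv⟩ := ih M hM2 (hc.subgroup M) V hV1 hV2 (ρ.comp M.subtype)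
      obtain ⟨χ, hχ⟩ := hv.exists_char
      have hvχ : v ∈ chSpace ρ M χ := hχ
      have hne : chSpace ρ M χ ≠ ⊥ := by
        intro h
        rw [h, Submodule.mem_bot] at hvχ
        exact hv.1 hvχ
      have h1 := index_stab_le ρ M χ hne
      have h2 : (chStab M χ).index = 1 := (index_one_or_ge hc.ge _).resolve_right (by omega)
      obtain ⟨g, hg⟩ : ∃ g, g ∉ M := by
        by_contra hcon
        push Not at hcon
        have h3 : M = ⊤ := (Subgroup.eq_top_iff' M).2 hcon
        rw [h3, Subgroup.index_top] at hr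
        exact Nat.not_prime_one hr
      have h3 : M.index ∣ Nat.card D := M.index_dvd_card
      have h4 : 0 < finrank K (chSpace ρ M χ) := by
        have : Nontrivial (chSpace ρ M χ) := (Submodule.nontrivial_iff_ne_bot).2 hne
        exact Module.finrank_pos
      have h5 : finrank K (chSpace ρ M χ) ≤ finrank K V := Submodule.finrank_le _
      obtain ⟨w, -, hw⟩ := exists_eig_step hp ρ M hr hg χ hne (by
        rw [Subgroup.index_eq_one.1 h2]; trivial) (hc.dvd _ hr h3) (Or.inr (Or.inl (by
          intro h6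
          have h7 := Nat.le_of_dvd h4 h6
          have h8 := hc.ge _ hr h3
          omega)))
      exact ⟨w, hw⟩
    · obtain ⟨v, hv⟩ := exists_ne (0 : V)
      refine ⟨v, hv, fun d => ⟨1, ?_⟩⟩
      have : Subsingleton D := not_nontrivial_iff_subsingleton.1 hDn
      rw [Subsingleton.elim d 1, map_one, one_smul]; rfl

/-- common eigenvectors of elementary abelian groups -/
theorem exists_eig_elem {p : ℕ} (hp : p.Prime) [CharP K p] [Finite K] {s : ℕ} (hs : s.Prime)
    (hsp : s = p ∨ s ∣ Nat.card Kˣ) :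
    ∀ (n : ℕ) (D : Type) [Group D] [Finite D], Nat.card D ≤ n → (∀ a b : D, a * b = b * a) →
      (∀ a : D, a ^ s = 1) → ∀ (V : Type) [AddCommGroup V] [Module K V] [FiniteDimensional K V]
      [Nontrivial V], ∀ ρ : D →* End K V, ∃ v, EigVec ρ v := by
  intro n
  induction n with
  | zero =>
    intro D _ _ hD
    have := Nat.card_pos (α := D)
    omega
  | succ n ih =>
    intro D _ _ hD hcomm hexp V _ _ _ _ ρ
    by_cases hDn : Nontrivial D
    · have hDs : Group.IsSolvable D := Group.isSolvable_of_comm hcomm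
      obtain ⟨M, hM, hr⟩ := exists_normal_prime_index D
      have hcard : Nat.card M * M.index = Nat.card D := M.card_mul_index
      have hM2 : Nat.card M ≤ n := by
        have h1 := hr.two_le
        have h2 := Nat.card_pos (α := M)
        nlinarith
      obtain ⟨v, hv⟩ := ih M hM2 (fun a b => Subtype.ext (hcomm a b))
        (fun a => Subtype.ext (hexp a)) V (ρ.comp M.subtype)
      obtain ⟨χ, hχ⟩ := hv.exists_char
      have hvχ : v ∈ chSpace ρ M χ := hχ
      have hne : chSpace ρ M χ ≠ ⊥ := by
        intro h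
        rw [h, Submodule.mem_bot] at hvχ
        exact hv.1 hvχ
      obtain ⟨g, hg⟩ : ∃ g, g ∉ M := by
        by_contra hcon
        push Not at hcon
        have h3 : M = ⊤ := (Subgroup.eq_top_iff' M).2 hcon
        rw [h3, Subgroup.index_top] at hr
        exact Nat.not_prime_one hr
      have hidx : M.index = s := by
        have h1 : g ^ M.index ∈ M := M.pow_index_mem g
        have h2 : g ^ s = 1 := hexp g
        by_contra hne'
        have hcop : Nat.Coprime M.index s := (Nat.coprime_primes hr hs).2 hne'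
        obtain ⟨a, b, hab⟩ := Nat.isCoprime_iff_coprime.2 hcop
        apply hg
        have h3 : g = (g ^ M.index) ^ a * (g ^ s) ^ b := by
          rw [← zpow_natCast, ← zpow_natCast, ← zpow_mul, ← zpow_mul, ← zpow_add, mul_comm _ a,
            mul_comm _ b, hab, zpow_one]
        rw [h3, h2, one_zpow, mul_one]
        exact M.zpow_mem h1 a
      obtain ⟨w, -, hw⟩ := exists_eig_step hp ρ M hr hg χ hne (by
        rw [mem_chStab]
        ext m
        rw [conjChar_apply]
        congr 1
        ext
        show g⁻¹ * (m : D) * g = m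
        rw [hcomm g⁻¹, mul_assoc, inv_mul_cancel, mul_one]) (by rw [hidx]; exact hsp)
        (Or.inr (Or.inr (by
          intro h
          have : (⟨g ^ M.index, h⟩ : M) = 1 := by
            ext
            show g ^ M.index = 1
            rw [hidx, hexp]
          rw [this, map_one])))
      exact ⟨w, hw⟩
    · obtain ⟨v, hv⟩ := exists_ne (0 : V)
      refine ⟨v, hv, fun d => ⟨1, ?_⟩⟩
      have : Subsingleton D := not_nontrivial_iff_subsingleton.1 hDn
      rw [Subsingleton.elim d 1, map_one, one_smul]; rfl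

end Pool.Agent.CoveringSubgroups.H9
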