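import Pool.Agent.Lib.MP_7252b7_al_h9.Rep
import Pool.Agent.Lib.MP_7252b7_al_h9.Main

/-!
# Bases adapted to representations of degree at most `p`
-/

set_option autoImplicit false

namespace Pool.Agent.CoveringSubgroups.H9

open Module

variable {K : Type} [Field K]

section dual

variable {D V : Type} [Group D] [AddCommGroup V] [Module K V]

/-- the dual representation -/
def dualRep (ρ : D →* End K V) : D →* End K (Dual K V) where
  toFun d := (ρ d⁻¹).dualMap
  map_one' := by
    ext φ v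
    simp [LinearMap.dualMap_apply]
  map_mul' := by
    intro a b
    ext φ v
    rw [mul_inv_rev, map_mul]
    rfl

lemma dualRep_apply (ρ : D →* End K V) (d : D) (φ : Dual K V) (v : V) :
    dualRep ρ d φ v = φ (ρ d⁻¹ v) := rfl

/-- a subrepresentation -/
def subRep (ρ : D →* End K V) (W : Submodule K V) (hW : ∀ d, ∀ w ∈ W, ρ d w ∈ W) :
    D →* End K W where
  toFun d := (ρ d).restrict (hW d)
  map_one' := by
    ext w
    simp [LinearMap.restrict_apply]
  map_mul' := by
    intro a b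
    ext w
    simp [LinearMap.restrict_apply]

lemma subRep_apply (ρ : D →* End K V) (W : Submodule K V) (hW : ∀ d, ∀ w ∈ W, ρ d w ∈ W)
    (d : D) (w : W) : ((subRep ρ W hW d w : W) : V) = ρ d w := rfl

/-- common eigenvectors of the dual representation -/
def HypVec (ρ : D →* End K V) (φ : Dual K V) : Prop :=
  φ ≠ 0 ∧ ∀ d, ∃ c : K, ∀ v, φ (ρ d v) = c * φ v

lemma hypVec_of_eigVec {ρ : D →* End K V} {φ : Dual K V} (h : EigVec (dualRep ρ) φ) :
    HypVec ρ φ := by
  refine ⟨h.1, fun d => ?_⟩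
  obtain ⟨c, hc⟩ := h.2 d⁻¹
  refine ⟨c, fun v => ?_⟩
  have h1 := congrArg (fun ψ : Dual K V => ψ v) hc
  rw [dualRep_apply, inv_inv] at h1
  exact h1

/-- an eigenvector complementary to an invariant hyperplane -/
lemma HypVec.exists_eigVec [Finite D] {ρ : D →* End K V} {φ : Dual K V} (h : HypVec ρ φ)
    (hD : (Nat.card D : K) ≠ 0) : ∃ v, EigVec ρ v ∧ φ v ≠ 0 := by
  classical
  have := Fintype.ofFinite D
  obtain ⟨v0, hv0⟩ : ∃ v, φ v ≠ 0 := by
    by_contra hcon
    push Not at hcon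
    exact h.1 (LinearMap.ext hcon)
  choose c hc using h.2
  have hinj : ∀ a b : K, a * φ v0 = b * φ v0 → a = b := fun a b hab => mul_right_cancel₀ hv0 hab
  have hmul : ∀ a b, c (a * b) = c a * c b := by
    intro a b
    apply hinj
    rw [← hc, map_mul]
    show φ (ρ a (ρ b v0)) = _
    rw [hc, hc, mul_assoc]
  have hone : c 1 = 1 := by
    apply hinj
    rw [← hc, map_one, one_mul]; rfl
  have hinv : ∀ a, c a⁻¹ * c a = 1 := by
    intro a
    rw [← hmul, inv_mul_cancel, hone]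
  let v : V := ∑ d : D, c d⁻¹ • ρ d v0
  have hv : φ v = (Nat.card D : K) * φ v0 := by
    show φ (∑ d : D, c d⁻¹ • ρ d v0) = _
    rw [map_sum]
    have h1 : ∀ d ∈ (Finset.univ : Finset D), φ (c d⁻¹ • ρ d v0) = φ v0 := by
      intro d _
      rw [map_smul, hc, smul_eq_mul, ← mul_assoc, hinv, one_mul]
    rw [Finset.sum_congr rfl h1, Finset.sum_const, Finset.card_univ, Nat.card_eq_fintype_card,
      nsmul_eq_mul]
  have hφv : φ v ≠ 0 := by
    rw [hv]; exact mul_ne_zero hD hv0
  refine ⟨v, ⟨?_, fun d => ⟨c d, ?_⟩⟩, hφv⟩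
  · intro h0
    rw [h0, map_zero] at hφv
    exact hφv rfl
  · show ρ d (∑ x : D, c x⁻¹ • ρ x v0) = c d • ∑ x : D, c x⁻¹ • ρ x v0
    rw [map_sum, Finset.smul_sum]
    refine Fintype.sum_equiv (Equiv.mulLeft d) _ _ fun x => ?_
    rw [map_smul, Equiv.coe_mulLeft, smul_smul, map_mul, Module.End.mul_apply]
    congr 1
    rw [mul_inv_rev, hmul, mul_comm, mul_assoc, hinv, mul_one]

/-- triangular bases -/
def TriBasis {n : ℕ} (ρ : D →* End K V) (b : Basis (Fin n) K V) : Prop :=
  ∀ d j, ρ d (b j) ∈ Submodule.span K (b '' {i | j ≤ i})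

/-- diagonal bases -/
def DiagBasis {n : ℕ} (ρ : D →* End K V) (b : Basis (Fin n) K V) : Prop :=
  ∀ d j, ∃ c : K, ρ d (b j) = c • b j

lemma exists_basis_step {n : ℕ} [Finite D] {ρ : D →* End K V} {φ : Dual K V} (h : HypVec ρ φ)
    (hker : ∀ d, ∀ w ∈ LinearMap.ker φ, ρ d w ∈ LinearMap.ker φ)
    (b : Basis (Fin n) K (LinearMap.ker φ))
    (hb : TriBasis (subRep ρ _ hker) b)
    (hb' : (Nat.card D : K) ≠ 0 → DiagBasis (subRep ρ _ hker) b) :
    ∃ b : Basis (Fin (n + 1)) K V, TriBasis ρ b ∧ ((Nat.card D : K) ≠ 0 → DiagBasis ρ b) := by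
  obtain ⟨y, hy, hy'⟩ : ∃ y : V, φ y ≠ 0 ∧ ((Nat.card D : K) ≠ 0 → EigVec ρ y) := by
    by_cases hD : (Nat.card D : K) ≠ 0
    · obtain ⟨v, hv, hv'⟩ := h.exists_eigVec hD
      exact ⟨v, hv', fun _ => hv⟩
    · obtain ⟨v, hv⟩ : ∃ v, φ v ≠ 0 := by
        by_contra hcon
        push Not at hcon
        exact h.1 (LinearMap.ext hcon)
      exact ⟨v, hv, fun h => absurd h hD⟩
  have hli : ∀ (c : K), ∀ x ∈ LinearMap.ker φ, c • y + x = 0 → c = 0 := by
    intro c x hx hc
    have h1 := congrArg φ hc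
    rw [map_add, map_smul, LinearMap.mem_ker.1 hx, add_zero, map_zero, smul_eq_mul] at h1
    exact (mul_eq_zero.1 h1).resolve_right hy
  have hsp : ∀ z : V, ∃ c : K, z + c • y ∈ LinearMap.ker φ := by
    intro z
    refine ⟨-(φ z) / φ y, ?_⟩
    rw [LinearMap.mem_ker, map_add, map_smul, smul_eq_mul, div_mul_cancel₀ _ hy, add_neg_cancel]
  let B := Basis.mkFinCons y b hli hsp
  have hB : (B : Fin (n + 1) → V) = Fin.cons y ((↑) ∘ b) := Basis.coe_mkFinCons y b hli hsp
  have hB0 : B 0 = y := by rw [hB, Fin.cons_zero]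
  have hBs : ∀ j : Fin n, B j.succ = (b j : V) := by
    intro j
    rw [hB, Fin.cons_succ]; rfl
  refine ⟨B, ?_, ?_⟩
  · intro d j
    refine Fin.cases ?_ (fun j => ?_) j
    · have h1 : (B '' {i | 0 ≤ i}) = Set.range B := by
        ext x
        simp
      rw [h1, B.span_eq]
      trivial
    · rw [hBs]
      have h1 := hb d j
      have h2 : (LinearMap.ker φ).subtype (subRep ρ _ hker d (b j)) ∈
          (Submodule.span K (b '' {i | j ≤ i})).map (LinearMap.ker φ).subtype :=
        Submodule.mem_map_of_mem h1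
      rw [Submodule.map_span] at h2
      refine Submodule.span_mono ?_ h2
      rintro _ ⟨_, ⟨i, hi, rfl⟩, rfl⟩
      exact ⟨i.succ, Fin.succ_le_succ_iff.2 hi, hBs i⟩
  · intro hD d j
    refine Fin.cases ?_ (fun j => ?_) j
    · rw [hB0]
      exact (hy' hD).2 d
    · obtain ⟨c, hc⟩ := hb' hD d j
      refine ⟨c, ?_⟩
      rw [hBs]
      exact congrArg Subtype.val hc

end dual

section bases

variable {p : ℕ}

lemma ker_inv {D V : Type} [Group D] [AddCommGroup V] [Module K V] {ρ : D →* End K V}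
    {φ : Dual K V} (h : HypVec ρ φ) : ∀ d, ∀ w ∈ LinearMap.ker φ, ρ d w ∈ LinearMap.ker φ := by
  intro d w hw
  obtain ⟨c, hc⟩ := h.2 d
  rw [LinearMap.mem_ker, hc, LinearMap.mem_ker.1 hw, mul_zero]

lemma finrank_ker_hyp {V : Type} [AddCommGroup V] [Module K V] [FiniteDimensional K V]
    {φ : Dual K V} (h : φ ≠ 0) {n : ℕ} (hn : finrank K V = n + 1) :
    finrank K (LinearMap.ker φ) = n := by
  have h1 := LinearMap.finrank_range_add_finrank_ker φ
  have h2 : LinearMap.range φ = ⊤ := by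
    rw [LinearMap.range_eq_top]
    exact LinearMap.surjective h
  rw [h2, finrank_top, Module.finrank_self, hn] at h1
  omega

/-- adapted bases in degree less than `p` -/
theorem exists_basis_small (hp : p.Prime) [CharP K p] [Finite K] (D : Type) [Group D] [Finite D]
    [Group.IsSolvable D] (hc : PrimeCond p K D) :
    ∀ (n : ℕ) (V : Type) [AddCommGroup V] [Module K V] [FiniteDimensional K V],
        finrank K V = n → n < p → ∀ ρ : D →* End K V,
        ∃ b : Basis (Fin n) K V, TriBasis ρ b ∧ ((Nat.card D : K) ≠ 0 → DiagBasis ρ b) := by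
  intro n
  induction n with
  | zero =>
    intro V _ _ _ hV _ ρ
    exact ⟨finBasisOfFinrankEq K V hV, fun d j => j.elim0, fun _ d j => j.elim0⟩
  | succ n ih =>
    intro V _ _ _ hV hn ρ
    have h1 : finrank K (Dual K V) = n + 1 := by rw [Subspace.dual_finrank_eq, hV]
    obtain ⟨φ, hφ⟩ := exists_eig_small hp _ D le_rfl hc (Dual K V) (by omega) (by omega) (dualRep ρ)
    have hφ' := hypVec_of_eigVec hφ
    obtain ⟨b, hb, hb'⟩ := ih (LinearMap.ker φ) (finrank_ker_hyp hφ'.1 hV) (by omega)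
      (subRep ρ _ (ker_inv hφ'))
    exact exists_basis_step hφ' (ker_inv hφ') b hb hb'

/-- adapted bases in degree `p` -/
theorem exists_basis_p (hp : p.Prime) [CharP K p] [Finite K] (D : Type) [Group D] [Finite D]
    [Group.IsSolvable D] (hc : PrimeCond p K D) (V : Type) [AddCommGroup V] [Module K V]
    [FiniteDimensional K V] (hV : finrank K V = p) (ρ : D →* End K V) :
    (∀ W : Submodule K V, (∀ d, ∀ w ∈ W, ρ d w ∈ W) → W = ⊥ ∨ W = ⊤) ∨
    ∃ b : Basis (Fin p) K V, TriBasis ρ b ∧ ((Nat.card D : K) ≠ 0 → DiagBasis ρ b) := by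
  by_cases h : ∀ W : Submodule K V, (∀ d, ∀ w ∈ W, ρ d w ∈ W) → W = ⊥ ∨ W = ⊤
  · exact Or.inl h
  · right
    push Not at h
    obtain ⟨W, hW, hW1, hW2⟩ := h
    have hA : ∀ d, ∀ w ∈ W.dualAnnihilator, dualRep ρ d w ∈ W.dualAnnihilator := by
      intro d w hw
      rw [Submodule.mem_dualAnnihilator] at hw ⊢
      intro x hx
      rw [dualRep_apply]
      exact hw _ (hW _ x hx)
    have h1 := Subspace.finrank_add_finrank_dualAnnihilator_eq W
    have h2 : 0 < finrank K W := by
      have : Nontrivial W := (Submodule.nontrivial_iff_ne_bot).2 hW1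
      exact Module.finrank_pos
    have h3 : finrank K W < finrank K V := Submodule.finrank_lt hW2
    obtain ⟨ψ, hψ⟩ := exists_eig_small hp _ D le_rfl hc W.dualAnnihilator (by omega) (by omega)
      (subRep (dualRep ρ) _ hA)
    have hφ : EigVec (dualRep ρ) (ψ : Dual K V) := by
      refine ⟨fun h0 => hψ.1 (Subtype.ext h0), fun d => ?_⟩
      obtain ⟨c, hc⟩ := hψ.2 d
      exact ⟨c, congrArg Subtype.val hc⟩
    have hφ' := hypVec_of_eigVec hφ
    obtain ⟨n, hn⟩ : ∃ n, p = n + 1 := ⟨p - 1, by have := hp.pos; omega⟩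
    obtain ⟨b, hb, hb'⟩ := exists_basis_small hp D hc n (LinearMap.ker (ψ : Dual K V))
      (finrank_ker_hyp hφ'.1 (by omega)) (by omega) (subRep ρ _ (ker_inv hφ'))
    have h4 := exists_basis_step hφ' (ker_inv hφ') b hb hb'
    rw [← hn] at h4
    exact h4

end bases

end Pool.Agent.CoveringSubgroups.H9
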