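import Pool.Agent.Lib.MP_7252b7_al_h9.Rep2

/-!
# Irreducible representations of degree `p`
-/

set_option autoImplicit false

namespace Pool.Agent.CoveringSubgroups.H9

open Module

variable {K : Type} [Field K]

/-- powers of an element outside a normal subgroup of prime index -/
lemma pow_mem_of_index {D : Type} [Group D] {S : Subgroup D} [S.Normal] {p : ℕ} (hp : p.Prime)
    (hS : S.index = p) {g : D} (hg : g ∉ S) {n : ℤ} (hn : g ^ n ∈ S) : (p : ℤ) ∣ n := by
  by_contra hcon
  apply hg
  have h1 : g ^ p ∈ S := by rw [← hS]; exact S.pow_index_mem g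
  have h2 : IsCoprime (p : ℤ) n := (Nat.prime_iff_prime_int.1 hp).coprime_iff_not_dvd.2 hcon
  obtain ⟨a, b, hab⟩ := h2
  have h3 : g = (g ^ p) ^ a * (g ^ n) ^ b := by
    rw [← zpow_natCast, ← zpow_mul, ← zpow_mul, ← zpow_add, mul_comm _ a, mul_comm _ b, hab,
      zpow_one]
  rw [h3]
  exact S.mul_mem (S.zpow_mem h1 a) (S.zpow_mem hn b)

/-- monomial bases, permuted cyclically -/
def CycBasis {p : ℕ} [NeZero p] {D V : Type} [Group D] [AddCommGroup V] [Module K V]
    (ρ : D →* End K V) (b : Basis (Fin p) K V) : Prop :=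
  ∀ d, ∃ c : Fin p, ∀ i, ∃ t : K, ρ d (b i) = t • b (i + c)

/-- the irreducible case -/
theorem exists_basis_irr {p : ℕ} [NeZero p] (hp : p.Prime) [CharP K p] [Finite K] (D : Type)
    [Group D] [Finite D] [Group.IsSolvable D] (hc : PrimeCond p K D) (V : Type) [AddCommGroup V]
    [Module K V] [FiniteDimensional K V] (hV : finrank K V = p) (ρ : D →* End K V)
    (hinj : Function.Injective ρ) (hdet : ∀ d, LinearMap.det (ρ d) = 1)
    (hirr : ∀ W : Submodule K V, (∀ d, ∀ w ∈ W, ρ d w ∈ W) → W = ⊥ ∨ W = ⊤) :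
    (∃ b : Basis (Fin p) K V, CycBasis ρ b) ∧ ∃ s : ℕ, s.Prime ∧ s ≠ p ∧ s ∣ Nat.card D := by
  classical
  have : Fact p.Prime := ⟨hp⟩
  have hVn : Nontrivial V := Module.nontrivial_of_finrank_pos (by rw [hV]; exact hp.pos)
  -- `D` is nontrivial
  have hDn : Nontrivial D := by
    by_contra h
    have hs : Subsingleton D := not_nontrivial_iff_subsingleton.1 h
    obtain ⟨v, hv⟩ := exists_ne (0 : V)
    rcases hirr (Submodule.span K {v}) (by
      intro d w hw
      rw [Subsingleton.elim d 1, map_one]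
      exact hw) with h1 | h1
    · rw [Submodule.span_singleton_eq_bot] at h1
      exact hv h1
    · have h2 := finrank_span_singleton (K := K) hv
      rw [h1, finrank_top, hV] at h2
      exact hp.ne_one h2
  obtain ⟨s, hs, A, hAn, -, hA1, hAc, hAs⟩ := exists_abelian_normal (⊤ : Subgroup D)
    (bot_ne_top).symm
  obtain ⟨a0, ha0, ha01⟩ := (Subgroup.bot_or_exists_ne_one A).resolve_left hA1
  have hfs : Fact s.Prime := ⟨hs⟩
  have hsD : s ∣ Nat.card D := by
    rw [← orderOf_eq_prime (hAs a0 ha0) ha01]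
    exact orderOf_dvd_natCard _
  obtain ⟨v, hv⟩ := exists_eig_elem hp hs (hc.dvd s hs hsD) _ A le_rfl
    (fun a b => Subtype.ext (hAc a a.2 b b.2)) (fun a => Subtype.ext (hAs a a.2)) V
    (ρ.comp A.subtype)
  obtain ⟨χ, hχ⟩ := hv.exists_char
  have hvχ : v ∈ chSpace ρ A χ := hχ
  have hne : chSpace ρ A χ ≠ ⊥ := by
    intro h
    rw [h, Submodule.mem_bot] at hvχ
    exact hv.1 hvχ
  have hle := index_stab_le ρ A χ hne
  rw [hV] at hle
  -- the stabilizer of `χ` is not everything
  have hSt1 : (chStab A χ).index ≠ 1 := by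
    intro h1
    have h2 : chStab A χ = ⊤ := Subgroup.index_eq_one.1 h1
    have h3 := (hirr (chSpace ρ A χ) (by
      intro d w hw
      have h4 := map_chSpace hw d
      have h5 : d ∈ chStab A χ := by rw [h2]; trivial
      rwa [mem_chStab.1 h5] at h4)).resolve_left hne
    apply ha01
    apply hinj
    rw [map_one]
    have h6 : ρ a0 = χ ⟨a0, ha0⟩ • 1 := by
      ext w
      have h7 : w ∈ chSpace ρ A χ := by rw [h3]; trivial
      exact h7 ⟨a0, ha0⟩
    have h8 := hdet a0
    rw [h6, LinearMap.det_smul, map_one, mul_one, hV] at h8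
    have h9 : χ ⟨a0, ha0⟩ = 1 := by
      have h10 : frobenius K p (χ ⟨a0, ha0⟩) = frobenius K p 1 := by
        rw [frobenius_def, map_one, h8]
      exact frobenius_inj K p h10
    rw [h6, h9, one_smul]
  have hStp : (chStab A χ).index = p := by
    have := (index_one_or_ge hc.ge (chStab A χ)).resolve_left hSt1
    omega
  have hsp : s ≠ p := by
    intro h
    apply hSt1
    rw [Subgroup.index_eq_one, Subgroup.eq_top_iff']
    intro d
    have h1 : ∀ a : A, χ a = 1 := by
      intro a
      have h2 : (a : A) ^ s = 1 := Subtype.ext (hAs a a.2)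
      have h3 : χ a ^ p = 1 := by rw [← h, ← map_pow, h2, map_one]
      have h10 : frobenius K p (χ a) = frobenius K p 1 := by
        rw [frobenius_def, map_one, h3]
      exact frobenius_inj K p h10
    rw [mem_chStab]
    ext a
    rw [conjChar_apply, h1, h1]
  refine ⟨?_, s, hs, hsp, hsD⟩
  set S := chStab A χ with hS
  have hminFac : (Nat.card D).minFac = p := by
    have h1 : p ∣ Nat.card D := by rw [← hStp]; exact S.index_dvd_card
    have h2 : Nat.card D ≠ 1 := by
      intro h
      rw [h, Nat.dvd_one] at h1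
      exact hp.ne_one h1
    exact le_antisymm (Nat.minFac_le_of_dvd hp.two_le h1)
      (hc.ge _ (Nat.minFac_prime h2) (Nat.minFac_dvd _))
  have hSn : S.Normal := Subgroup.normal_of_index_eq_minFac_card (by rw [hStp, hminFac])
  obtain ⟨g, hg⟩ : ∃ g, g ∉ S := by
    by_contra hcon
    push Not at hcon
    exact hSt1 (Subgroup.index_eq_one.2 ((Subgroup.eq_top_iff' S).2 hcon))
  have hginj : ∀ i j : Fin p, (g ^ (i : ℕ))⁻¹ * g ^ (j : ℕ) ∈ S → i = j := by
    intro i j hij
    have h1 : (g ^ (i : ℕ))⁻¹ * g ^ (j : ℕ) = g ^ ((j : ℤ) - (i : ℤ)) := by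
      rw [zpow_sub, zpow_natCast, zpow_natCast, ((Commute.refl g).pow_pow _ _).inv_left.eq]
    rw [h1] at hij
    have h2 := pow_mem_of_index hp hStp hg hij
    have h3 : ((j : ℕ) : ℤ) - ((i : ℕ) : ℤ) = 0 := by
      apply Int.eq_zero_of_abs_lt_dvd h2
      have := i.2
      have := j.2
      rw [abs_lt]
      constructor <;> omega
    apply Fin.ext
    omega
  have hindep := indep_conj ρ A χ hvχ hv.1 (fun i : Fin p => g ^ (i : ℕ)) hginj
  let b : Basis (Fin p) K V := basisOfLinearIndependentOfCardEqFinrank hindep (by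
    rw [Fintype.card_fin, hV])
  have hb : ∀ i, b i = ρ (g ^ (i : ℕ)) v := by
    intro i
    exact congrFun (coe_basisOfLinearIndependentOfCardEqFinrank hindep _) i
  have hb0 : b 0 = v := by rw [hb, Fin.val_zero, pow_zero, map_one]; rfl
  -- the eigenspace is one-dimensional
  have hone : ∀ w ∈ chSpace ρ A χ, ∃ t : K, w = t • v := by
    intro w hw
    refine ⟨b.repr w 0, ?_⟩
    have h1 : ∀ i : Fin p, i ≠ 0 → b.repr w i = 0 := by
      intro i hi
      by_contra hcon
      have h2 : conjChar A (g ^ (i : ℕ)) χ = χ := by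
        ext a
        have h3 : ∀ x : V, b.repr (ρ a x) i = conjChar A (g ^ (i : ℕ)) χ a * b.repr x i := by
          intro x
          have h4 : (b.coord i).comp (ρ (a : D)) =
              conjChar A (g ^ (i : ℕ)) χ a • b.coord i := by
            apply b.ext
            intro j
            have h5 : ρ (a : D) (b j) = conjChar A (g ^ (j : ℕ)) χ a • b j := by
              rw [hb]
              exact map_chSpace hvχ (g ^ (j : ℕ)) a
            rw [LinearMap.comp_apply, h5, map_smul, LinearMap.smul_apply, Basis.coord_apply,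
              Basis.repr_self, smul_eq_mul, smul_eq_mul]
            by_cases hij : j = i
            · rw [hij]
            · rw [Finsupp.single_apply, if_neg hij, mul_zero, mul_zero]
          exact congrArg (fun φ : Dual K V => φ x) h4
        have h6 := h3 w
        rw [hw a, map_smul, Finsupp.smul_apply, smul_eq_mul] at h6
        exact (mul_right_cancel₀ hcon h6).symm
      apply hi
      apply (hginj 0 i ?_).symm
      rw [Fin.val_zero, pow_zero, inv_one, one_mul]
      exact h2
    conv_lhs => rw [← b.sum_repr w]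
    rw [Finset.sum_eq_single (0 : Fin p)]
    · rw [hb0]
    · intro i _ hi
      rw [h1 i hi, zero_smul]
    · intro h
      exact absurd (Finset.mem_univ _) h
  -- powers of `g`
  have hSv : ∀ t ∈ S, ∃ c : K, ρ t v = c • v := by
    intro t ht
    apply hone
    have h1 := map_chSpace hvχ t
    rwa [mem_chStab.1 ht] at h1
  have hpow : ∀ n : ℕ, ∃ c : K, ρ (g ^ n) v = c • ρ (g ^ (n % p)) v := by
    intro n
    have h1 : g ^ n = g ^ (n % p) * (g ^ p) ^ (n / p) := by
      rw [← pow_mul, ← pow_add, Nat.mod_add_div]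
    have h2 : (g ^ p) ^ (n / p) ∈ S := by
      apply S.pow_mem
      rw [← hStp]
      exact S.pow_index_mem g
    obtain ⟨c, hc'⟩ := hSv _ h2
    refine ⟨c, ?_⟩
    rw [h1, map_mul, Module.End.mul_apply, hc', map_smul]
  refine ⟨b, fun d => ?_⟩
  -- representatives
  obtain ⟨c, hc'⟩ : ∃ c : Fin p, (g ^ (c : ℕ))⁻¹ * d ∈ S := by
    have h1 : Function.Injective (fun i : Fin p => (QuotientGroup.mk (g ^ (i : ℕ)) : D ⧸ S)) := by
      intro i j hij
      exact hginj i j (QuotientGroup.eq.1 hij)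
    have h2 : Function.Bijective (fun i : Fin p => (QuotientGroup.mk (g ^ (i : ℕ)) : D ⧸ S)) := by
      have : Finite (D ⧸ S) := inferInstance
      refine (Nat.bijective_iff_injective_and_card _).2 ⟨h1, ?_⟩
      rw [Nat.card_eq_fintype_card, Fintype.card_fin, ← Subgroup.index_eq_card, hStp]
    obtain ⟨c, hc'⟩ := h2.2 (QuotientGroup.mk d)
    exact ⟨c, QuotientGroup.eq.1 hc'⟩
  refine ⟨c, fun i => ?_⟩
  have h1 : (g ^ (i : ℕ))⁻¹ * ((g ^ (c : ℕ))⁻¹ * d) * g ^ (i : ℕ) ∈ S := by
    have := hSn.conj_mem _ hc' (g ^ (i : ℕ))⁻¹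
    rwa [inv_inv] at this
  obtain ⟨t1, ht1⟩ := hSv _ h1
  obtain ⟨t2, ht2⟩ := hpow ((i : ℕ) + c)
  refine ⟨t1 * t2, ?_⟩
  have h2 : d * g ^ (i : ℕ) =
      g ^ ((i : ℕ) + c) * ((g ^ (i : ℕ))⁻¹ * ((g ^ (c : ℕ))⁻¹ * d) * g ^ (i : ℕ)) := by
    have : g ^ ((i : ℕ) + c) = g ^ (c : ℕ) * g ^ (i : ℕ) := by rw [← pow_add, add_comm]
    rw [this]
    group
  rw [hb, hb, ← Module.End.mul_apply, ← map_mul, h2, map_mul, Module.End.mul_apply, ht1, map_smul,
    ht2, smul_smul, Fin.val_add]

end Pool.Agent.CoveringSubgroups.H9
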