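import Mathlib

/-!
# Facts on `SL₂` over a field of characteristic two
-/

set_option autoImplicit false

set_option linter.unusedSectionVars false

namespace Pool.Agent.CoveringSubgroups.H9

open Matrix

/-- the group `SL₂(K)` -/
abbrev SL2 (K : Type) [Field K] : Type := Matrix.SpecialLinearGroup (Fin 2) K

section

variable {K : Type} [Field K]

lemma sl_det (g : SL2 K) : g 0 0 * g 1 1 - g 0 1 * g 1 0 = 1 := by
  have := g.det_coe
  rwa [Matrix.det_fin_two] at this

lemma sl_ext {g h : SL2 K} (h1 : g 0 0 = h 0 0) (h2 : g 0 1 = h 0 1) (h3 : g 1 0 = h 1 0)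
    (h4 : g 1 1 = h 1 1) : g = h := by
  apply Subtype.ext
  ext i j
  fin_cases i <;> fin_cases j
  · exact h1
  · exact h2
  · exact h3
  · exact h4

lemma sl_mul (g h : SL2 K) : (g * h) 0 0 = g 0 0 * h 0 0 + g 0 1 * h 1 0 ∧
    (g * h) 0 1 = g 0 0 * h 0 1 + g 0 1 * h 1 1 ∧
    (g * h) 1 0 = g 1 0 * h 0 0 + g 1 1 * h 1 0 ∧
    (g * h) 1 1 = g 1 0 * h 0 1 + g 1 1 * h 1 1 := by
  refine ⟨?_, ?_, ?_, ?_⟩ <;>
  · rw [Matrix.SpecialLinearGroup.coe_mul, Matrix.mul_apply, Fin.sum_univ_two]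

lemma sl_inv (g : SL2 K) : g⁻¹ 0 0 = g 1 1 ∧ g⁻¹ 0 1 = - g 0 1 ∧ g⁻¹ 1 0 = - g 1 0 ∧
    g⁻¹ 1 1 = g 0 0 := by
  have : (g⁻¹ : SL2 K).1 = adjugate g.1 := Matrix.SpecialLinearGroup.coe_inv g
  rw [Matrix.adjugate_fin_two] at this
  refine ⟨?_, ?_, ?_, ?_⟩ <;> rw [this] <;> rfl

/-- upper triangular matrices -/
def borel (K : Type) [Field K] : Subgroup (Matrix.SpecialLinearGroup (Fin 2) K) where
  carrier := {g | g 1 0 = 0}
  one_mem' := by
    show (1 : Matrix.SpecialLinearGroup (Fin 2) K) 1 0 = 0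
    simp
  mul_mem' := by
    intro a b ha hb
    have ha' : a 1 0 = 0 := ha
    have hb' : b 1 0 = 0 := hb
    show (a * b) 1 0 = 0
    have := (sl_mul a b).2.2.1
    rw [this, ha', hb']
    simp
  inv_mem' := by
    intro a ha
    have ha' : a 1 0 = 0 := ha
    show a⁻¹ 1 0 = 0
    rw [(sl_inv a).2.2.1, ha', neg_zero]

end

section

variable {K : Type} [Field K] [CharP K 2]

lemma two0 : (2 : K) = 0 := CharP.cast_eq_zero K 2

/-- matrices commuting with `w` -/
lemma sl_comm_iff (g w : SL2 K) : g * w = w * g ↔ g 0 1 * w 1 0 = w 0 1 * g 1 0 ∧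
    g 0 1 * (w 1 1 - w 0 0) = w 0 1 * (g 1 1 - g 0 0) ∧
    g 1 0 * (w 1 1 - w 0 0) = w 1 0 * (g 1 1 - g 0 0) := by
  have h1 := sl_mul g w
  have h2 := sl_mul w g
  constructor
  · intro h
    rw [h] at h1
    obtain ⟨a1, a2, a3, a4⟩ := h1
    obtain ⟨b1, b2, b3, b4⟩ := h2
    rw [b1] at a1; rw [b2] at a2; rw [b3] at a3; rw [b4] at a4
    refine ⟨?_, ?_, ?_⟩
    · linear_combination -a1
    · linear_combination -a2
    · linear_combination a3
  · rintro ⟨c1, c2, c3⟩
    obtain ⟨a1, a2, a3, a4⟩ := h1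
    obtain ⟨b1, b2, b3, b4⟩ := h2
    refine sl_ext ?_ ?_ ?_ ?_
    · rw [a1, b1]; linear_combination c1
    · rw [a2, b2]; linear_combination c2
    · rw [a3, b3]; linear_combination -c3
    · rw [a4, b4]; linear_combination -c1

/-- centralizers are abelian -/
lemma sl_comm_trans {u v w : SL2 K} (hu : u ≠ 1) (hv : v * u = u * v) (hw : w * u = u * w) :
    v * w = w * v := by
  rw [sl_comm_iff] at hv hw ⊢
  obtain ⟨a1, a2, a3⟩ := hv
  obtain ⟨b1, b2, b3⟩ := hw
  by_cases h1 : u 0 1 = 0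
  · by_cases h2 : u 1 0 = 0
    · by_cases h3 : u 1 1 - u 0 0 = 0
      · exfalso
        apply hu
        have hd := sl_det u
        have h4 : u 1 1 = u 0 0 := by linear_combination h3
        rw [h1, h4] at hd
        have h5 : (u 0 0 - 1) * (u 0 0 - 1) = 0 := by
          have := two0 (K := K)
          linear_combination hd + (1 - u 0 0) * this
        have h6 : u 0 0 = 1 := by
          have := mul_self_eq_zero.1 h5
          linear_combination this
        refine sl_ext ?_ ?_ ?_ ?_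
        · rw [h6]; simp
        · rw [h1]; simp
        · rw [h2]; simp
        · rw [h4, h6]; simp
      · rw [h1, zero_mul, mul_eq_zero] at a2 b2
        rw [h2, zero_mul, mul_eq_zero] at a3 b3
        have a2' := a2.resolve_right h3
        have b2' := b2.resolve_right h3
        have a3' := a3.resolve_right h3
        have b3' := b3.resolve_right h3
        rw [a2', b2', a3', b3']
        simp
    · have h3 : v 0 1 = 0 := by
        rw [h1, zero_mul, mul_eq_zero] at a1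
        exact a1.resolve_right h2
      have h4 : w 0 1 = 0 := by
        rw [h1, zero_mul, mul_eq_zero] at b1
        exact b1.resolve_right h2
      rw [h3, h4]
      refine ⟨by simp, by simp, ?_⟩
      apply mul_left_cancel₀ h2
      linear_combination v 1 0 * (-b3) + w 1 0 * a3
  · have c2 : v 0 1 * (w 1 1 - w 0 0) = w 0 1 * (v 1 1 - v 0 0) := by
      apply mul_left_cancel₀ h1
      linear_combination (-v 0 1) * b2 + w 0 1 * a2
    refine ⟨?_, c2, ?_⟩
    · apply mul_left_cancel₀ h1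
      linear_combination (-v 0 1) * b1 + w 0 1 * a1
    · apply mul_left_cancel₀ h1
      linear_combination (w 1 1 - w 0 0) * (-a1) + (v 1 1 - v 0 0) * b1 + u 1 0 * c2

lemma mem_borel {g : SL2 K} : g ∈ borel K ↔ g 1 0 = 0 := Iff.rfl

/-- upper unitriangular -/
def IsUni (g : SL2 K) : Prop := g 0 0 = 1 ∧ g 1 0 = 0

lemma IsUni.d {g : SL2 K} (h : IsUni g) : g 1 1 = 1 := by
  have := sl_det g
  rw [h.1, h.2] at this
  linear_combination this

lemma IsUni.sq {g : SL2 K} (h : IsUni g) : g * g = 1 := by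
  obtain ⟨a1, a2, a3, a4⟩ := sl_mul g g
  have h2 := two0 (K := K)
  have hd := h.d
  obtain ⟨h00, h10⟩ := h
  refine sl_ext ?_ ?_ ?_ ?_
  · rw [a1, h00, h10]; simp
  · rw [a2, h00, hd]; simp; linear_combination g 0 1 * h2
  · rw [a3, h00, h10]; simp
  · rw [a4, h10, hd]; simp

/-- trivial intersection property -/
lemma IsUni.borel_of_conj {w g : SL2 K} (hw : IsUni w) (hw1 : w ≠ 1) (h : IsUni (g * w * g⁻¹)) :
    g ∈ borel K := by
  have hd := hw.d
  obtain ⟨h00, h10⟩ := hw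
  have hx : w 0 1 ≠ 0 := by
    intro h1
    exact hw1 (sl_ext (by rw [h00]; simp) (by rw [h1]; simp) (by rw [h10]; simp)
      (by rw [hd]; simp))
  have h1 := h.2
  rw [(sl_mul _ _).2.2.1, (sl_mul g w).2.2.1, (sl_mul g w).2.2.2, (sl_inv g).1,
    (sl_inv g).2.2.1, h00, h10, hd] at h1
  have h2 : w 0 1 * (g 1 0 * g 1 0) = 0 := by linear_combination -h1
  rcases mul_eq_zero.1 h2 with h3 | h3
  · exact absurd h3 hx
  · exact mul_self_eq_zero.1 h3

lemma IsUni.of_comm {w v : SL2 K} (hw : IsUni w) (hw1 : w ≠ 1) (h : v * w = w * v) : IsUni v := by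
  have hd := hw.d
  obtain ⟨h00, h10⟩ := hw
  have hx : w 0 1 ≠ 0 := by
    intro h1
    exact hw1 (sl_ext (by rw [h00]; simp) (by rw [h1]; simp) (by rw [h10]; simp)
      (by rw [hd]; simp))
  obtain ⟨a1, a2, a3⟩ := (sl_comm_iff v w).1 h
  rw [h10, mul_zero] at a1
  rw [hd, h00, sub_self, mul_zero] at a2
  have h1 : v 1 0 = 0 := (mul_eq_zero.1 a1.symm).resolve_left hx
  have h2 : v 1 1 - v 0 0 = 0 := (mul_eq_zero.1 a2.symm).resolve_left hx
  refine ⟨?_, h1⟩
  have h3 := sl_det v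
  have h4 : v 1 1 = v 0 0 := by linear_combination h2
  rw [h1, h4] at h3
  have h5 : (v 0 0 - 1) * (v 0 0 - 1) = 0 := by
    have := two0 (K := K)
    linear_combination h3 + (1 - v 0 0) * this
  have := mul_self_eq_zero.1 h5
  linear_combination this

/-- involutions are conjugate to unitriangular matrices -/
lemma exists_conj_uni {w : SL2 K} (hw : w * w = 1) : ∃ g : SL2 K, IsUni (g * w * g⁻¹) := by
  have h2 := two0 (K := K)
  obtain ⟨a1, a2, a3, a4⟩ := sl_mul w w
  rw [hw] at a1 a2 a3 a4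
  simp only [Matrix.SpecialLinearGroup.coe_one, Matrix.one_apply_eq] at a1 a4
  have a2' : (0 : K) = w 0 0 * w 0 1 + w 0 1 * w 1 1 := by
    rw [← a2]; simp
  have a3' : (0 : K) = w 1 0 * w 0 0 + w 1 1 * w 1 0 := by
    rw [← a3]; simp
  have hd := sl_det w
  have htr : w 1 1 = w 0 0 := by
    by_contra hne
    have hne' : w 0 0 + w 1 1 ≠ 0 := by
      intro h; apply hne; linear_combination h - w 0 0 * h2
    have hb : w 0 1 = 0 := by
      have : w 0 1 * (w 0 0 + w 1 1) = 0 := by linear_combination -a2'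
      exact (mul_eq_zero.1 this).resolve_right hne'
    have hc : w 1 0 = 0 := by
      have : w 1 0 * (w 0 0 + w 1 1) = 0 := by linear_combination -a3'
      exact (mul_eq_zero.1 this).resolve_right hne'
    rw [hb, hc] at hd a1
    have h5 : (w 0 0 - 1) * (w 0 0 - 1) = 0 := by
      linear_combination -a1 + (1 - w 0 0) * h2
    have h6 : w 0 0 = 1 := by
      have := mul_self_eq_zero.1 h5
      linear_combination this
    rw [h6] at hd
    apply hne
    rw [h6]
    linear_combination hd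
  by_cases hc : w 1 0 = 0
  · refine ⟨1, ?_, ?_⟩
    · simp only [one_mul, inv_one, mul_one]
      rw [hc] at a1
      have h5 : (w 0 0 - 1) * (w 0 0 - 1) = 0 := by
        linear_combination -a1 + (1 - w 0 0) * h2
      have := mul_self_eq_zero.1 h5
      linear_combination this
    · simpa using hc
  · -- the matrix `g = [[0, 1/c], [c, a+1]]`
    let g : SL2 K := ⟨!![0, (w 1 0)⁻¹; w 1 0, w 0 0 + 1], by
      rw [Matrix.det_fin_two_of]
      have : (w 1 0)⁻¹ * w 1 0 = 1 := inv_mul_cancel₀ hc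
      linear_combination -this - h2⟩
    have g00 : g 0 0 = 0 := rfl
    have g01 : g 0 1 = (w 1 0)⁻¹ := rfl
    have g10 : g 1 0 = w 1 0 := rfl
    have g11 : g 1 1 = w 0 0 + 1 := rfl
    have hcc : (w 1 0)⁻¹ * w 1 0 = 1 := inv_mul_cancel₀ hc
    refine ⟨g, ?_, ?_⟩
    · rw [(sl_mul _ _).1, (sl_mul g w).1, (sl_mul g w).2.1, (sl_inv g).1, (sl_inv g).2.2.1,
        g00, g01, g10, g11, htr]
      linear_combination hcc
    · rw [(sl_mul _ _).2.2.1, (sl_mul g w).2.2.1, (sl_mul g w).2.2.2, (sl_inv g).1,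
        (sl_inv g).2.2.1, g10, g11, htr]
      linear_combination (-w 1 0) * a1 + w 1 0 * (1 + w 0 0 - w 0 1 * w 1 0) * h2

lemma sl_trace_conj (g w : SL2 K) :
    (g * w * g⁻¹) 0 0 + (g * w * g⁻¹) 1 1 = w 0 0 + w 1 1 := by
  have hd := sl_det g
  rw [(sl_mul (g * w) _).1, (sl_mul (g * w) _).2.2.2, (sl_mul g w).1, (sl_mul g w).2.1,
    (sl_mul g w).2.2.1, (sl_mul g w).2.2.2, (sl_inv g).1, (sl_inv g).2.1, (sl_inv g).2.2.1,
    (sl_inv g).2.2.2]
  linear_combination (w 0 0 + w 1 1) * hd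

lemma eq_one_of_sq {G : Type} [Group G] {w : G} {s : ℕ} (hs : Odd s) (h : w ^ s = 1)
    (h2 : w * w = 1) : w = 1 := by
  obtain ⟨j, rfl⟩ := hs
  rw [pow_succ, pow_mul, pow_two, h2, one_pow, one_mul] at h
  exact h

lemma sl_trace_ne {w : SL2 K} {s : ℕ} (hs : Odd s) (h : w ^ s = 1) (hw : w ≠ 1) :
    w 0 0 + w 1 1 ≠ 0 := by
  intro h0
  apply hw
  apply eq_one_of_sq hs h
  have h2 := two0 (K := K)
  have hd := sl_det w
  have h1 : w 1 1 = - w 0 0 := by linear_combination h0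
  rw [h1] at hd
  obtain ⟨a1, a2, a3, a4⟩ := sl_mul w w
  refine sl_ext ?_ ?_ ?_ ?_
  · rw [a1]
    have : (1 : SL2 K) 0 0 = 1 := by simp
    rw [this]
    linear_combination -hd - h2
  · rw [a2, h1]
    have : (1 : SL2 K) 0 1 = 0 := by simp
    rw [this]
    ring
  · rw [a3, h1]
    have : (1 : SL2 K) 1 0 = 0 := by simp
    rw [this]
    ring
  · rw [a4, h1]
    have : (1 : SL2 K) 1 1 = 1 := by simp
    rw [this]
    linear_combination -hd - h2

/-- elements with the same trace in the centralizer of an element of odd order -/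
lemma sl_eq_or_inv {w v : SL2 K} {s : ℕ} (hs : Odd s) (h : w ^ s = 1) (hw : w ≠ 1)
    (hv : v * w = w * v) (htr : v 0 0 + v 1 1 = w 0 0 + w 1 1) : v = w ∨ v = w⁻¹ := by
  have h2 := two0 (K := K)
  have hne := sl_trace_ne hs h hw
  obtain ⟨a1, a2, a3⟩ := (sl_comm_iff v w).1 hv
  have e1 : v 0 1 = w 0 1 := by
    apply mul_right_cancel₀ hne
    linear_combination a2 + (v 0 1 * w 0 0 - w 0 1 * v 0 0) * h2 + w 0 1 * htr
  have e2 : v 1 0 = w 1 0 := by
    apply mul_right_cancel₀ hne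
    linear_combination a3 + (v 1 0 * w 0 0 - w 1 0 * v 0 0) * h2 + w 1 0 * htr
  have hdv := sl_det v
  have hdw := sl_det w
  rw [e1, e2] at hdv
  have h3 : (v 0 0 - w 0 0) * (v 0 0 - w 1 1) = 0 := by
    linear_combination (-v 0 0) * htr * (-1) + hdw - hdv
  rcases mul_eq_zero.1 h3 with h4 | h4
  · left
    refine sl_ext ?_ e1 e2 ?_
    · linear_combination h4
    · linear_combination htr - h4
  · right
    obtain ⟨b1, b2, b3, b4⟩ := sl_inv w
    refine sl_ext ?_ ?_ ?_ ?_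
    · rw [b1]; linear_combination h4
    · rw [b2, e1]; linear_combination w 0 1 * h2
    · rw [b3, e2]; linear_combination w 1 0 * h2
    · rw [b4]; linear_combination htr - h4

lemma two_torsion_comm {w t : SL2 K} {s : ℕ} (hs : Odd s) (h : w ^ s = 1) (hw : w ≠ 1)
    (ht : t * w = w * t) (h2 : t * t = 1) : t = 1 := by
  by_contra hne
  obtain ⟨g, hg⟩ := exists_conj_uni h2
  have h1 : g * t * g⁻¹ ≠ 1 := by
    intro h1
    apply hne
    rw [mul_inv_eq_one] at h1
    exact mul_left_cancel (h1.trans (mul_one g).symm)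
  have h3 : (g * w * g⁻¹) * (g * t * g⁻¹) = (g * t * g⁻¹) * (g * w * g⁻¹) := by
    have e1 : (g * w * g⁻¹) * (g * t * g⁻¹) = g * (w * t) * g⁻¹ := by group
    have e2 : (g * t * g⁻¹) * (g * w * g⁻¹) = g * (t * w) * g⁻¹ := by group
    rw [e1, e2, ht]
  have h4 := (hg.of_comm h1 h3).sq
  have h5 : w * w = 1 := by
    have e1 : (g * w * g⁻¹) * (g * w * g⁻¹) = g * (w * w) * g⁻¹ := by group
    rw [e1, mul_inv_eq_one] at h4
    exact mul_left_cancel (h4.trans (mul_one g).symm)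
  exact hw (eq_one_of_sq hs h h5)

lemma two_elt_comm {w t : SL2 K} {s : ℕ} (hs : Odd s) (h : w ^ s = 1) (hw : w ≠ 1)
    (ht : t * w = w * t) (j : ℕ) (h2 : t ^ 2 ^ j = 1) : t = 1 := by
  induction j with
  | zero => simpa using h2
  | succ j ih =>
    apply ih
    refine two_torsion_comm hs h hw ?_ ?_
    · exact (Commute.pow_left (show Commute t w from ht) _).eq
    · rw [← pow_two, ← pow_mul, ← pow_succ]; exact h2

/-- every element is inverted by some element -/
lemma exists_invert (w : SL2 K) : ∃ g : SL2 K, g * w * g⁻¹ = w⁻¹ := by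
  have h2 := two0 (K := K)
  obtain ⟨b1, b2, b3, b4⟩ := sl_inv w
  suffices h : ∃ g : SL2 K, g * w = w⁻¹ * g by
    obtain ⟨g, hg⟩ := h
    exact ⟨g, by rw [hg, mul_inv_cancel_right]⟩
  by_cases hb : w 0 1 = 0
  · by_cases hc : w 1 0 = 0
    · let g : SL2 K := ⟨!![0, 1; 1, 0], by
        rw [Matrix.det_fin_two_of]
        linear_combination -h2⟩
      have g00 : g 0 0 = 0 := rfl
      have g01 : g 0 1 = 1 := rfl
      have g10 : g 1 0 = 1 := rfl
      have g11 : g 1 1 = 0 := rfl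
      refine ⟨g, ?_⟩
      obtain ⟨c1, c2, c3, c4⟩ := sl_mul g w
      obtain ⟨d1, d2, d3, d4⟩ := sl_mul w⁻¹ g
      refine sl_ext ?_ ?_ ?_ ?_
      · rw [c1, d1, b2, g00, g01, g10, hb, hc]; ring
      · rw [c2, d2, b1, b2, g00, g01, g11, hb]; ring
      · rw [c3, d3, b3, b4, g00, g10, g11, hc]; ring
      · rw [c4, d4, b3, g10, g01, g11, hb, hc]; ring
    · have hcc : (w 1 0)⁻¹ * w 1 0 = 1 := inv_mul_cancel₀ hc
      let g : SL2 K := ⟨!![1, (w 1 0)⁻¹ * (w 0 0 + w 1 1); 0, 1], by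
        rw [Matrix.det_fin_two_of]
        ring⟩
      have g00 : g 0 0 = 1 := rfl
      have g01 : g 0 1 = (w 1 0)⁻¹ * (w 0 0 + w 1 1) := rfl
      have g10 : g 1 0 = 0 := rfl
      have g11 : g 1 1 = 1 := rfl
      refine ⟨g, ?_⟩
      obtain ⟨c1, c2, c3, c4⟩ := sl_mul g w
      obtain ⟨d1, d2, d3, d4⟩ := sl_mul w⁻¹ g
      refine sl_ext ?_ ?_ ?_ ?_
      · rw [c1, d1, b1, b2, g00, g01, g10]
        linear_combination (w 0 0 + w 1 1) * hcc + w 0 0 * h2
      · rw [c2, d2, b1, b2, g00, g01, g11, hb]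
        ring
      · rw [c3, d3, b3, b4, g00, g10, g11]
        linear_combination w 1 0 * h2
      · rw [c4, d4, b3, b4, g10, g01, g11, hb]
        linear_combination (w 0 0 + w 1 1) * hcc + w 1 1 * h2
  · have hcc : (w 0 1)⁻¹ * w 0 1 = 1 := inv_mul_cancel₀ hb
    let g : SL2 K := ⟨!![1, 0; (w 0 1)⁻¹ * (w 0 0 + w 1 1), 1], by
      rw [Matrix.det_fin_two_of]
      ring⟩
    have g00 : g 0 0 = 1 := rfl
    have g01 : g 0 1 = 0 := rfl
    have g10 : g 1 0 = (w 0 1)⁻¹ * (w 0 0 + w 1 1) := rfl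
    have g11 : g 1 1 = 1 := rfl
    refine ⟨g, ?_⟩
    obtain ⟨c1, c2, c3, c4⟩ := sl_mul g w
    obtain ⟨d1, d2, d3, d4⟩ := sl_mul w⁻¹ g
    refine sl_ext ?_ ?_ ?_ ?_
    · rw [c1, d1, b1, b2, g00, g01, g10]
      linear_combination (w 0 0 + w 1 1) * hcc + w 0 0 * h2
    · rw [c2, d2, b1, b2, g00, g01, g11]
      linear_combination w 0 1 * h2
    · rw [c3, d3, b3, b4, g00, g10, g11]
      linear_combination w 1 0 * h2
    · rw [c4, d4, b3, b4, g10, g01, g11]
      linear_combination (w 0 0 + w 1 1) * hcc + w 1 1 * h2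

/-- the fix-or-invert subgroup of an element -/
def fixInv {G : Type} [Group G] (w : G) : Subgroup G where
  carrier := {g | g * w * g⁻¹ = w ∨ g * w * g⁻¹ = w⁻¹}
  one_mem' := by left; simp
  mul_mem' := by
    intro a b ha hb
    have e : a * b * w * (a * b)⁻¹ = a * (b * w * b⁻¹) * a⁻¹ := by group
    have e2 : a * w⁻¹ * a⁻¹ = (a * w * a⁻¹)⁻¹ := by group
    show a * b * w * (a * b)⁻¹ = w ∨ a * b * w * (a * b)⁻¹ = w⁻¹
    rw [e]
    rcases hb with hb | hb
    · rw [hb]; exact ha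
    · rw [hb, e2]
      rcases ha with ha | ha
      · rw [ha]; right; rfl
      · rw [ha, inv_inv]; left; rfl
  inv_mem' := by
    intro a ha
    show a⁻¹ * w * a⁻¹⁻¹ = w ∨ a⁻¹ * w * a⁻¹⁻¹ = w⁻¹
    rcases ha with ha | ha
    · left
      conv_lhs => rw [← ha]
      group
    · right
      have : w = (a * w * a⁻¹)⁻¹ := by rw [ha, inv_inv]
      conv_lhs => rw [this]
      group

lemma mem_fixInv {G : Type} [Group G] {w g : G} :
    g ∈ fixInv w ↔ g * w * g⁻¹ = w ∨ g * w * g⁻¹ = w⁻¹ := Iff.rfl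

open scoped Classical in
/-- the sign homomorphism of the fix-or-invert subgroup -/
noncomputable def fixInvSign {G : Type} [Group G] (w : G) (hw : w ≠ w⁻¹) :
    fixInv w →* Multiplicative (ZMod 2) where
  toFun g := if (g : G) * w * (g : G)⁻¹ = w then 1 else Multiplicative.ofAdd 1
  map_one' := by simp
  map_mul' := by
    intro a b
    have e : ((a * b : fixInv w) : G) * w * ((a * b : fixInv w) : G)⁻¹ =
      a * (b * w * (b : G)⁻¹) * (a : G)⁻¹ := by rw [Subgroup.coe_mul]; group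
    have e2 : (a : G) * w⁻¹ * (a : G)⁻¹ = (a * w * (a : G)⁻¹)⁻¹ := by group
    rw [e]
    have ha := a.2
    rcases b.2 with hb | hb
    · simp only [hb, if_true, mul_one]
    · have hb' : ¬ ((b : G) * w * (b : G)⁻¹ = w) := by
        rw [hb]; exact hw.symm
      rw [if_neg hb', hb, e2]
      rcases ha with ha | ha
      · rw [ha, if_neg hw.symm, if_pos rfl, one_mul]
      · rw [ha, inv_inv, if_pos rfl, if_neg hw.symm]
        decide

lemma fixInvSign_eq_one {G : Type} [Group G] (w : G) (hw : w ≠ w⁻¹) (g : fixInv w) :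
    fixInvSign w hw g = 1 ↔ (g : G) * w = w * g := by
  classical
  have h1 : fixInvSign w hw g = if (g : G) * w * (g : G)⁻¹ = w then 1 else
    Multiplicative.ofAdd 1 := rfl
  rw [h1, ← mul_inv_eq_iff_eq_mul]
  by_cases h : (g : G) * w * (g : G)⁻¹ = w
  · simp [h]
  · simp only [h, if_false, iff_false]
    decide

end

end Pool.Agent.CoveringSubgroups.H9
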