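import Pool.Agent.Lib.MP_7252b7_al_h9.Rep3

/-!
# Subgroups of `SL_p(K)`, `K` of characteristic `p`
-/

set_option autoImplicit false
set_option linter.unusedSectionVars false

namespace Pool.Agent.CoveringSubgroups.H9

open Module

/-- a submonoid of a finite group is a subgroup -/
def subOfFinite {G : Type} [Group G] [Finite G] (S : Submonoid G) : Subgroup G where
  carrier := S
  one_mem' := S.one_mem
  mul_mem' := S.mul_mem
  inv_mem' := by
    intro x hx
    have h1 : x⁻¹ = x ^ (orderOf x - 1) := by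
      rw [inv_eq_iff_mul_eq_one, ← pow_succ', Nat.sub_add_cancel (orderOf_pos x), pow_orderOf_eq_one]
    rw [h1]
    exact S.pow_mem hx _

abbrev SLp (p : ℕ) (K : Type) [Field K] : Type := Matrix.SpecialLinearGroup (Fin p) K

section

variable {p : ℕ} {K : Type} [Field K]

lemma slp_mul (a b : SLp p K) (i j : Fin p) : (a * b) i j = ∑ k, a i k * b k j := by
  rw [Matrix.SpecialLinearGroup.coe_mul, Matrix.mul_apply]

/-- lower triangular matrices -/
def lowB (p : ℕ) (K : Type) [Field K] [Finite K] : Subgroup (SLp p K) :=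
  subOfFinite
    { carrier := {g | ∀ i j, i < j → g i j = 0}
      one_mem' := by
        intro i j hij
        rw [Matrix.SpecialLinearGroup.coe_one, Matrix.one_apply_ne hij.ne]
      mul_mem' := by
        intro a b ha hb i j hij
        rw [slp_mul]
        refine Finset.sum_eq_zero fun k _ => ?_
        rcases lt_or_ge i k with h | h
        · rw [ha i k h, zero_mul]
        · rw [hb k j (h.trans_lt hij), mul_zero] }

lemma mem_lowB [Finite K] {g : SLp p K} : g ∈ lowB p K ↔ ∀ i j, i < j → g i j = 0 := Iff.rfl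

lemma lowB_diag_ne [Finite K] {g : SLp p K} (hg : g ∈ lowB p K) (i : Fin p) : g i i ≠ 0 := by
  have h1 : (g : Matrix (Fin p) (Fin p) K).det = ∏ i, g i i := by
    apply Matrix.det_of_isLowerTriangular
    intro i j hij
    exact mem_lowB.1 hg i j hij
  rw [g.2] at h1
  intro h
  have h2 : ∏ i, g i i = 0 := Finset.prod_eq_zero (Finset.mem_univ i) h
  exact one_ne_zero (h1.trans h2)

lemma lowB_mul_diag [Finite K] {a b : SLp p K} (ha : a ∈ lowB p K) (hb : b ∈ lowB p K)
    (i : Fin p) : (a * b) i i = a i i * b i i := by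
  rw [slp_mul, Finset.sum_eq_single i]
  · intro k _ hk
    rcases lt_or_gt_of_ne hk with h | h
    · rw [mem_lowB.1 hb k i h, mul_zero]
    · rw [mem_lowB.1 ha i k h, zero_mul]
  · intro h
    exact absurd (Finset.mem_univ _) h

/-- the diagonal of a lower triangular matrix -/
def lowDiag (p : ℕ) (K : Type) [Field K] [Finite K] : lowB p K →* (Fin p → Kˣ) where
  toFun g i := Units.mk0 ((g : SLp p K) i i) (lowB_diag_ne g.2 i)
  map_one' := by
    funext i
    apply Units.ext
    show ((1 : SLp p K) i i) = 1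
    rw [Matrix.SpecialLinearGroup.coe_one, Matrix.one_apply_eq]
  map_mul' := by
    intro a b
    funext i
    apply Units.ext
    exact lowB_mul_diag a.2 b.2 i

lemma lowDiag_val [Finite K] (g : lowB p K) (i : Fin p) :
    ((lowDiag p K g i : Kˣ) : K) = (g : SLp p K) i i := rfl

/-- unipotent matrices have order dividing `p` -/
lemma pow_p_of_uni [Finite K] (hp : p.Prime) [CharP K p] {g : SLp p K} (hg : g ∈ lowB p K)
    (h : ∀ i, g i i = 1) : g ^ p = 1 := by
  have : Fact p.Prime := ⟨hp⟩
  have : Nonempty (Fin p) := ⟨⟨0, hp.pos⟩⟩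
  let M : Matrix (Fin p) (Fin p) K := g
  have h1 : M.charpoly = (Polynomial.X - Polynomial.C 1) ^ p := by
    rw [← Matrix.charpoly_transpose, Matrix.charpoly_of_isUpperTriangular]
    · have h2 : ∀ i ∈ (Finset.univ : Finset (Fin p)), (Polynomial.X - Polynomial.C (M.transpose i i)
          : Polynomial K) = Polynomial.X - Polynomial.C 1 := by
        intro i _
        rw [Matrix.transpose_apply]
        show Polynomial.X - Polynomial.C (g i i) = _
        rw [h i]
      rw [Finset.prod_congr rfl h2, Finset.prod_const, Finset.card_univ, Fintype.card_fin]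
    · intro i j hij
      exact mem_lowB.1 hg j i hij
  have h2 := Matrix.aeval_self_charpoly M
  rw [h1, map_pow, map_sub, Polynomial.aeval_X, Polynomial.aeval_C, map_one] at h2
  have h3 : (M - 1) ^ p = M ^ p - 1 ^ p := sub_pow_char_of_commute p (Commute.one_right M)
  rw [h3, one_pow, sub_eq_zero] at h2
  apply Subtype.ext
  rw [Matrix.SpecialLinearGroup.coe_pow]
  exact h2

/-- a lower triangular matrix with distinct diagonal entries commutes with no unipotent one -/
lemma uni_eq_one_of_comm [Finite K] {t u : SLp p K} (ht : t ∈ lowB p K) (hu : u ∈ lowB p K)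
    (hd : ∀ i j, t i i = t j j → i = j) (hu1 : ∀ i, u i i = 1) (hc : t * u = u * t) : u = 1 := by
  have key : ∀ d : ℕ, ∀ i j : Fin p, (i : ℕ) = j + (d + 1) → u i j = 0 := by
    intro d
    induction d using Nat.strong_induction_on with
    | _ d ih =>
      intro i j hij
      have h1 : (t * u) i j = (u * t) i j := by rw [hc]
      rw [slp_mul, slp_mul] at h1
      have hji : j < i := by rw [Fin.lt_def]; omega
      have hz : ∀ k : Fin p, k ≠ i → k ≠ j → t i k * u k j = 0 ∧ u i k * t k j = 0 := by
        intro k hki hkj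
        rcases lt_or_gt_of_ne hki with h | h
        · rcases lt_or_gt_of_ne hkj with h' | h'
          · rw [mem_lowB.1 hu k j h', mem_lowB.1 ht k j h']
            exact ⟨mul_zero _, mul_zero _⟩
          · have e1 : u k j = 0 := by
              rw [Fin.lt_def] at h h'
              exact ih ((k : ℕ) - j - 1) (by omega) k j (by omega)
            have e2 : u i k = 0 := by
              rw [Fin.lt_def] at h h'
              exact ih ((i : ℕ) - k - 1) (by omega) i k (by omega)
            rw [e1, e2, mul_zero, zero_mul]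
            exact ⟨rfl, rfl⟩
        · rw [mem_lowB.1 ht i k h, mem_lowB.1 hu i k h, zero_mul, zero_mul]
          exact ⟨rfl, rfl⟩
      rw [Fintype.sum_eq_add i j hji.ne' (fun k hk => (hz k hk.1 hk.2).1),
        Fintype.sum_eq_add i j hji.ne' (fun k hk => (hz k hk.1 hk.2).2), hu1, hu1, mul_one,
        one_mul] at h1
      by_contra hne
      apply hji.ne'
      apply hd
      have h2 : (t i i - t j j) * u i j = 0 := by linear_combination h1
      exact sub_eq_zero.1 ((mul_eq_zero.1 h2).resolve_right hne)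
  apply Matrix.SpecialLinearGroup.ext
  intro i j
  rw [Matrix.SpecialLinearGroup.coe_one, Matrix.one_apply]
  split_ifs with h
  · rw [← h]; exact hu1 i
  · rcases lt_or_gt_of_ne h with h' | h'
    · exact mem_lowB.1 hu i j h'
    · rw [Fin.lt_def] at h'
      exact key ((i : ℕ) - j - 1) i j (by omega)

lemma sum_odd (n : ℕ) : ∑ i ∈ Finset.range n, (2 * i + 1) = n ^ 2 := by
  induction n with
  | zero => rfl
  | succ n ih => rw [Finset.sum_range_succ, ih]; ring

theorem lowB_data [Finite K] (hp : p.Prime) [CharP K p] {q : ℕ} (hq : q.Prime) (hpq : p < q)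
    (hqd : q ∣ Nat.card Kˣ) :
    ∃ (Λ : Type) (_ : CommGroup Λ) (_ : Finite Λ) (_ : Nontrivial Λ) (μ : lowB p K →* Λ),
      IsPGroup q Λ ∧ Function.Surjective μ ∧
      (∀ t, μ t = 1 → (∃ j, t ^ q ^ j = 1) → t = 1) ∧
      ∃ l : Λ, ∀ t : lowB p K, μ t = l → ∀ i j, (t : SLp p K) i i = (t : SLp p K) j j → i = j := by
  have : Fact q.Prime := ⟨hq⟩
  have : Fact p.Prime := ⟨hp⟩
  obtain ⟨a, m, hm, ham⟩ := Nat.exists_eq_pow_mul_and_not_dvd
    (Nat.card_pos (α := Kˣ)).ne' q hq.ne_one
  let φ : lowB p K →* (Fin p → Kˣ) := (powMonoidHom m).comp (lowDiag p K)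
  have hφ : ∀ t, φ t = lowDiag p K t ^ m := fun t => rfl
  obtain ⟨x, hx⟩ := exists_prime_orderOf_dvd_card' (G := Kˣ) q hqd
  -- the diagonal matrix
  let d : Fin p → Kˣ := fun i => x ^ (2 * (i : ℕ) + 1) * (x ^ p)⁻¹
  have hdprod : ∏ i, d i = 1 := by
    show ∏ i : Fin p, (x ^ (2 * (i : ℕ) + 1) * (x ^ p)⁻¹) = 1
    rw [Finset.prod_mul_distrib, Finset.prod_const, Finset.card_univ, Fintype.card_fin,
      Finset.prod_pow_eq_pow_sum, Fin.sum_univ_eq_sum_range (fun i => 2 * i + 1) p, sum_odd,
      inv_pow, ← pow_mul, ← pow_two, mul_inv_cancel]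
  let t0 : SLp p K := ⟨Matrix.diagonal fun i => (d i : K), by
    rw [Matrix.det_diagonal, ← Units.coe_prod, hdprod, Units.val_one]⟩
  have ht0 : ∀ i j, t0 i j = if i = j then (d i : K) else 0 := fun i j => Matrix.diagonal_apply _ _ _
  have ht0B : t0 ∈ lowB p K := by
    rw [mem_lowB]
    intro i j hij
    rw [ht0, if_neg hij.ne]
  have hdt0 : lowDiag p K ⟨t0, ht0B⟩ = d := by
    funext i
    apply Units.ext
    rw [lowDiag_val]
    show t0 i i = _
    rw [ht0, if_pos rfl]
  have hdm : ∀ i j, d i ^ m = d j ^ m → i = j := by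
    have h0 : ∀ i j : Fin p, d i ^ m = d j ^ m → (i : ℕ) ≤ j → i = j := by
      intro i j hij hle
      have h1 : (x ^ (2 * (i : ℕ) + 1)) ^ m = (x ^ (2 * (j : ℕ) + 1)) ^ m := by
        have h2 : (x ^ (2 * (i : ℕ) + 1) * (x ^ p)⁻¹) ^ m =
          (x ^ (2 * (j : ℕ) + 1) * (x ^ p)⁻¹) ^ m := hij
        rw [mul_pow, mul_pow] at h2
        exact mul_right_cancel h2
      rw [← pow_mul, ← pow_mul, pow_eq_pow_iff_modEq, hx] at h1
      have h2 : q ∣ (2 * (j : ℕ) + 1) * m - (2 * (i : ℕ) + 1) * m :=
        (Nat.modEq_iff_dvd' (Nat.mul_le_mul_right m (by omega))).1 h1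
      rw [← Nat.sub_mul] at h2
      have h3 := ((Nat.Prime.dvd_mul hq).1 h2).resolve_right hm
      have h4 : 2 * (j : ℕ) + 1 - (2 * (i : ℕ) + 1) = 2 * ((j : ℕ) - i) := by omega
      rw [h4] at h3
      have h5 : ¬ q ∣ 2 := by
        intro h
        have := Nat.le_of_dvd (by norm_num) h
        have := hp.two_le
        omega
      have h6 := ((Nat.Prime.dvd_mul hq).1 h3).resolve_left h5
      have h7 : (j : ℕ) - i = 0 := Nat.eq_zero_of_dvd_of_lt h6 (by have := j.2; omega)
      exact Fin.ext (by omega)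
    intro i j hij
    rcases le_total (i : ℕ) j with h | h
    · exact h0 i j hij h
    · exact (h0 j i hij.symm h).symm
  have hnt : Nontrivial φ.range := by
    refine ⟨⟨⟨φ ⟨t0, ht0B⟩, ⟨t0, ht0B⟩, rfl⟩, 1, ?_⟩⟩
    intro h
    have h2 : φ ⟨t0, ht0B⟩ = 1 := congrArg Subtype.val h
    rw [hφ, hdt0] at h2
    have h3 : (⟨0, hp.pos⟩ : Fin p) = ⟨1, hp.one_lt⟩ := by
      apply hdm
      have h4 := congrFun h2 ⟨0, hp.pos⟩
      have h5 := congrFun h2 ⟨1, hp.one_lt⟩
      rw [Pi.pow_apply, Pi.one_apply] at h4 h5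
      rw [h4, h5]
    have := congrArg Fin.val h3
    simp at this
  refine ⟨φ.range, inferInstance, inferInstance, hnt, φ.rangeRestrict, ?_,
    φ.rangeRestrict_surjective, ?_, ⟨φ ⟨t0, ht0B⟩, ⟨t0, ht0B⟩, rfl⟩, ?_⟩
  · rintro ⟨_, t, rfl⟩
    refine ⟨a, Subtype.ext ?_⟩
    show φ t ^ q ^ a = 1
    rw [hφ, ← pow_mul, mul_comm, ← ham]
    funext i
    rw [Pi.pow_apply, pow_card_eq_one', Pi.one_apply]
  · rintro t ht ⟨j, hj⟩
    have h1 : φ t = 1 := congrArg Subtype.val ht
    rw [hφ] at h1
    have h2 : lowDiag p K t ^ q ^ j = 1 := by rw [← map_pow, hj, map_one]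
    have h4 : Nat.gcd m (q ^ j) = 1 :=
      Nat.Coprime.pow_right _ ((Nat.Prime.coprime_iff_not_dvd hq).2 hm).symm
    have h3 : orderOf (lowDiag p K t) ∣ Nat.gcd m (q ^ j) :=
      Nat.dvd_gcd (orderOf_dvd_of_pow_eq_one h1) (orderOf_dvd_of_pow_eq_one h2)
    rw [h4, Nat.dvd_one, orderOf_eq_one_iff] at h3
    have h5 : ∀ i, (t : SLp p K) i i = 1 := by
      intro i
      have := congrArg Units.val (congrFun h3 i)
      exact this
    have h6 : (t : SLp p K) ^ p = 1 := pow_p_of_uni hp t.2 h5
    have h7 : (t : SLp p K) ^ q ^ j = 1 := congrArg Subtype.val hj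
    have h8 : orderOf (t : SLp p K) ∣ Nat.gcd p (q ^ j) :=
      Nat.dvd_gcd (orderOf_dvd_of_pow_eq_one h6) (orderOf_dvd_of_pow_eq_one h7)
    have h9 : Nat.gcd p (q ^ j) = 1 :=
      Nat.Coprime.pow_right _ ((Nat.coprime_primes hp hq).2 hpq.ne)
    rw [h9, Nat.dvd_one, orderOf_eq_one_iff] at h8
    exact Subtype.ext h8
  · intro t ht i j hij
    have h1 : φ t = φ ⟨t0, ht0B⟩ := congrArg Subtype.val ht
    rw [hφ, hφ, hdt0] at h1
    apply hdm
    have h2 : lowDiag p K t i = lowDiag p K t j := Units.ext hij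
    have h3 := congrFun h1 i
    have h4 := congrFun h1 j
    rw [Pi.pow_apply, Pi.pow_apply] at h3 h4
    rw [← h3, ← h4, h2]

end

section mono

variable {p : ℕ} [NeZero p] {K : Type} [Field K]

/-- monomial matrices with cyclic permutations -/
def nStd (p : ℕ) [NeZero p] (K : Type) [Field K] [Finite K] : Subgroup (SLp p K) :=
  subOfFinite
    { carrier := {g | ∃ c : Fin p, ∀ i j, g i j ≠ 0 → i = j + c}
      one_mem' := by
        refine ⟨0, fun i j hij => ?_⟩
        rw [Matrix.SpecialLinearGroup.coe_one] at hij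
        rw [add_zero]
        by_contra h
        exact hij (Matrix.one_apply_ne h)
      mul_mem' := by
        rintro a b ⟨c, hc⟩ ⟨c', hc'⟩
        refine ⟨c' + c, fun i j hij => ?_⟩
        rw [slp_mul] at hij
        obtain ⟨k, -, hk⟩ := Finset.exists_ne_zero_of_sum_ne_zero hij
        rw [← add_assoc, ← hc' k j (right_ne_zero_of_mul hk)]
        exact hc i k (left_ne_zero_of_mul hk) }

lemma mem_nStd [Finite K] {g : SLp p K} :
    g ∈ nStd p K ↔ ∃ c : Fin p, ∀ i j, g i j ≠ 0 → i = j + c := Iff.rfl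

lemma exists_col_ne (g : SLp p K) (j : Fin p) : ∃ i, g i j ≠ 0 := by
  by_contra hcon
  push Not at hcon
  have h1 := Matrix.det_eq_zero_of_column_eq_zero (A := (g : Matrix (Fin p) (Fin p) K)) j hcon
  rw [g.2] at h1
  exact one_ne_zero h1

/-- the shift of a monomial matrix -/
noncomputable def shiftOf [Finite K] (g : nStd p K) : Fin p := (mem_nStd.1 g.2).choose

lemma shiftOf_spec [Finite K] (g : nStd p K) (i j : Fin p) (h : (g : SLp p K) i j ≠ 0) :
    i = j + shiftOf g := (mem_nStd.1 g.2).choose_spec i j h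

lemma shiftOf_unique [Finite K] (g : nStd p K) (c : Fin p)
    (h : ∀ i j, (g : SLp p K) i j ≠ 0 → i = j + c) : shiftOf g = c := by
  obtain ⟨i, hi⟩ := exists_col_ne (g : SLp p K) 0
  have h1 := shiftOf_spec g i 0 hi
  rw [h i 0 hi] at h1
  exact (add_left_cancel h1).symm

/-- the shift as a homomorphism -/
noncomputable def shiftHom (p : ℕ) [NeZero p] (K : Type) [Field K] [Finite K] :
    nStd p K →* Multiplicative (Fin p) where
  toFun g := Multiplicative.ofAdd (shiftOf g)
  map_one' := by
    have : shiftOf (1 : nStd p K) = 0 := by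
      apply shiftOf_unique
      intro i j hij
      rw [add_zero]
      by_contra h
      exact hij (Matrix.one_apply_ne h)
    rw [this]; rfl
  map_mul' := by
    intro a b
    have : shiftOf (a * b) = shiftOf a + shiftOf b := by
      apply shiftOf_unique
      intro i j hij
      rw [Subgroup.coe_mul, slp_mul] at hij
      obtain ⟨k, -, hk⟩ := Finset.exists_ne_zero_of_sum_ne_zero hij
      rw [add_comm (shiftOf a), ← add_assoc, ← shiftOf_spec b k j (right_ne_zero_of_mul hk)]
      exact shiftOf_spec a i k (left_ne_zero_of_mul hk)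
    rw [this]; rfl

lemma shiftHom_eq_one [Finite K] {g : nStd p K} :
    shiftHom p K g = 1 ↔ ∀ i j, i ≠ j → (g : SLp p K) i j = 0 := by
  constructor
  · intro h i j hij
    by_contra hne
    have h1 : shiftOf g = 0 := h
    have h2 := shiftOf_spec g i j hne
    rw [h1, add_zero] at h2
    exact hij h2
  · intro h
    have : shiftOf g = 0 := by
      apply shiftOf_unique
      intro i j hij
      rw [add_zero]
      by_contra hne
      exact hij (h i j hne)
    show Multiplicative.ofAdd (shiftOf g) = 1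
    rw [this]; rfl

/-- the determinant of a diagonal matrix -/
lemma det_of_diag {g : SLp p K} (h : ∀ i j, i ≠ j → g i j = 0) : ∏ i, g i i = 1 := by
  have h1 : (g : Matrix (Fin p) (Fin p) K) = Matrix.diagonal fun i => g i i := by
    ext i j
    rw [Matrix.diagonal_apply]
    split_ifs with hij
    · rw [hij]
    · exact h i j hij
  have h2 := g.2
  rw [h1, Matrix.det_diagonal] at h2
  exact h2

lemma exists_shift_one [Finite K] (hp : p.Prime) :
    ∃ g : nStd p K, shiftHom p K g ≠ 1 := by
  classical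
  let P : Matrix (Fin p) (Fin p) K := Matrix.of fun i j => if i = j + 1 then 1 else 0
  have hP : ∀ i j, P i j = if i = j + 1 then 1 else 0 := fun i j => rfl
  have hPP : P * P.transpose = 1 := by
    ext i k
    rw [Matrix.mul_apply, Matrix.one_apply]
    simp only [Matrix.transpose_apply, hP]
    rw [Finset.sum_eq_single (i - 1)]
    · rw [sub_add_cancel, if_pos rfl, one_mul]
      simp only [eq_comm]
    · intro j _ hj
      rw [if_neg, zero_mul]
      intro h
      apply hj
      rw [h, add_sub_cancel_right]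
    · intro h
      exact absurd (Finset.mem_univ _) h
  have hdet : P.det ≠ 0 := by
    intro h
    have h1 := congrArg Matrix.det hPP
    rw [Matrix.det_mul, h, zero_mul, Matrix.det_one] at h1
    exact zero_ne_one h1
  let e : Fin p → K := fun j => if j = 0 then (P.det)⁻¹ else 1
  have he : ∏ j, e j = (P.det)⁻¹ := by
    show ∏ j : Fin p, (if j = 0 then (P.det)⁻¹ else 1) = _
    rw [Finset.prod_ite_eq' Finset.univ (0 : Fin p)]
    simp
  let g : SLp p K := ⟨P * Matrix.diagonal e, by
    rw [Matrix.det_mul, Matrix.det_diagonal, he, mul_inv_cancel₀ hdet]⟩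
  have hg : ∀ i j, g i j = P i j * e j := fun i j => Matrix.mul_diagonal _ _ _ _
  have hg1 : ∀ i j, g i j ≠ 0 → i = j + 1 := by
    intro i j hij
    rw [hg, hP] at hij
    by_contra hne
    rw [if_neg hne, zero_mul] at hij
    exact hij rfl
  refine ⟨⟨g, 1, hg1⟩, ?_⟩
  intro h
  have h1 : shiftOf (⟨g, 1, hg1⟩ : nStd p K) = 1 := shiftOf_unique _ 1 hg1
  have h2 : shiftOf (⟨g, 1, hg1⟩ : nStd p K) = 0 := h
  rw [h1] at h2
  have h3 := congrArg Fin.val h2
  obtain ⟨n, hn⟩ : ∃ n, p = n + 2 := ⟨p - 2, by have := hp.two_le; omega⟩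
  subst hn
  simp at h3

/-- an element with nontrivial shift commutes with no nontrivial diagonal matrix -/
lemma diag_eq_one_of_comm [Finite K] (hp : p.Prime) [CharP K p] {g : nStd p K}
    (hg : shiftHom p K g ≠ 1) {t : SLp p K} (ht : ∀ i j, i ≠ j → t i j = 0)
    (hc : (g : SLp p K) * t = t * g) : t = 1 := by
  have : Fact p.Prime := ⟨hp⟩
  have h1 : ∀ i, t (i + shiftOf g) (i + shiftOf g) = t i i := by
    intro i
    obtain ⟨k, hk⟩ := exists_col_ne (g : SLp p K) i
    have hki := shiftOf_spec g k i hk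
    rw [hki] at hk
    have h2 : ((g : SLp p K) * t) (i + shiftOf g) i = (t * g) (i + shiftOf g) i := by rw [hc]
    rw [slp_mul, slp_mul, Finset.sum_eq_single i, Finset.sum_eq_single (i + shiftOf g)] at h2
    · exact (mul_right_cancel₀ hk (by rw [← h2]; ring))
    · intro j _ hj
      rw [ht _ _ hj.symm, zero_mul]
    · intro h
      exact absurd (Finset.mem_univ _) h
    · intro j _ hj
      rw [ht _ _ hj, mul_zero]
    · intro h
      exact absurd (Finset.mem_univ _) h
  have h2 : ∀ (n : ℕ) (i : Fin p), t (i + n • shiftOf g) (i + n • shiftOf g) = t i i := by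
    intro n
    induction n with
    | zero => intro i; rw [zero_smul, add_zero]
    | succ n ih =>
      intro i
      rw [succ_nsmul, ← add_assoc, h1, ih]
  have hs : shiftOf g ≠ 0 := by
    intro h
    apply hg
    show Multiplicative.ofAdd (shiftOf g) = 1
    rw [h]; rfl
  have h3 : ∀ i, t i i = t 0 0 := by
    intro i
    have h4 : i ∈ AddSubgroup.zmultiples (shiftOf g) :=
      mem_zmultiples_of_prime_card (p := p) (by rw [Nat.card_eq_fintype_card, Fintype.card_fin]) hs
    rw [mem_zmultiples_iff_mem_range_addOrderOf] at h4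
    obtain ⟨n, -, hn⟩ := Finset.mem_image.1 h4
    rw [← hn, ← zero_add (n • shiftOf g), h2]
  have h4 := det_of_diag ht
  have h5 : ∀ i ∈ (Finset.univ : Finset (Fin p)), t i i = t 0 0 := fun i _ => h3 i
  rw [Finset.prod_congr rfl h5, Finset.prod_const, Finset.card_univ, Fintype.card_fin] at h4
  have h6 : t 0 0 = 1 := by
    have h10 : frobenius K p (t 0 0) = frobenius K p 1 := by
      rw [frobenius_def, map_one, h4]
    exact frobenius_inj K p h10
  apply Matrix.SpecialLinearGroup.ext
  intro i j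
  rw [Matrix.SpecialLinearGroup.coe_one, Matrix.one_apply]
  split_ifs with h
  · rw [← h, h3, h6]
  · exact ht i j h

theorem nStd_data [Finite K] (hp : p.Prime) [CharP K p] :
    ∃ (Λ : Type) (_ : CommGroup Λ) (_ : Finite Λ) (_ : Nontrivial Λ) (μ : nStd p K →* Λ),
      IsPGroup p Λ ∧ Function.Surjective μ ∧
      (∀ t, μ t = 1 ↔ ∀ i j, i ≠ j → (t : SLp p K) i j = 0) ∧
      (∀ t, μ t = 1 → (∃ j, t ^ p ^ j = 1) → t = 1) ∧
      (∀ t, μ t ≠ 1 → ∀ u : SLp p K, (∀ i j, i ≠ j → u i j = 0) → (t : SLp p K) * u = u * t →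
        u = 1) := by
  have : Fact p.Prime := ⟨hp⟩
  obtain ⟨g, hg⟩ := exists_shift_one (p := p) (K := K) hp
  have hmu : ∀ t, (shiftHom p K).rangeRestrict t = 1 ↔
      ∀ i j, i ≠ j → (t : SLp p K) i j = 0 := by
    intro t
    rw [← shiftHom_eq_one]
    constructor
    · intro h
      exact congrArg Subtype.val h
    · intro h
      exact Subtype.ext h
  refine ⟨(shiftHom p K).range, inferInstance, inferInstance, ?_, (shiftHom p K).rangeRestrict, ?_,
    (shiftHom p K).rangeRestrict_surjective, hmu, ?_, ?_⟩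
  · refine ⟨⟨⟨_, g, rfl⟩, 1, ?_⟩⟩
    intro h
    exact hg (congrArg Subtype.val h)
  · have h1 : IsPGroup p (Multiplicative (Fin p)) := by
      refine IsPGroup.of_card (n := 1) ?_
      rw [pow_one, Nat.card_eq_fintype_card, Fintype.card_multiplicative, Fintype.card_fin]
    exact h1.to_subgroup _
  · rintro t ht ⟨j, hj⟩
    have hd := (hmu t).1 ht
    have hpow : ∀ n : ℕ, (∀ i k, i ≠ k → ((t : SLp p K) ^ n) i k = 0) ∧
        ∀ i, ((t : SLp p K) ^ n) i i = ((t : SLp p K) i i) ^ n := by
      intro n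
      induction n with
      | zero =>
        constructor
        · intro i k hik
          rw [pow_zero, Matrix.SpecialLinearGroup.coe_one, Matrix.one_apply_ne hik]
        · intro i
          rw [pow_zero, pow_zero, Matrix.SpecialLinearGroup.coe_one, Matrix.one_apply_eq]
      | succ n ih =>
        constructor
        · intro i k hik
          rw [pow_succ, slp_mul]
          refine Finset.sum_eq_zero fun l _ => ?_
          by_cases h : i = l
          · rw [hd l k (by rw [← h]; exact hik), mul_zero]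
          · rw [ih.1 i l h, zero_mul]
        · intro i
          rw [pow_succ, pow_succ, slp_mul, Finset.sum_eq_single i, ih.2]
          · intro l _ hl
            rw [hd l i hl, mul_zero]
          · intro h
            exact absurd (Finset.mem_univ _) h
    have h1 : (t : SLp p K) ^ p ^ j = 1 := congrArg Subtype.val hj
    apply Subtype.ext
    apply Matrix.SpecialLinearGroup.ext
    intro i k
    show (t : SLp p K) i k = (1 : SLp p K) i k
    rw [Matrix.SpecialLinearGroup.coe_one, Matrix.one_apply]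
    split_ifs with h
    · subst h
      have h2 := (hpow (p ^ j)).2 i
      rw [h1, Matrix.SpecialLinearGroup.coe_one, Matrix.one_apply_eq] at h2
      have h3 : ((t : SLp p K) i i - 1) ^ p ^ j = 0 := by
        rw [sub_pow_char_pow, one_pow, ← h2, sub_self]
      exact sub_eq_zero.1 (pow_eq_zero_iff (pow_ne_zero _ hp.ne_zero) |>.1 h3)
    · exact hd i k h
  · intro t ht u hu hc
    refine diag_eq_one_of_comm hp (g := t) ?_ hu hc
    intro h
    exact ht (Subtype.ext h)

end mono

end Pool.Agent.CoveringSubgroups.H9
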