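import Pool.Agent.Lib.MP_7252b7_al_h9.MinFinal
import Pool.Agent.Lib.MP_7252b7_al_h61.Frattini

/-!
# Formations of groups with a normal Sylow subgroup
-/

set_option autoImplicit false

namespace Pool.Agent.CoveringSubgroups.H9

open Pool.Agent.CoveringSubgroups

variable {F : GroupClass} {f : ℕ → GroupClass}

section

variable (hF : IsFormation F) (hf : IsLocallyDefinedBy F f)

include hF hf

/-- `p`-groups are in `F(p)` -/
theorem CF_of_pGroup (hher : ∀ (G : Type) [Group G] (H : Subgroup G), F G → F H) {p : ℕ}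
    (hp : InPi F p) (E : Type) [Group E] [Finite E] (hE : IsPGroup p E) : CF F f p E := by
  have hfp := form_of_inPi hf hF hher hp
  have h1 : CF F f p PUnit := ⟨ftriv hF _, ⊥, inferInstance, IsPGroup.of_bot, ftriv hfp _⟩
  refine CF_ext hf hF hp.1 (1 : E →* PUnit) (fun _ => ⟨1, rfl⟩) ?_ h1
  exact hE.to_subgroup _

/-- if `F(p) ≤ F(s)`, then not all groups of `F` have a normal Sylow `p`-subgroup -/
theorem not_all_closed (hher : ∀ (G : Type) [Group G] (H : Subgroup G), F G → F H) {p s : ℕ}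
    (hp : InPi F p) (hs : InPi F s) (hsp : s ≠ p) (hle : CanonLE F p s)
    (hcl : ∀ (G : Type) [Group G], F G → ∀ P : Sylow p G, P.toSubgroup.Normal) : False := by
  have : Fact p.Prime := ⟨hp.1⟩
  have : Fact s.Prime := ⟨hs.1⟩
  have hfp := form_of_inPi hf hF hher hp
  let C := Multiplicative (ZMod p)
  let S := Multiplicative (ZMod s)
  have hC : IsPGroup p C := by
    refine IsPGroup.of_card (n := 1) ?_
    rw [pow_one]
    exact Nat.card_zmod p
  have hS : ∀ x : S, x ^ s = 1 := by
    intro x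
    have := pow_card_eq_one' (x := x)
    have hc : Nat.card S = s := Nat.card_zmod s
    rwa [hc] at this
  have h1 : Canon F s C := hle C ((canon_iff hF hf hp.1 hfp).2 (CF_of_pGroup hF hf hher hp C hC))
  have hE : F (S ≀ᵣ C) := by
    refine h1.2 (S ≀ᵣ C) (RegularWreathProduct.rightHom : S ≀ᵣ C →* C)
      (fun x => ⟨RegularWreathProduct.inl x, RegularWreathProduct.fun_id x⟩) ?_
    rintro ⟨a, ha⟩
    refine ⟨1, Subtype.ext ?_⟩
    show a ^ s ^ 1 = 1
    rw [pow_one]
    have h1 := pow_base a ha s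
    ext x
    · rw [h1.2, Pi.pow_apply, hS]; rfl
    · rw [h1.1]; rfl
  obtain ⟨c, hc⟩ := exists_ne (1 : C)
  obtain ⟨t, ht⟩ := exists_ne (1 : S)
  -- the element `inl c` is in a Sylow `p`-subgroup
  let g : S ≀ᵣ C := RegularWreathProduct.inl c
  have hg1 : g.right = c := rfl
  have hg2 : g.left = 1 := rfl
  have hgp : IsPGroup p (Subgroup.zpowers g) := by
    let ι : C →* S ≀ᵣ C := RegularWreathProduct.inl
    have h3 : IsPGroup p ι.range := hC.of_surjective ι.rangeRestrict ι.rangeRestrict_surjective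
    refine h3.to_le ?_
    rw [Subgroup.zpowers_le]
    exact ⟨c, rfl⟩
  obtain ⟨P, hP⟩ := hgp.exists_le_sylow
  have hPn := hcl _ hE P
  have hgP : g ∈ P.toSubgroup := hP (Subgroup.mem_zpowers g)
  classical
  let b : S ≀ᵣ C := ⟨fun y => if y = 1 then t else 1, 1⟩
  have hb : b⁻¹ * g * b * g⁻¹ ∈ P.toSubgroup := by
    refine P.toSubgroup.mul_mem ?_ (P.toSubgroup.inv_mem hgP)
    have := hPn.conj_mem g hgP b⁻¹
    rwa [inv_inv] at this
  have hbr : (b⁻¹ * g * b * g⁻¹).right = 1 := by
    simp [b]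
  have hbs : (b⁻¹ * g * b * g⁻¹) ^ s = 1 := by
    have h2 := pow_base _ hbr s
    refine RegularWreathProduct.ext ?_ h2.1
    rw [h2.2]
    funext z
    rw [Pi.pow_apply, hS]; rfl
  obtain ⟨j, hj⟩ := P.isPGroup' ⟨_, hb⟩
  have hj' : (b⁻¹ * g * b * g⁻¹) ^ p ^ j = 1 := congrArg Subtype.val hj
  have h8 : orderOf (b⁻¹ * g * b * g⁻¹) ∣ Nat.gcd s (p ^ j) :=
    Nat.dvd_gcd (orderOf_dvd_of_pow_eq_one hbs) (orderOf_dvd_of_pow_eq_one hj')
  have h9 : Nat.gcd s (p ^ j) = 1 :=
    Nat.Coprime.pow_right _ ((Nat.coprime_primes hs.1 hp.1).2 hsp)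
  rw [h9, Nat.dvd_one, orderOf_eq_one_iff, mul_inv_eq_one, mul_assoc, inv_mul_eq_iff_eq_mul] at h8
  have h2 := congrArg (fun a : S ≀ᵣ C => a.left 1) h8
  simp only [RegularWreathProduct.mul_left, Pi.mul_apply, hg1, hg2, Pi.one_apply, one_mul, b,
    mul_one, inv_one, if_true] at h2
  have h3 : ¬ (c⁻¹ = 1) := by rwa [inv_eq_one]
  rw [if_neg h3] at h2
  exact ht h2.symm

omit hf in
/-- groups of order prime to `p` have a normal Sylow `p`-subgroup quotient -/
theorem covering_of_normal {p : ℕ} (hp : p.Prime)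
    (hcl : ∀ (G : Type) [Group G], F G → ∀ P : Sylow p G, P.toSubgroup.Normal)
    (hext : ClosedUnder F p)
    (h : ∀ (G : Type) [Group G] [Finite G], ¬ p ∣ Nat.card G → HasCovering F G)
    (G : Type) [Group G] [Finite G] : HasCovering F G := by
  have : Fact p.Prime := ⟨hp⟩
  obtain ⟨P⟩ : Nonempty (Sylow p G) := inferInstance
  refine hasCovering_of_normalizer hF.iso hF.quotient hcl hext P (h _ ?_)
  set N := Subgroup.normalizer ((P : Subgroup G) : Set G) with hN
  intro hd
  have hle : (P : Subgroup G) ≤ N := Subgroup.le_normalizer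
  have h1 : Nat.card (N ⧸ (P : Subgroup G).subgroupOf N) = (P : Subgroup G).relIndex N := by
    rw [Subgroup.relIndex, Subgroup.index_eq_card]
  rw [h1] at hd
  have h2 : (P : Subgroup G).relIndex N ∣ (P : Subgroup G).index :=
    Subgroup.relIndex_dvd_index_of_le hle
  exact P.not_dvd_index (hd.trans h2)

/-- groups of order prime to `p`, when `π(F) ⊆ {p, q}` -/
theorem covering_biprimary (hher : ∀ (G : Type) [Group G] (H : Subgroup G), F G → F H) {p q : ℕ}
    (hq : InPi F q) (hπ : ∀ r, InPi F r → r = p ∨ r = q)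
    (G : Type) [Group G] [Finite G] (hG : ¬ p ∣ Nat.card G) : HasCovering F G := by
  have : Fact q.Prime := ⟨hq.1⟩
  obtain ⟨Q⟩ : Nonempty (Sylow q G) := inferInstance
  refine ⟨Q, (CF_of_pGroup hF hf hher hq Q Q.isPGroup').1, ?_⟩
  intro U hU N _ hUN u
  -- `U / N` is a `q`-group
  have hUf : Finite (U ⧸ N) := inferInstance
  have hqg : IsPGroup q (U ⧸ N) := by
    rw [IsPGroup.iff_orderOf]
    intro x
    have hx : orderOf x ≠ 0 := (orderOf_pos x).ne'
    have h1 : ∀ r, r.Prime → r ∣ orderOf x → r = q := by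
      intro r hr hd
      have h2 : r ∣ Nat.card (U ⧸ N) := hd.trans (orderOf_dvd_natCard x)
      rcases hπ r ⟨hr, _, inferInstance, hUN, h2⟩ with rfl | h3
      · exfalso
        apply hG
        exact (h2.trans (Subgroup.card_quotient_dvd_card N)).trans U.card_subgroup_dvd_card
      · exact h3
    exact ⟨_, Nat.eq_prime_pow_of_unique_prime_dvd hx fun hr hd => h1 _ hr hd⟩
  -- the Sylow subgroup covers
  let QU : Subgroup U := (Q : Subgroup G).subgroupOf U
  have hidx : ¬ q ∣ QU.index := by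
    have h2 : QU.index ∣ (Q : Subgroup G).index := by
      exact Subgroup.relIndex_dvd_index_of_le hU
    exact fun h => Q.not_dvd_index (h.trans h2)
  have htop : QU ⊔ N = ⊤ := by
    have h1 : (QU ⊔ N).index ∣ QU.index := Subgroup.index_dvd_of_le le_sup_left
    have h2 : (QU ⊔ N).index ∣ N.index := Subgroup.index_dvd_of_le le_sup_right
    obtain ⟨n, hn⟩ := IsPGroup.iff_card.1 hqg
    have h3 : N.index = q ^ n := by rw [Subgroup.index_eq_card, hn]
    rw [h3] at h2
    obtain ⟨k, -, hk⟩ := (Nat.dvd_prime_pow hq.1).1 h2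
    rw [← Subgroup.index_eq_one, hk]
    rcases Nat.eq_zero_or_pos k with h4 | h4
    · rw [h4, pow_zero]
    · exfalso
      apply hidx
      refine dvd_trans ?_ h1
      rw [hk]
      exact dvd_pow_self q h4.ne'
  have hu : u ∈ QU ⊔ N := by rw [htop]; trivial
  obtain ⟨a, ha, n, hn, rfl⟩ := Subgroup.mem_sup_of_normal_right.1 hu
  exact ⟨a, n, ha, hn, rfl⟩

omit hf in
/-- `F(p) = F` if `F` is closed under extensions by normal `p`-subgroups -/
theorem canonLE_of_closed {p q : ℕ} (h : ClosedUnder F p) : CanonLE F q p := by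
  intro Y _ hY
  refine ⟨hY.1, ?_⟩
  intro E _ _ φ hφ hk
  refine h E φ.ker hk (hF.iso _ _ (QuotientGroup.quotientKerEquivOfSurjective φ hφ).symm hY.mem)

/-- formations of groups with a normal Sylow `p`-subgroup, `p` the smallest prime -/
theorem min_closed_iff (hher : ∀ (G : Type) [Group G] (H : Subgroup G), F G → F H)
    (hsol : ∀ (G : Type) [Group G], F G → Group.IsSolvable G)
    (hfin : {q | InPi F q}.Finite) {p : ℕ} (hp : InPi F p) (hmin : ∀ q, InPi F q → p ≤ q)
    (hcl : ∀ (G : Type) [Group G], F G → ∀ P : Sylow p G, P.toSubgroup.Normal) :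
    (∀ (G : Type) [Group G] [Finite G], HasCovering F G) ↔
      ClosedUnder F p ∧
        ∀ (G : Type) [Group G] [Finite G], ¬ p ∣ Nat.card G → HasCovering F G := by
  constructor
  · intro hcov
    refine ⟨?_, fun G _ _ _ => hcov G⟩
    rcases min_dichotomy hF hf hher hsol hcov hfin hp hmin with h | ⟨-, s, hs, hsp, hle, -⟩
    · exact h
    · exact (not_all_closed hF hf hher hp hs hsp hle hcl).elim
  · rintro ⟨h1, h2⟩ G _ _
    exact covering_of_normal hF hp.1 hcl h1 h2 G

/-- formations of groups with a normal Sylow `t`-subgroup -/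
theorem normal_sylow_iff (hher : ∀ (G : Type) [Group G] (H : Subgroup G), F G → F H)
    (hsol : ∀ (G : Type) [Group G], F G → Group.IsSolvable G)
    (hfin : {q | InPi F q}.Finite) {p : ℕ} (hp : InPi F p) (hmin : ∀ q, InPi F q → p ≤ q)
    {t : ℕ} (ht : t = p ∨ InPi F t ∧ ∀ r, InPi F r → r = p ∨ r = t)
    (hcl : ∀ (G : Type) [Group G], F G → ∀ P : Sylow t G, P.toSubgroup.Normal) :
    (∀ (G : Type) [Group G] [Finite G], HasCovering F G) ↔
      ClosedUnder F t ∧ ((∃ q, ∀ r, InPi F r → r = t ∨ r = q) ∨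
        ∀ (G : Type) [Group G] [Finite G], ¬ t ∣ Nat.card G → HasCovering F G) := by
  -- the condition on `t'`-groups
  have haux : ∀ {t : ℕ}, InPi F t → (∃ q, ∀ r, InPi F r → r = t ∨ r = q) →
      ∀ (G : Type) [Group G] [Finite G], ¬ t ∣ Nat.card G → HasCovering F G := by
    rintro t ht ⟨q, hq⟩ G _ _ hG
    by_cases hqπ : InPi F q
    · exact covering_biprimary hF hf hher hqπ hq G hG
    · refine covering_biprimary hF hf hher ht (fun r hr => Or.inl ?_) G hG
      rcases hq r hr with h | h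
      · exact h
      · exact absurd (h ▸ hr) hqπ
  by_cases htp : t = p
  · subst htp
    rw [min_closed_iff hF hf hher hsol hfin hp hmin hcl]
    constructor
    · rintro ⟨h1, h2⟩
      exact ⟨h1, Or.inr h2⟩
    · rintro ⟨h1, h2 | h2⟩
      · exact ⟨h1, haux hp h2⟩
      · exact ⟨h1, h2⟩
  · obtain ⟨htπ, hπ⟩ := ht.resolve_left htp
    constructor
    · intro hcov
      refine ⟨?_, Or.inr fun G _ _ _ => hcov G⟩
      rcases min_dichotomy hF hf hher hsol hcov hfin hp hmin with h | ⟨-, s, hs, hsp, -, h⟩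
      · exact (not_all_closed hF hf hher htπ hp (Ne.symm htp) (canonLE_of_closed hF h) hcl).elim
      · have hst : s = t := (hπ s hs).resolve_left hsp
        subst hst
        exact h hπ
    · rintro ⟨h, h2⟩ G _ _
      refine covering_of_normal hF htπ.1 hcl h ?_ G
      exact haux htπ ⟨p, fun r hr => (hπ r hr).symm⟩

end

end Pool.Agent.CoveringSubgroups.H9
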