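import Pool.Agent.Lib.MP_7252b7_al_h9.Cov

/-!
# Covering subgroups of wreath products
-/

set_option autoImplicit false

namespace Pool.Agent.CoveringSubgroups.H9

open Pool.Agent.CoveringSubgroups

section psi

variable {N Λ X Q : Type} [Group N] [CommGroup Λ] [Group X] [Group Q] [Finite X]

open scoped Classical in
/-- the twisted product map `N ≀ X → Λ ≀ Q` -/
noncomputable def psi (μ : N →* Λ) (π : X →* Q) : N ≀ᵣ X →* Λ ≀ᵣ Q :=
  letI := Fintype.ofFinite X
  { toFun := fun a => ⟨fun κ => ∏ y : X, if π y = κ then μ (a.left y) else 1, π a.right⟩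
    map_one' := by
      ext x
      · simp
      · simp
    map_mul' := by
      intro a b
      ext κ
      · simp only [RegularWreathProduct.mul_left, Pi.mul_apply, map_mul]
        rw [← Fintype.prod_equiv (Equiv.mulLeft (a.right⁻¹))
          (fun y => if π y = κ then μ (b.left (a.right⁻¹ * y)) else 1)
          (fun y => if π y = (π a.right)⁻¹ * κ then μ (b.left y) else 1)]
        · rw [← Finset.prod_mul_distrib]
          refine Finset.prod_congr rfl fun y _ => ?_
          by_cases h : π y = κ <;> simp [h]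
        · intro y
          simp only [Equiv.coe_mulLeft, map_mul, map_inv, mul_right_inj]
      · simp }

@[simp] lemma psi_right (μ : N →* Λ) (π : X →* Q) (a : N ≀ᵣ X) :
    (psi μ π a).right = π a.right := rfl

open scoped Classical in
lemma psi_left (μ : N →* Λ) (π : X →* Q) (a : N ≀ᵣ X) (κ : Q) :
    (psi μ π a).left κ = letI := Fintype.ofFinite X
      ∏ y : X, if π y = κ then μ (a.left y) else 1 := rfl

lemma psi_left_const (μ : N →* Λ) (π : X →* Q) (a : N ≀ᵣ X) (κ : Q) (l : Λ)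
    (h : ∀ y, π y = κ → μ (a.left y) = l) :
    (psi μ π a).left κ = l ^ Nat.card {y : X // π y = κ} := by
  classical
  rw [psi_left]
  let := Fintype.ofFinite X
  have h1 : ∀ y ∈ (Finset.univ : Finset X), (if π y = κ then μ (a.left y) else 1) =
      if π y = κ then l else 1 := by
    intro y _
    by_cases hy : π y = κ
    · rw [if_pos hy, if_pos hy, h y hy]
    · rw [if_neg hy, if_neg hy]
  calc _ = ∏ y : X, (if π y = κ then μ (a.left y) else 1) := by
        refine Finset.prod_congr rfl fun y _ => ?_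
        congr 1
    _ = ∏ y : X, (if π y = κ then l else 1) := Finset.prod_congr rfl h1
    _ = l ^ Nat.card {y : X // π y = κ} := by
        rw [← Finset.prod_filter, Finset.prod_const, Nat.card_eq_fintype_card,
          Fintype.card_subtype]

/-- two fibres with the same contribution -/
lemma psi_left_eq (μ : N →* Λ) (π : X →* Q) (a : N ≀ᵣ X) (ρ : X)
    (h : ∀ y, μ (a.left (ρ * y)) = μ (a.left y)) (κ : Q) :
    (psi μ π a).left (π ρ * κ) = (psi μ π a).left κ := by
  classical
  rw [psi_left, psi_left]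
  let := Fintype.ofFinite X
  refine (Fintype.prod_equiv (Equiv.mulLeft ρ) _ _ ?_).symm
  intro y
  simp only [Equiv.coe_mulLeft, map_mul, mul_right_inj, h]

end psi

variable {F : GroupClass} {f : ℕ → GroupClass}

section

variable (hF : IsFormation F) (hf : IsLocallyDefinedBy F f)

include hF hf

/-- the covering property for the homomorphism `psi` -/
theorem star (hher : ∀ (G : Type) [Group G] (H : Subgroup G), F G → F H)
    {r : ℕ} (hr : r.Prime) {N Λ X Q : Type} [Group N] [CommGroup Λ] [Group X]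
    [Group Q] [Finite X] [Finite Λ] (hΛ : IsPGroup r Λ) (μ : N →* Λ) (π : X →* Q)
    (hX : F X) (hQ : CF F f r Q) {H : Subgroup (N ≀ᵣ X)} (hH : Cov F H) (u : N ≀ᵣ X) :
    ∃ h ∈ H, h.right = u.right ∧ (psi μ π h).left = (psi μ π u).left := by
  have : Fact r.Prime := ⟨hr⟩
  have hQf : Finite Q := hF.finite Q hQ.1
  have h1 : CF F f r (Λ ≀ᵣ Q) := by
    refine CF_ext hf hF hr (RegularWreathProduct.rightHom : Λ ≀ᵣ Q →* Q) ?_ ?_ hQ
    · intro q
      exact ⟨RegularWreathProduct.inl q, RegularWreathProduct.fun_id q⟩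
    · obtain ⟨n, hn⟩ := IsPGroup.iff_card.1 hΛ
      rintro ⟨a, ha⟩
      have ha' : a.right = 1 := ha
      refine ⟨n, Subtype.ext ?_⟩
      show a ^ r ^ n = 1
      have h2 : ∀ i : ℕ, (a ^ i).right = 1 ∧ (a ^ i).left = a.left ^ i := by
        intro i
        induction i with
        | zero => simp
        | succ i ih =>
          rw [pow_succ, pow_succ]
          refine ⟨by simp [ih.1, ha'], ?_⟩
          rw [RegularWreathProduct.mul_left, ih.2, ih.1]
          ext x
          simp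
      ext x
      · rw [(h2 _).2, ← hn]
        simp [pow_card_eq_one']
      · rw [(h2 _).1]; rfl
  have h2 : F ((Λ ≀ᵣ Q) × X) := fprod hF h1.1 hX
  set φ : N ≀ᵣ X →* (Λ ≀ᵣ Q) × X := (psi μ π).prod RegularWreathProduct.rightHom with hφ
  obtain ⟨h, hh, h3⟩ := hH.top φ.rangeRestrict φ.rangeRestrict_surjective
    (hher _ φ.range h2) u
  have h4 : φ h = φ u := congrArg Subtype.val h3
  refine ⟨h, hh, congrArg Prod.snd h4, ?_⟩
  have h5 : psi μ π h = psi μ π u := congrArg Prod.fst h4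
  rw [h5]

end

/-- powers in the base group -/
lemma pow_base {N X : Type} [Group N] [Group X] (a : N ≀ᵣ X) (ha : a.right = 1) (i : ℕ) :
    (a ^ i).right = 1 ∧ (a ^ i).left = a.left ^ i := by
  induction i with
  | zero => simp
  | succ i ih =>
    rw [pow_succ, pow_succ]
    refine ⟨by simp [ih.1, ha], ?_⟩
    rw [RegularWreathProduct.mul_left, ih.2, ih.1]
    ext x
    simp

/-- the `r`-part of an element, as a power -/
lemma exists_r_part (G : Type) [Group G] [Finite G] {r : ℕ} (hr : r.Prime) (c : ℕ) :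
    ∃ e : ℕ, (∀ g : G, ∃ j, (g ^ e) ^ r ^ j = 1) ∧
      ∀ (Λ : Type) [Group Λ] (l : Λ), l ^ r ^ c = 1 → l ^ e = l := by
  have hn : Nat.card G ≠ 0 := Nat.card_pos.ne'
  obtain ⟨a, b, hb, hab⟩ := Nat.exists_eq_pow_mul_and_not_dvd hn r hr.ne_one
  have hcop : Nat.Coprime b (r ^ c) :=
    Nat.Coprime.pow_right _ ((Nat.Prime.coprime_iff_not_dvd hr).2 hb).symm
  obtain ⟨e, he1, he2⟩ := Nat.chineseRemainder hcop 0 1
  refine ⟨e, ?_, ?_⟩
  · intro g
    refine ⟨a, ?_⟩
    obtain ⟨t, rfl⟩ := (Nat.modEq_zero_iff_dvd).1 he1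
    rw [← pow_mul]
    have h1 : b * t * r ^ a = Nat.card G * t := by rw [hab]; ring
    rw [h1, pow_mul, pow_card_eq_one', one_pow]
  · intro Λ _ l hl
    have h1 : orderOf l ∣ r ^ c := orderOf_dvd_of_pow_eq_one hl
    have h2 : l ^ e = l ^ 1 := pow_eq_pow_iff_modEq.2 (he2.of_dvd h1)
    rwa [pow_one] at h2

section

variable (hF : IsFormation F) (hf : IsLocallyDefinedBy F f)

include hF hf

/-- **Main lemma.** -/
theorem main_lemma (hher : ∀ (G : Type) [Group G] (H : Subgroup G), F G → F H)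
    {r s : ℕ} (hr : r.Prime) (hs : s.Prime) (hfr : IsFormation (f r)) (hfs : IsFormation (f s))
    {N Λ X Y : Type} [Group N] [Finite N] [CommGroup Λ] [Nontrivial Λ] [Group X] [Group Y]
    [Finite X] [Finite Λ] (hΛ : IsPGroup r Λ) (μ : N →* Λ)
    (hμ : Function.Surjective μ) (hker : ∀ t : N, μ t = 1 → (∃ j, t ^ r ^ j = 1) → t = 1)
    (hX : F X) {H A : Subgroup (N ≀ᵣ X)} (hH : Cov F H) (hAH : A ≤ H)
    (hAn : ∀ h ∈ H, ∀ a ∈ A, h * a * h⁻¹ ∈ A) (hA : IsPGroup s A) (hA1 : A ≠ ⊥)
    (hAb : ∀ a ∈ A, a.right = 1)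
    (hfpf : ∀ a ∈ A, ∀ x, a.left x ≠ 1 → ∃ l : Λ, ∀ t : N, μ t = l → t * a.left x ≠ a.left x * t)
    (ζ : X →* Y) (hζ : Function.Surjective ζ) (hY : CF F f r Y) : CF F f s Y := by
  classical
  have : Fact r.Prime := ⟨hr⟩
  have hYf : Finite Y := hF.finite Y hY.1
  -- the right projection of `H` is onto
  have hright : ∀ x : X, ∃ h ∈ H, h.right = x := by
    intro x
    obtain ⟨h, h1, h2⟩ := hH.top (RegularWreathProduct.rightHom : N ≀ᵣ X →* X)
      (fun x => ⟨RegularWreathProduct.inl x, RegularWreathProduct.fun_id x⟩) hX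
      (RegularWreathProduct.inl x)
    exact ⟨h, h1, h2⟩
  -- the image in `Λ ≀ X`
  let ψ : N ≀ᵣ X →* Λ ≀ᵣ X := psi μ (MonoidHom.id X)
  have hψl : ∀ a x, (ψ a).left x = μ (a.left x) := by
    intro a x
    show (psi μ (MonoidHom.id X) a).left x = _
    rw [psi_left]
    let := Fintype.ofFinite X
    rw [Finset.prod_eq_single x]
    · simp
    · intro y _ hy; simp [hy]
    · simp
  have hψr : ∀ a, (ψ a).right = a.right := fun a => rfl
  let Hb : Subgroup (Λ ≀ᵣ X) := H.map ψ
  let πb : Hb →* X := RegularWreathProduct.rightHom.comp Hb.subtype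
  have hπb : Function.Surjective πb := by
    intro x
    obtain ⟨h, h1, h2⟩ := hright x
    exact ⟨⟨ψ h, h, h1, rfl⟩, h2⟩
  have hFHb : F Hb := fsurj hF (ψ.subgroupMap H) (ψ.subgroupMap_surjective H) hH.1
  let L : Subgroup Hb := πb.ker
  have hLbase : ∀ l : Hb, l ∈ L → (l : Λ ≀ᵣ X).right = 1 := fun l hl => hl
  obtain ⟨cΛ, hcΛ⟩ := IsPGroup.iff_card.1 hΛ
  have hΛpow : ∀ l : Λ, l ^ r ^ cΛ = 1 := by
    intro l; rw [← hcΛ]; exact pow_card_eq_one'
  have hL : IsPGroup r L := by
    rintro ⟨l, hl⟩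
    refine ⟨cΛ, ?_⟩
    apply Subtype.ext
    apply Subtype.ext
    show (l : Λ ≀ᵣ X) ^ r ^ cΛ = 1
    have h1 := pow_base (l : Λ ≀ᵣ X) (hLbase l hl) (r ^ cΛ)
    ext x
    · rw [h1.2]; simp [hΛpow]
    · rw [h1.1]; rfl
  let C : Subgroup Hb := Subgroup.centralizer (L : Set Hb)
  have hCn : C.Normal := inferInstance
  let R : Subgroup X := C.map πb
  have hRn : R.Normal := hCn.map πb hπb
  have hRconst : ∀ h ∈ H, h.right = 1 → ∀ ρ ∈ R, ∀ x, μ (h.left (ρ * x)) = μ (h.left x) := by
    intro h hh h1 ρ hρ x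
    obtain ⟨g, hg, hgρ⟩ := R.inv_mem hρ
    have h2 : (⟨ψ h, h, hh, rfl⟩ : Hb) ∈ L := h1
    have h3 := (Subgroup.mem_centralizer_iff.1 hg) _ h2
    have h4 : ψ h * (g : Λ ≀ᵣ X) = g * ψ h := congrArg Subtype.val h3
    have h5 := congrFun (congrArg RegularWreathProduct.left h4) x
    simp only [RegularWreathProduct.mul_left, Pi.mul_apply] at h5
    have h6 : (g : Λ ≀ᵣ X).right = ρ⁻¹ := hgρ
    have h7 : (ψ h).right = 1 := h1
    rw [h6, h7, inv_inv, inv_one, one_mul, mul_comm, mul_left_cancel_iff, hψl, hψl] at h5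
    exact h5.symm
  have hCFR : CF F f r (X ⧸ R) := by
    refine CF_act hf hF hr hfr hFHb L hL ((QuotientGroup.mk' R).comp πb)
      ((QuotientGroup.mk'_surjective R).comp hπb) ?_
    intro g hg
    have h1 : g ∈ C := Subgroup.mem_centralizer_iff.2 fun l hl => ((hg l hl).eq).symm
    exact (QuotientGroup.eq_one_iff _).2 ⟨g, h1, rfl⟩
  -- all functions constant on cosets occur
  have hprod : ∀ h ∈ H, h.right = 1 → ∀ z : X,
      (psi μ (QuotientGroup.mk' R) h).left (QuotientGroup.mk' R z) =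
        μ (h.left z) ^ Nat.card R := by
    intro h hh h1 z
    rw [psi_left_const μ _ h _ (μ (h.left z))]
    · congr 1
      refine Nat.card_congr ((Equiv.mulLeft z⁻¹).subtypeEquiv ?_)
      intro y
      rw [eq_comm]
      exact QuotientGroup.eq
    · intro y h3
      have h4 : y * z⁻¹ ∈ R := by
        have h5 : z⁻¹ * y ∈ R := QuotientGroup.eq.1 h3.symm
        have h6 := hRn.conj_mem _ h5 z
        rwa [mul_inv_cancel_left] at h6
      have h5 := hRconst h hh h1 _ h4 z
      rwa [inv_mul_cancel_right] at h5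
  have hpsi1 : ∀ c : X ⧸ R → Λ, ∃ u : N ≀ᵣ X, u.right = 1 ∧
      (psi μ (QuotientGroup.mk' R) u).left = c := by
    intro c
    choose g hg using hμ
    choose w hw using QuotientGroup.mk'_surjective R
    refine ⟨⟨fun y => if w (QuotientGroup.mk' R y) = y then g (c (QuotientGroup.mk' R y)) else 1,
      1⟩, rfl, ?_⟩
    ext κ
    rw [psi_left]
    let := Fintype.ofFinite X
    rw [Finset.prod_eq_single (w κ)]
    · simp only [hw, if_true, hg]
    · intro y _ hy
      by_cases h : QuotientGroup.mk' R y = κ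
      · have h1 : w (QuotientGroup.mk' R y) ≠ y := by rw [h]; exact hy.symm
        simp only [h1, if_false, map_one, ite_self]
      · simp only [h, if_false]
    · simp
  have hpow : Function.Surjective (fun l : Λ => l ^ Nat.card R) := by
    intro l
    obtain ⟨u, hu1, hu2⟩ := hpsi1 fun _ => l
    obtain ⟨h, hh, h1, h2⟩ := star hF hf hher hr hΛ μ (QuotientGroup.mk' R) hX hCFR hH u
    refine ⟨μ (h.left 1), ?_⟩
    have h3 := hprod h hh (h1.trans hu1) 1
    rw [h2, hu2] at h3
    exact h3.symm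
  have hpowi : Function.Injective (fun l : Λ => l ^ Nat.card R) :=
    Finite.injective_iff_surjective.2 hpow
  have hall : ∀ c : X ⧸ R → Λ, ∃ h ∈ H, h.right = 1 ∧
      ∀ y, μ (h.left y) = c (QuotientGroup.mk' R y) := by
    intro c
    obtain ⟨u, hu1, hu2⟩ := hpsi1 fun κ => c κ ^ Nat.card R
    obtain ⟨h, hh, h1, h2⟩ := star hF hf hher hr hΛ μ (QuotientGroup.mk' R) hX hCFR hH u
    refine ⟨h, hh, h1.trans hu1, fun y => ?_⟩
    have h3 := hprod h hh (h1.trans hu1) y
    rw [h2, hu2] at h3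
    exact hpowi h3.symm
  -- `R` is contained in the kernel of `ζ`
  obtain ⟨l1, hl1⟩ := exists_ne (1 : Λ)
  have hRZ : ∀ ρ ∈ R, ζ ρ = 1 := by
    intro ρ hρ
    by_contra hne
    obtain ⟨t1, ht1⟩ := hμ l1
    obtain ⟨h, hh, h1, h2⟩ := star hF hf hher hr hΛ μ ζ hX hY hH
      (⟨fun y => if y = 1 then t1 else 1, 1⟩ : N ≀ᵣ X)
    have h3 := psi_left_eq μ ζ h ρ (fun y => hRconst h hh h1 ρ hρ y) 1
    rw [h2, mul_one, psi_left, psi_left] at h3
    have h4 : ∀ κ : Y, (let := Fintype.ofFinite X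
      ∏ y : X, if ζ y = κ then μ (if y = 1 then t1 else 1) else 1) = if κ = 1 then l1 else 1 := by
      intro κ
      let := Fintype.ofFinite X
      rw [Finset.prod_eq_single (1 : X)]
      · rw [map_one, if_pos rfl, ht1]
        by_cases h : κ = 1
        · simp [h]
        · rw [if_neg h, if_neg (Ne.symm h)]
      · intro y _ hy
        rw [if_neg hy, map_one, ite_self]
      · simp
    have h5 : (1 : Λ) = l1 := by
      have h6 := (h4 (ζ ρ)).symm.trans (Eq.trans ?_ (h4 1))
      · rwa [if_neg hne, if_pos rfl] at h6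
      · convert h3
    exact hl1 h5.symm
  -- choose an element of `A`
  obtain ⟨a, haA, ha1⟩ : ∃ a ∈ A, a ≠ 1 := (Subgroup.bot_or_exists_ne_one A).resolve_left hA1
  obtain ⟨z, hz⟩ : ∃ z, a.left z ≠ 1 := by
    by_contra hcon
    push Not at hcon
    exact ha1 (RegularWreathProduct.ext (funext hcon) (hAb a haA))
  obtain ⟨l, hl⟩ := hfpf a haA z hz
  obtain ⟨h0, hh0, h01, h02⟩ := hall fun κ => if κ = QuotientGroup.mk' R z then l else 1
  obtain ⟨e, he1, he2⟩ := exists_r_part N hr cΛ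
  have hh1 : h0 ^ e ∈ H := H.pow_mem hh0 e
  have hp := pow_base h0 h01 e
  set h := h0 ^ e with hh
  have hμh : ∀ y, μ (h.left y) = if QuotientGroup.mk' R y = QuotientGroup.mk' R z then l else 1 := by
    intro y
    rw [hp.2, Pi.pow_apply, map_pow, h02, he2 Λ _ (hΛpow _)]
  have hhy : ∀ y, QuotientGroup.mk' R y ≠ QuotientGroup.mk' R z → h.left y = 1 := by
    intro y hy
    refine hker _ ?_ ?_
    · rw [hμh, if_neg hy]
    · rw [hp.2]
      exact he1 _
  set c := h * a * h⁻¹ * a⁻¹ with hc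
  have hcA : c ∈ A := A.mul_mem (hAn h hh1 a haA) (A.inv_mem haA)
  have hcl : ∀ y, c.left y = h.left y * a.left y * (h.left y)⁻¹ * (a.left y)⁻¹ := by
    intro y
    rw [hc]
    simp [hp.1, hAb a haA]
  have hcz : c.left z ≠ 1 := by
    rw [hcl]
    intro h1
    have h2 : μ (h.left z) = l := by rw [hμh, if_pos rfl]
    refine hl _ h2 ?_
    rw [mul_inv_eq_one, mul_inv_eq_iff_eq_mul] at h1
    exact h1
  have hcy : ∀ y, c.left y ≠ 1 → QuotientGroup.mk' R y = QuotientGroup.mk' R z := by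
    intro y hy
    by_contra h1
    refine hy ?_
    rw [hcl, hhy y h1]
    simp
  -- conclusion
  have hAH' : (A.subgroupOf H).Normal := by
    refine ⟨?_⟩
    rintro ⟨a', ha'⟩ ha'' ⟨h', hh'⟩
    exact hAn h' hh' a' ha''
  have hAH'' : IsPGroup s (A.subgroupOf H) :=
    hA.comap_of_injective H.subtype H.subtype_injective
  refine CF_act hf hF hs hfs hH.1 (A.subgroupOf H) hAH''
    (ζ.comp (RegularWreathProduct.rightHom.comp H.subtype)) ?_ ?_
  · refine hζ.comp fun x => ?_
    obtain ⟨h, h1, h2⟩ := hright x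
    exact ⟨⟨h, h1⟩, h2⟩
  · rintro ⟨g, hg⟩ hgc
    have h1 := hgc ⟨c, hAH hcA⟩ hcA
    have h2 : g * c = c * g := congrArg Subtype.val h1.eq
    have h3 := congrFun (congrArg RegularWreathProduct.left h2) z
    simp only [RegularWreathProduct.mul_left, Pi.mul_apply, hAb c hcA, inv_one, one_mul] at h3
    have h4 : c.left (g.right⁻¹ * z) ≠ 1 := by
      intro h5
      rw [h5, mul_one] at h3
      exact hcz (by simpa using h3)
    have h5 := hcy _ h4
    have h6 : (g.right⁻¹ * z)⁻¹ * z ∈ R := QuotientGroup.eq.1 h5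
    have h7 : ζ ((g.right⁻¹ * z)⁻¹ * z) = 1 := hRZ _ h6
    show ζ g.right = 1
    rw [mul_inv_rev, inv_inv, map_mul, map_mul, map_inv] at h7
    have h8 := congrArg (fun w => ζ z * w * (ζ z)⁻¹) h7
    simpa [mul_assoc] using h8

end

end Pool.Agent.CoveringSubgroups.H9
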